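import Pool.Agent.Lib.H17B.Defs

set_option autoImplicit false

/-!
# H17B: the asymptotic hypotheses on a boosted slice
-/

open MeasureTheory Filter Topology Set Asymptotics
open scoped ContDiff

namespace H17B

open H17T
open Pool.Agent.Lib.PenroseSph (E3 Tens S2 sm pd)

/-- `φ = 1 + c/ρ + O(ρ⁻²)` at the events near the slice, and the same for the first derivatives. -/
def Exp1 (f : E3 → ℝ) (c : ℝ) (φ : E4 → ℝ) : Prop :=
  ∃ C R : ℝ, 0 < R ∧ ∀ p ∈ Near f, R ≤ ‖pos p‖ → |φ p - (1 + c / ‖pos p‖)| ≤ C / ‖pos p‖ ^ 2 ∧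
    ∀ a, |H31R.pd a (fun q => φ q - (1 + c / ‖pos q‖)) p| ≤ C / ‖pos p‖ ^ 3

/-- The space-time is asymptotic to the Schwarzschild space-time of mass `m`, the slice to the boosted hyperplane
`T = β x_0`. -/
structure BoostEnd (F : E4 → ℝ) (k : ℝ → ℝ) (r : ℝ × ℝ → ℝ) (f : E3 → ℝ) (m β : ℝ) : Prop where
  beta : |β| < 1
  f_decay : ∃ C R : ℝ, 0 < R ∧ ∀ x : E3, R ≤ ‖x‖ → (∀ i, |pd i f x - (if i = 0 then β else 0)| ≤ C / ‖x‖) ∧
    ∀ i j, |pd i (pd j f) x| ≤ C / ‖x‖ ^ 2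
  F_decay : Exp1 f (-(2 * m)) F
  k_decay : Exp1 f (2 * m) fun p => k ‖pos p‖
  r_decay : Exp1 f m fun p => r (p 0, ‖pos p‖) / ‖pos p‖


end H17B
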