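import Pool.Agent.Lib.H17B.Defs
import Pool.Agent.Lib.H17V.Defs

set_option autoImplicit false

/-!
# H17B over H17V: the asymptotic hypotheses on a slice which may be boosted at infinity
-/

open MeasureTheory Filter Topology Set Asymptotics
open scoped ContDiff

namespace H17V

open H17T H17B
open Pool.Agent.Lib.PenroseSph (E3 Tens S2 sm pd)

/-- `φ = 1 + c/ρ + O(ρ⁻²)` at the events `Near R₀ f`, and the same for the first derivatives. -/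
def Exp1 (R₀ : ℝ) (f : E3 → ℝ) (c : ℝ) (φ : E4 → ℝ) : Prop :=
  ∃ C R : ℝ, 0 < R ∧ ∀ p ∈ Near R₀ f, R ≤ ‖pos p‖ → |φ p - (1 + c / ‖pos p‖)| ≤ C / ‖pos p‖ ^ 2 ∧
    ∀ a, |H31R.pd a (fun q => φ q - (1 + c / ‖pos q‖)) p| ≤ C / ‖pos p‖ ^ 3

/-- The space-time is asymptotic to the Schwarzschild space-time of mass `m`, the slice to the boosted hyperplane
`T = β x_0`. -/
structure BoostEnd (R₀ : ℝ) (F : E4 → ℝ) (k : ℝ → ℝ) (r : ℝ × ℝ → ℝ) (f : E3 → ℝ) (m β : ℝ) : Prop where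
  beta : |β| < 1
  f_decay : ∃ C R : ℝ, 0 < R ∧ ∀ x : E3, R ≤ ‖x‖ → (∀ i, |pd i f x - (if i = 0 then β else 0)| ≤ C / ‖x‖) ∧
    ∀ i j, |pd i (pd j f) x| ≤ C / ‖x‖ ^ 2
  F_decay : Exp1 R₀ f (-(2 * m)) F
  k_decay : Exp1 R₀ f (2 * m) fun p => k ‖pos p‖
  r_decay : Exp1 R₀ f m fun p => r (p 0, ‖pos p‖) / ‖pos p‖

/-- The space-time and the slice are asymptotically flat; the slice is asymptotic to the hyperplane `T = β x_0` (the first
derivatives of `f` converge like `1/|x|`). If `β ≠ 0`, the space-time is in addition asymptotic to a Schwarzschild space-time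
(in isotropic coordinates). -/
structure AsympFlatB (R₀ β : ℝ) (F : E4 → ℝ) (k : ℝ → ℝ) (r : ℝ × ℝ → ℝ) (f : E3 → ℝ) : Prop where
  beta : |β| < 1
  f_decay : ∃ C R : ℝ, 0 < R ∧ ∀ x : E3, R ≤ ‖x‖ → (∀ i, |pd i f x - (if i = 0 then β else 0)| ≤ C / ‖x‖) ∧
    ∀ i j, |pd i (pd j f) x| ≤ C / ‖x‖ ^ 2
  F_decay : Decay R₀ f F
  k_decay : Decay R₀ f fun p => k ‖pos p‖
  r_decay : Decay R₀ f fun p => r (p 0, ‖pos p‖) / ‖pos p‖
  schw : β ≠ 0 → ∃ m : ℝ, Exp1 R₀ f (-(2 * m)) F ∧ Exp1 R₀ f (2 * m) (fun p => k ‖pos p‖) ∧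
    Exp1 R₀ f m fun p => r (p 0, ‖pos p‖) / ‖pos p‖

end H17V
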