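import Pool.Agent.Lib.H17B.Main

set_option autoImplicit false

/-!
# H17B: one statement for all velocities at infinity
-/

open MeasureTheory Filter Topology Set Asymptotics
open scoped ContDiff

namespace H17B

open H17T
open Pool.Agent.Lib.PenroseSph (E3 Tens S2 sm pd trg fluxDensity momDensity admFlux admMom DefFun meanCurv trLevel)

/-- The space-time and the slice are asymptotically flat; the slice is asymptotic to the hyperplane `T = β x_0`. If `β ≠ 0`,
the space-time is in addition asymptotic to a Schwarzschild space-time (in isotropic coordinates). -/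
structure AsympFlatB (β : ℝ) (F : E4 → ℝ) (k : ℝ → ℝ) (r : ℝ × ℝ → ℝ) (f : E3 → ℝ) : Prop where
  beta : |β| < 1
  f_decay : ∃ C R : ℝ, 0 < R ∧ ∀ x : E3, R ≤ ‖x‖ → (∀ i, |pd i f x - (if i = 0 then β else 0)| ≤ C / ‖x‖) ∧
    ∀ i j, |pd i (pd j f) x| ≤ C / ‖x‖ ^ 2
  F_decay : Decay f F
  k_decay : Decay f fun p => k ‖pos p‖
  r_decay : Decay f fun p => r (p 0, ‖pos p‖) / ‖pos p‖
  schw : β ≠ 0 → ∃ m : ℝ, Exp1 f (-(2 * m)) F ∧ Exp1 f (2 * m) (fun p => k ‖pos p‖) ∧
    Exp1 f m fun p => r (p 0, ‖pos p‖) / ‖pos p‖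

theorem boost_zero (g : Tens) : boost 0 g = g := by
  have h1 : lor 0 = 1 := by simp [lor]
  have h2 : ∀ y : E3, stretch 1 y = y := by
    intro y
    ext i
    fin_cases i <;> simp [stretch]
  funext y
  ext i j
  simp [boost, h1, h2, sc]

theorem main_all {β : ℝ} {F : E4 → ℝ} {k : ℝ → ℝ} {r : ℝ × ℝ → ℝ} {f : E3 → ℝ} (hS : Slice F k r f)
    (hA : AsympFlatB β F k r f) {h : Tens}
    (hh : (∀ x, h x = second (stMetric F k r) f x) ∨ ∀ x, h x = -second (stMetric F k r) f x)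
    {E : ℝ} {P : Fin 3 → ℝ} (hE : Tendsto (admFlux (boost β (slice (stMetric F k r) f))) atTop (𝓝 E))
    (hP : ∀ i, Tendsto (admMom (boost β (slice (stMetric F k r) f)) (boost β h) i) atTop (𝓝 (P i)))
    {Om : Set E3} (hOo : IsOpen Om) (hOb : Bornology.IsBounded Om)
    (hin : (∃ δ : ℝ, 0 < δ ∧ ∀ x : E3, x ≠ 0 → ‖x‖ < δ → x ∈ Om) ∨
      (Om.Nonempty ∧ ContinuousAt f 0 ∧ ∃ K δ : ℝ, 0 < δ ∧ ∀ t : ℝ, 0 < t → t < δ → k t ≤ K))
    (hor : ∀ x ∈ frontier Om, x ≠ 0 → ∃ w : E3 → ℝ, DefFun Om w x ∧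
      meanCurv (slice (stMetric F k r) f) w x ≤ trLevel (slice (stMetric F k r) f) h w x) :
    ∑ i, P i ^ 2 = β ^ 2 * E ^ 2 ∧ Real.sqrt (∑ i, P i ^ 2) < E ∧
      ∀ δ : ℝ, 0 < δ → ∃ s : E3 → ℝ, RadialGraph s ∧ (∀ x ∈ Om, x ≠ 0 → ‖x‖ < s x) ∧
        graphArea (slice (stMetric F k r) f) s ≤ 16 * Real.pi * (E ^ 2 - ∑ i, P i ^ 2) + δ := by
  by_cases hβ : β = 0
  · subst hβ
    rw [boost_zero] at hE
    simp only [boost_zero] at hP
    have hA' : AsympFlat F k r f := by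
      refine ⟨?_, hA.F_decay, hA.k_decay, hA.r_decay⟩
      obtain ⟨C, R, hR, h⟩ := hA.f_decay
      refine ⟨C, R, hR, fun x hx => ⟨fun i => ?_, (h x hx).2⟩⟩
      have := (h x hx).1 i
      simpa using this
    obtain ⟨h1, h2⟩ := main hS hA' hh hE hP hOo hOb hin hor
    refine ⟨?_, h1, h2⟩
    obtain ⟨C, R, hB⟩ := bounds hS hA'
    have hP0 : ∀ i, P i = 0 := by
      intro i
      have h3 := mom_lim hS hB i
      rcases hh with hh | hh
      · have e : h = second (stMetric F k r) f := funext hh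
        have h4 := hP i
        rw [e] at h4
        exact tendsto_nhds_unique h4 h3
      · have e : h = fun x => -second (stMetric F k r) f x := funext hh
        have h4 := hP i
        rw [e, admMom_neg] at h4
        have h5 := tendsto_nhds_unique h4 h3.neg
        rw [h5, neg_zero]
    simp [hP0]
  · obtain ⟨m, h1, h2, h3⟩ := hA.schw hβ
    obtain ⟨E', P', hE', hP', -, -, h6, h7, h8⟩ :=
      main_boost hS (m := m) (β := β) ⟨hA.beta, hA.f_decay, h1, h2, h3⟩ hh hOo hOb hin hor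
    have e1 : E = E' := tendsto_nhds_unique hE hE'
    have e2 : P = P' := funext fun i => tendsto_nhds_unique (hP i) (hP' i)
    subst e1
    subst e2
    exact ⟨h6, h7, h8⟩

end H17B
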