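import Pool.Agent.Lib.H17B.Defs

set_option autoImplicit false

/-!
# H17B, chunk B0 (S/M, pure): inverse of a matrix which tends to a constant matrix

`A x → A0` (`‖x‖⁻¹ → 0` along `LL`, `tendsto_norm_cobounded_atTop`), so `det (A x) → det A0 ≠ 0` and `(A x)⁻¹ → A0⁻¹` (continuity of
`det`, `adjugate`; `Matrix.inv_def`). Where `det (A x) ≠ 0`: `A⁻¹ - A0⁻¹ = -A⁻¹ (A - A0) A0⁻¹`; the entries of `A⁻¹` are bounded,
so each entry is a finite sum of terms `O(1) * O(‖x‖⁻¹) * const`.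
-/

open MeasureTheory Filter Topology Set Asymptotics
open scoped ContDiff

namespace H17B

open H17T
open Pool.Agent.Lib.PenroseSph (E3 Tens S2 sm pd trg fluxDensity momDensity admFlux admMom DefFun meanCurv trLevel)

theorem inv_bigO {n : ℕ} {A : E3 → Matrix (Fin n) (Fin n) ℝ} {A0 : Matrix (Fin n) (Fin n) ℝ} (h0 : A0.det ≠ 0)
    (hA : ∀ i j, (fun x => A x i j - A0 i j) =O[LL] fun x => ‖x‖⁻¹) (i j : Fin n) :
    (fun x => (A x)⁻¹ i j - A0⁻¹ i j) =O[LL] fun x => ‖x‖⁻¹ := by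
  have htend : Tendsto (fun x : E3 => ‖x‖⁻¹) LL (𝓝 0) :=
    tendsto_inv_atTop_zero.comp tendsto_norm_cobounded_atTop
  have hent : ∀ i j, Tendsto (fun x => A x i j) LL (𝓝 (A0 i j)) := by
    intro i j
    have h1 := (hA i j).trans_tendsto htend
    have h2 := h1.add_const (A0 i j)
    simpa using h2
  have hAt : Tendsto A LL (𝓝 A0) := tendsto_pi_nhds.2 fun i => tendsto_pi_nhds.2 fun j => hent i j
  have hdet : Tendsto (fun x => (A x).det) LL (𝓝 A0.det) :=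
    ((continuous_id.matrix_det).tendsto A0).comp hAt
  have hadj : Tendsto (fun x => (A x).adjugate) LL (𝓝 A0.adjugate) :=
    ((continuous_id.matrix_adjugate).tendsto A0).comp hAt
  have hinv : Tendsto (fun x => (A x)⁻¹) LL (𝓝 A0⁻¹) := by
    have h1 := (hdet.inv₀ h0).smul hadj
    simp only [Matrix.inv_def, Ring.inverse_eq_inv']
    exact h1
  have hbd : ∀ i j, (fun x => (A x)⁻¹ i j) =O[LL] fun _ => (1 : ℝ) := by
    intro i j
    exact (tendsto_pi_nhds.1 (tendsto_pi_nhds.1 hinv i) j).isBigO_one ℝ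
  have hne : ∀ᶠ x in LL, (A x).det ≠ 0 := hdet.eventually_ne h0
  have hid : ∀ᶠ x in LL, -∑ k, ∑ l, (A x)⁻¹ i k * (A x k l - A0 k l) * A0⁻¹ l j = (A x)⁻¹ i j - A0⁻¹ i j := by
    filter_upwards [hne] with x hx
    have hu : IsUnit (A x).det := isUnit_iff_ne_zero.2 hx
    have hu0 : IsUnit A0.det := isUnit_iff_ne_zero.2 h0
    have h1 : (A x)⁻¹ * (A x - A0) * A0⁻¹ = A0⁻¹ - (A x)⁻¹ := by
      rw [Matrix.mul_sub, Matrix.sub_mul, Matrix.nonsing_inv_mul _ hu, one_mul, mul_assoc,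
        Matrix.mul_nonsing_inv _ hu0, mul_one]
    have h2 : ((A x)⁻¹ * (A x - A0) * A0⁻¹) i j = ∑ k, ∑ l, (A x)⁻¹ i k * (A x k l - A0 k l) * A0⁻¹ l j := by
      rw [Matrix.mul_apply]
      simp only [Matrix.mul_apply, Finset.sum_mul, Matrix.sub_apply]
      rw [Finset.sum_comm]
    rw [← h2, h1, Matrix.sub_apply]
    ring
  refine IsBigO.congr' ?_ hid EventuallyEq.rfl
  refine IsBigO.neg_left ?_
  refine IsBigO.fun_sum fun k _ => ?_
  refine IsBigO.fun_sum fun l _ => ?_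
  have h1 := ((hbd i k).mul (hA k l)).mul (isBigO_refl (fun _ : E3 => A0⁻¹ l j) LL)
  refine h1.trans ?_
  have h2 : (fun x : E3 => 1 * ‖x‖⁻¹ * A0⁻¹ l j) = fun x : E3 => A0⁻¹ l j * ‖x‖⁻¹ := by
    funext x
    ring
  rw [h2]
  exact isBigO_const_mul_self (A0⁻¹ l j) (fun x : E3 => ‖x‖⁻¹) LL

end H17B
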