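import Pool.Agent.Lib.H17B.Defs

set_option autoImplicit false

/-!
# H17B, chunk B1 (S/M, pure): the map `stretch` and the Lorentz factor

`‖(γ y0, y1, y2)‖² = γ² y0² + y1² + y2²` (`EuclideanSpace.norm_sq_eq`, `Fin.sum_univ_three`). `γ ≥ 1`. `stretch γ` is linear.
`‖y‖ ≤ ‖stretch γ y‖` gives `Tendsto (stretch γ) LL LL` and the estimate of the inverse powers of the norms.
-/

open MeasureTheory Filter Topology Set Asymptotics
open scoped ContDiff

namespace H17B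

open H17T
open Pool.Agent.Lib.PenroseSph (E3 Tens S2 sm pd trg fluxDensity momDensity admFlux admMom DefFun meanCurv trLevel)

theorem b1_le_of_sq {a b : ℝ} (h : a ^ 2 ≤ b ^ 2) (hb : 0 ≤ b) : a ≤ b :=
  (abs_le_of_sq_le_sq' h hb).2

theorem lor_one_le {β : ℝ} (h : |β| < 1) : 1 ≤ lor β ∧ lor β ^ 2 * (1 - β ^ 2) = 1 := by
  have h1 : β ^ 2 < 1 := by
    rw [← sq_abs]
    nlinarith [abs_nonneg β]
  have h2 : 0 < 1 - β ^ 2 := by linarith
  have h3 : 0 < Real.sqrt (1 - β ^ 2) := Real.sqrt_pos.2 h2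
  have h4 : Real.sqrt (1 - β ^ 2) ≤ 1 := by
    rw [Real.sqrt_le_one]
    nlinarith [sq_nonneg β]
  refine ⟨?_, ?_⟩
  · unfold lor
    rw [le_div_iff₀ h3]
    linarith
  · unfold lor
    rw [div_pow, Real.sq_sqrt h2.le]
    field_simp

theorem stretch_norm_sq (γ : ℝ) (y : E3) : ‖stretch γ y‖ ^ 2 = ‖y‖ ^ 2 + (γ ^ 2 - 1) * y 0 ^ 2 := by
  rw [EuclideanSpace.norm_sq_eq, EuclideanSpace.norm_sq_eq, Fin.sum_univ_three, Fin.sum_univ_three]
  simp only [Real.norm_eq_abs, sq_abs]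
  show (γ * y 0) ^ 2 + (y 1) ^ 2 + (y 2) ^ 2 = _
  ring

theorem stretch_le {γ : ℝ} (h : 1 ≤ γ) (y : E3) : ‖y‖ ≤ ‖stretch γ y‖ ∧ ‖stretch γ y‖ ≤ γ * ‖y‖ := by
  have h1 := stretch_norm_sq γ y
  have h2 : y 0 ^ 2 ≤ ‖y‖ ^ 2 := by
    rw [EuclideanSpace.norm_sq_eq, Fin.sum_univ_three]
    simp only [Real.norm_eq_abs, sq_abs]
    nlinarith [sq_nonneg (y 1), sq_nonneg (y 2)]
  have hg : 0 ≤ γ ^ 2 - 1 := by nlinarith
  constructor
  · refine b1_le_of_sq ?_ (norm_nonneg _)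
    rw [h1]
    nlinarith [mul_nonneg hg (sq_nonneg (y 0))]
  · refine b1_le_of_sq ?_ (mul_nonneg (by linarith) (norm_nonneg _))
    rw [h1, mul_pow]
    nlinarith [mul_le_mul_of_nonneg_left h2 hg]

theorem stretch_smul (γ c : ℝ) (y : E3) : stretch γ (c • y) = c • stretch γ y := by
  ext i
  fin_cases i
  · show γ * (c * y 0) = c * (γ * y 0)
    ring
  · show c * y 1 = c * y 1
    rfl
  · show c * y 2 = c * y 2
    rfl

theorem stretch_apply (γ : ℝ) (y : E3) (i : Fin 3) : stretch γ y i = sc γ i * y i := by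
  fin_cases i
  · show γ * y 0 = sc γ 0 * y 0
    simp [sc]
  · show y 1 = sc γ 1 * y 1
    simp [sc]
  · show y 2 = sc γ 2 * y 2
    simp [sc]

theorem stretch_smooth (γ : ℝ) : ContDiff ℝ ∞ (stretch γ) := by
  rw [contDiff_euclidean]
  intro i
  have h1 : (fun y : E3 => stretch γ y i) = fun y => sc γ i * (EuclideanSpace.proj i : E3 →L[ℝ] ℝ) y := by
    funext y
    rw [stretch_apply]
    rfl
  rw [h1]
  exact contDiff_const.mul (EuclideanSpace.proj i : E3 →L[ℝ] ℝ).contDiff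

theorem stretch_tendsto {γ : ℝ} (h : 1 ≤ γ) : Tendsto (stretch γ) LL LL := by
  rw [← tendsto_norm_atTop_iff_cobounded]
  exact tendsto_atTop_mono (fun y => (stretch_le h y).1) tendsto_norm_cobounded_atTop

theorem stretch_bigO {γ : ℝ} (h : 1 ≤ γ) (n : ℕ) :
    (fun y => (‖stretch γ y‖ ^ n)⁻¹) =O[LL] fun y => (‖y‖ ^ n)⁻¹ := by
  refine IsBigO.of_bound 1 ?_
  filter_upwards [tendsto_norm_cobounded_atTop.eventually_ge_atTop (1 : ℝ)] with y hy
  rw [one_mul, Real.norm_of_nonneg (by positivity), Real.norm_of_nonneg (by positivity)]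
  have h1 : 0 < ‖y‖ := by linarith
  exact inv_anti₀ (by positivity) (pow_le_pow_left₀ h1.le (stretch_le h y).1 n)

/-- composition of an estimate with `stretch` -/
theorem comp_stretch {γ : ℝ} (h : 1 ≤ γ) (n : ℕ) {φ : E3 → ℝ} (hφ : φ =O[LL] fun x => (‖x‖ ^ n)⁻¹) :
    (fun y => φ (stretch γ y)) =O[LL] fun y => (‖y‖ ^ n)⁻¹ := by
  exact (hφ.comp_tendsto (stretch_tendsto h)).trans (stretch_bigO h n)

end H17B
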