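import Pool.Agent.Lib.H17B.B1

set_option autoImplicit false

/-!
# H17B, chunk B2 (S/M, pure): partial derivatives of `φ ∘ stretch`

`fderiv (φ ∘ stretch γ) y v = fderiv φ (stretch γ y) (stretch γ v)` (`stretch γ` is linear: `stretch_smul`, additivity) and
`stretch γ (single i 1) = sc γ i • single i 1`. For the second derivative use the first formula in a neighbourhood of `y`
(`φ` is differentiable near `stretch γ y`) and apply it again to `pd j φ` (differentiable at `stretch γ y`).
-/

open MeasureTheory Filter Topology Set Asymptotics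
open scoped ContDiff

namespace H17B

open H17T
open Pool.Agent.Lib.PenroseSph (E3 Tens S2 sm pd trg fluxDensity momDensity admFlux admMom DefFun meanCurv trLevel)

/-- `stretch` as a continuous linear map. -/
noncomputable def b2_lin (γ : ℝ) : E3 →L[ℝ] E3 :=
  LinearMap.toContinuousLinearMap
    { toFun := stretch γ
      map_add' := fun x y => by
        ext i
        rw [stretch_apply, PiLp.add_apply, PiLp.add_apply, stretch_apply, stretch_apply]
        ring
      map_smul' := fun c x => stretch_smul γ c x }

theorem b2_lin_apply (γ : ℝ) (y : E3) : b2_lin γ y = stretch γ y := rfl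

theorem b2_lin_single (γ : ℝ) (i : Fin 3) :
    b2_lin γ (EuclideanSpace.single i 1) = sc γ i • EuclideanSpace.single i (1 : ℝ) := by
  ext j
  rw [b2_lin_apply, stretch_apply]
  show sc γ j * (EuclideanSpace.single i (1 : ℝ) : E3) j = sc γ i * (EuclideanSpace.single i (1 : ℝ) : E3) j
  by_cases h : j = i
  · rw [h]
  · simp [h]

theorem pd_stretch {γ : ℝ} {φ : E3 → ℝ} {y : E3} (h : DifferentiableAt ℝ φ (stretch γ y)) (i : Fin 3) :
    pd i (fun z => φ (stretch γ z)) y = sc γ i * pd i φ (stretch γ y) := by
  have h1 : HasFDerivAt (fun z => φ (b2_lin γ z)) ((fderiv ℝ φ (b2_lin γ y)).comp (b2_lin γ)) y := by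
    have h2 : HasFDerivAt φ (fderiv ℝ φ (b2_lin γ y)) (b2_lin γ y) := by
      rw [b2_lin_apply]
      exact h.hasFDerivAt
    exact h2.comp y (b2_lin γ).hasFDerivAt
  have h3 : (fun z => φ (b2_lin γ z)) = fun z => φ (stretch γ z) := rfl
  rw [h3] at h1
  unfold pd
  rw [h1.fderiv, ContinuousLinearMap.comp_apply, b2_lin_single, map_smul, b2_lin_apply]
  rfl

theorem pd2_stretch {γ : ℝ} {φ : E3 → ℝ} {y : E3} (h : ContDiffAt ℝ 2 φ (stretch γ y)) (i j : Fin 3) :
    pd i (pd j fun z => φ (stretch γ z)) y = sc γ i * sc γ j * pd i (pd j φ) (stretch γ y) := by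
  have hev : ∀ᶠ z in 𝓝 y, DifferentiableAt ℝ φ (stretch γ z) := by
    have h1 : ∀ᶠ w in 𝓝 (stretch γ y), DifferentiableAt ℝ φ w := by
      filter_upwards [h.eventually (by simp)] with w hw
      exact hw.differentiableAt (by norm_num)
    exact (stretch_smooth γ).continuous.continuousAt.eventually h1
  have heq : (pd j fun z => φ (stretch γ z)) =ᶠ[𝓝 y] fun z => sc γ j * pd j φ (stretch γ z) := by
    filter_upwards [hev] with z hz
    exact pd_stretch hz j
  have hd : DifferentiableAt ℝ (pd j φ) (stretch γ y) := by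
    have h1 : ContDiffAt ℝ 1 (fderiv ℝ φ) (stretch γ y) := h.fderiv_right (by norm_num)
    exact (h1.differentiableAt (by norm_num)).clm_apply (differentiableAt_const _)
  have hd' : DifferentiableAt ℝ (fun z => pd j φ (stretch γ z)) y :=
    hd.comp y ((stretch_smooth γ).differentiable (by simp)).differentiableAt
  have h2 : pd i (pd j fun z => φ (stretch γ z)) y = pd i (fun z => sc γ j * pd j φ (stretch γ z)) y := by
    unfold pd at heq ⊢
    rw [heq.fderiv_eq]
  rw [h2]
  have h3 : pd i (fun z => sc γ j * pd j φ (stretch γ z)) y = sc γ j * pd i (fun z => pd j φ (stretch γ z)) y := by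
    show fderiv ℝ (fun z => sc γ j * pd j φ (stretch γ z)) y _ = _
    rw [fderiv_const_mul hd']
    rfl
  rw [h3, pd_stretch hd i]
  ring

end H17B
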