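import Pool.Agent.Lib.H17B.Defs

set_option autoImplicit false

/-!
# H17B, chunk B3A (M): calculus of the expansions `Ex`

Facts on `LL`: `‖x‖ → ∞`; `(‖x‖^n)⁻¹ = O((‖x‖^m)⁻¹)` for `m ≤ n`; `|om x a| ≤ 1`; functions of the form `c/‖x‖` are `O(‖x‖⁻¹)`.
(mul) values: `φψ - (c0 d0 + (c0 d1 + c1 d0)/ρ) = (φ - c0 - c1/ρ) ψ + (c0 + c1/ρ)(ψ - d0 - d1/ρ) + c1 d1/ρ²`;
derivatives: `∂(φψ) = ∂φ ψ + φ ∂ψ` at points where both are differentiable, and
`∂φ ψ = -(c1/ρ²) om d0 + O(ρ⁻³)`, since `∂φ = -(c1/ρ²) om + O(ρ⁻³)` and `ψ = d0 + O(1/ρ)`.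
(bdd) `D = O(ρ⁻²)`, `∂D = O(ρ⁻³)`, `b = O(1)`, `∂b = O(ρ⁻¹)`.
-/

open MeasureTheory Filter Topology Set Asymptotics
open scoped ContDiff

namespace H17B

open H17T
open Pool.Agent.Lib.PenroseSph (E3 Tens S2 sm pd trg fluxDensity momDensity admFlux admMom DefFun meanCurv trLevel)

theorem ex_pow_le {m n : ℕ} (h : m ≤ n) : (fun x : E3 => (‖x‖ ^ n)⁻¹) =O[LL] fun x => (‖x‖ ^ m)⁻¹ := by
  refine IsBigO.of_bound 1 ?_
  filter_upwards [tendsto_norm_cobounded_atTop.eventually_ge_atTop (1 : ℝ)] with y hy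
  rw [one_mul, Real.norm_of_nonneg (by positivity), Real.norm_of_nonneg (by positivity)]
  have h1 : 0 < ‖y‖ := by linarith
  exact inv_anti₀ (by positivity) (pow_le_pow_right₀ hy h)

theorem ex_om (a : Fin 4) (x : E3) : |om x a| ≤ 1 := by
  refine Fin.cases ?_ (fun i => ?_) a
  · simp [om]
  · have h1 : om x i.succ = x i / ‖x‖ := rfl
    rw [h1, abs_div, abs_norm]
    refine div_le_one_of_le₀ ?_ (norm_nonneg _)
    have h2 := EuclideanSpace.norm_sq_eq x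
    have h3 : x i ^ 2 ≤ ‖x‖ ^ 2 := by
      rw [h2]
      have h4 := Finset.single_le_sum (f := fun j => ‖x j‖ ^ 2) (fun j _ => sq_nonneg _) (Finset.mem_univ i)
      simpa using h4
    exact abs_le_of_sq_le_sq h3 (norm_nonneg _)

theorem b3a_lin (c0 c1 : ℝ) : (fun x : E3 => c0 + c1 / ‖x‖) =O[LL] fun _ => (1 : ℝ) := by
  have htend : Tendsto (fun x : E3 => ‖x‖⁻¹) LL (𝓝 0) :=
    tendsto_inv_atTop_zero.comp tendsto_norm_cobounded_atTop
  have h1 : Tendsto (fun x : E3 => c0 + c1 / ‖x‖) LL (𝓝 (c0 + c1 * 0)) := by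
    simp only [div_eq_mul_inv]
    exact (htend.const_mul c1).const_add c0
  exact h1.isBigO_one ℝ

theorem b3a_inv1 : (fun x : E3 => (‖x‖ ^ 2)⁻¹) =O[LL] fun x => ‖x‖⁻¹ := by
  have := ex_pow_le (show 1 ≤ 2 by norm_num)
  simpa using this

theorem b3a_val1 {f : E3 → ℝ} {c0 c1 : ℝ} {φ : E4 → ℝ} (h : Ex f c0 c1 φ) :
    (fun x => φ (PP f x) - c0) =O[LL] fun x => ‖x‖⁻¹ := by
  have e1 := h.val.trans b3a_inv1
  have e2 : (fun x : E3 => c1 * ‖x‖⁻¹) =O[LL] fun x => ‖x‖⁻¹ := isBigO_const_mul_self _ _ _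
  refine (e1.add e2).congr_left fun x => ?_
  rw [div_eq_mul_inv]
  ring

theorem b3a_one {f : E3 → ℝ} {c0 c1 : ℝ} {φ : E4 → ℝ} (h : Ex f c0 c1 φ) :
    (fun x => φ (PP f x)) =O[LL] fun _ => (1 : ℝ) := by
  have htend : Tendsto (fun x : E3 => ‖x‖⁻¹) LL (𝓝 0) :=
    tendsto_inv_atTop_zero.comp tendsto_norm_cobounded_atTop
  have h1 := ((b3a_val1 h).trans_tendsto htend).add_const c0
  have h2 : Tendsto (fun x => φ (PP f x)) LL (𝓝 (0 + c0)) := by
    refine h1.congr fun x => ?_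
    ring
  exact h2.isBigO_one ℝ

theorem b3a_c2 (c1 : ℝ) (a : Fin 4) : (fun x : E3 => c1 / ‖x‖ ^ 2 * om x a) =O[LL] fun x => (‖x‖ ^ 2)⁻¹ := by
  refine IsBigO.of_bound |c1| (Eventually.of_forall fun x => ?_)
  rw [norm_mul, norm_div, Real.norm_of_nonneg (show (0 : ℝ) ≤ (‖x‖ ^ 2)⁻¹ by positivity), Real.norm_eq_abs,
    Real.norm_of_nonneg (show (0 : ℝ) ≤ ‖x‖ ^ 2 by positivity), Real.norm_eq_abs, div_eq_mul_inv]
  exact mul_le_of_le_one_right (by positivity) (ex_om a x)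

theorem Ex.const (f : E3 → ℝ) (c : ℝ) : Ex f c 0 fun _ => c := by
  refine ⟨?_, ?_, ?_⟩
  · have h1 : (fun x : E3 => c - (c + 0 / ‖x‖)) = fun _ => (0 : ℝ) := by
      funext x
      simp
    show (fun x : E3 => c - (c + 0 / ‖x‖)) =O[LL] _
    rw [h1]
    exact isBigO_zero _ _
  · intro a
    have h1 : (fun x : E3 => H31R.pd a (fun _ : E4 => c) (PP f x) + 0 / ‖x‖ ^ 2 * om x a) = fun _ => (0 : ℝ) := by
      funext x
      simp [H31R.pd]
    rw [h1]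
    exact isBigO_zero _ _
  · exact Eventually.of_forall fun x => differentiableAt_const _

theorem Ex.neg {f : E3 → ℝ} {c0 c1 : ℝ} {φ : E4 → ℝ} (h : Ex f c0 c1 φ) : Ex f (-c0) (-c1) fun p => -φ p := by
  refine ⟨?_, ?_, ?_⟩
  · refine h.val.neg_left.congr_left fun x => ?_
    ring
  · intro a
    refine (h.der a).neg_left.congr_left fun x => ?_
    have h1 : H31R.pd a (fun p => -φ p) (PP f x) = -H31R.pd a φ (PP f x) := by
      unfold H31R.pd
      rw [fderiv_fun_neg]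
      rfl
    rw [h1]
    ring
  · filter_upwards [h.diff] with x hx
    exact hx.fun_neg

theorem Ex.add {f : E3 → ℝ} {c0 c1 d0 d1 : ℝ} {φ ψ : E4 → ℝ} (h : Ex f c0 c1 φ) (h' : Ex f d0 d1 ψ) :
    Ex f (c0 + d0) (c1 + d1) fun p => φ p + ψ p := by
  refine ⟨?_, ?_, ?_⟩
  · refine (h.val.add h'.val).congr_left fun x => ?_
    ring
  · intro a
    refine IsBigO.congr' ((h.der a).add (h'.der a)) ?_ EventuallyEq.rfl
    filter_upwards [h.diff, h'.diff] with x hx hx'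
    have h1 : H31R.pd a (fun p => φ p + ψ p) (PP f x) = H31R.pd a φ (PP f x) + H31R.pd a ψ (PP f x) := by
      unfold H31R.pd
      rw [fderiv_fun_add hx hx']
      rfl
    rw [h1]
    ring
  · filter_upwards [h.diff, h'.diff] with x hx hx'
    exact hx.fun_add hx'

theorem Ex.mul {f : E3 → ℝ} {c0 c1 d0 d1 : ℝ} {φ ψ : E4 → ℝ} (h : Ex f c0 c1 φ) (h' : Ex f d0 d1 ψ) :
    Ex f (c0 * d0) (c0 * d1 + c1 * d0) fun p => φ p * ψ p := by
  refine ⟨?_, ?_, ?_⟩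
  · have e1 := h.val.mul (b3a_one h')
    have e2 := (b3a_lin c0 c1).mul h'.val
    have e3 : (fun x : E3 => c1 * d1 * (‖x‖ ^ 2)⁻¹) =O[LL] fun x => (‖x‖ ^ 2)⁻¹ := isBigO_const_mul_self _ _ _
    have e1' : (fun x => (φ (PP f x) - (c0 + c1 / ‖x‖)) * ψ (PP f x)) =O[LL] fun x => (‖x‖ ^ 2)⁻¹ := by
      simpa using e1
    have e2' : (fun x => (c0 + c1 / ‖x‖) * (ψ (PP f x) - (d0 + d1 / ‖x‖))) =O[LL] fun x => (‖x‖ ^ 2)⁻¹ := by
      simpa using e2
    refine IsBigO.congr' ((e1'.add e2').add e3) ?_ EventuallyEq.rfl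
    filter_upwards [tendsto_norm_cobounded_atTop.eventually_gt_atTop (0 : ℝ)] with x hx
    field_simp
    ring
  · intro a
    have e1 := (h.der a).mul (b3a_one h')
    have e2 := (b3a_one h).mul (h'.der a)
    have e1' : (fun x => (H31R.pd a φ (PP f x) + c1 / ‖x‖ ^ 2 * om x a) * ψ (PP f x)) =O[LL] fun x => (‖x‖ ^ 3)⁻¹ := by
      simpa using e1
    have e2' : (fun x => φ (PP f x) * (H31R.pd a ψ (PP f x) + d1 / ‖x‖ ^ 2 * om x a)) =O[LL] fun x => (‖x‖ ^ 3)⁻¹ := by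
      simpa using e2
    have e3 : (fun x => c1 / ‖x‖ ^ 2 * om x a * (ψ (PP f x) - d0)) =O[LL] fun x => (‖x‖ ^ 3)⁻¹ := by
      have := (b3a_c2 c1 a).mul (b3a_val1 h')
      refine this.congr_right fun x => ?_
      rw [← mul_inv]
      congr 1
    have e4 : (fun x => d1 / ‖x‖ ^ 2 * om x a * (φ (PP f x) - c0)) =O[LL] fun x => (‖x‖ ^ 3)⁻¹ := by
      have := (b3a_c2 d1 a).mul (b3a_val1 h)
      refine this.congr_right fun x => ?_
      rw [← mul_inv]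
      congr 1
    refine IsBigO.congr' (((e1'.add e2').sub e3).sub e4) ?_ EventuallyEq.rfl
    filter_upwards [h.diff, h'.diff] with x hx hx'
    have h1 : H31R.pd a (fun p => φ p * ψ p) (PP f x) =
        φ (PP f x) * H31R.pd a ψ (PP f x) + ψ (PP f x) * H31R.pd a φ (PP f x) := by
      unfold H31R.pd
      rw [fderiv_fun_mul hx hx']
      rfl
    rw [h1]
    ring
  · filter_upwards [h.diff, h'.diff] with x hx hx'
    exact hx.fun_mul hx'

theorem Ex.bdd {f : E3 → ℝ} {D b : E4 → ℝ} (h : Ex f 0 0 D) (hb : (fun x => b (PP f x)) =O[LL] fun _ => (1 : ℝ))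
    (hb' : ∀ a, (fun x => H31R.pd a b (PP f x)) =O[LL] fun x => ‖x‖⁻¹)
    (hd : ∀ᶠ x in LL, DifferentiableAt ℝ b (PP f x)) : Ex f 0 0 fun p => D p * b p := by
  have hv : (fun x => D (PP f x)) =O[LL] fun x => (‖x‖ ^ 2)⁻¹ := by
    refine h.val.congr_left fun x => ?_
    simp
  have hdv : ∀ a, (fun x => H31R.pd a D (PP f x)) =O[LL] fun x => (‖x‖ ^ 3)⁻¹ := by
    intro a
    refine (h.der a).congr_left fun x => ?_
    simp
  refine ⟨?_, ?_, ?_⟩
  · refine ((hv.mul hb).congr_right fun x => by ring).congr_left fun x => ?_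
    simp
  · intro a
    have e1 : (fun x => D (PP f x) * H31R.pd a b (PP f x)) =O[LL] fun x => (‖x‖ ^ 3)⁻¹ := by
      refine (hv.mul (hb' a)).congr_right fun x => ?_
      rw [← mul_inv]
      congr 1
    have e2 : (fun x => b (PP f x) * H31R.pd a D (PP f x)) =O[LL] fun x => (‖x‖ ^ 3)⁻¹ := by
      refine (hb.mul (hdv a)).congr_right fun x => ?_
      ring
    refine IsBigO.congr' (e1.add e2) ?_ EventuallyEq.rfl
    filter_upwards [h.diff, hd] with x hx hx'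
    have h1 : H31R.pd a (fun p => D p * b p) (PP f x) =
        D (PP f x) * H31R.pd a b (PP f x) + b (PP f x) * H31R.pd a D (PP f x) := by
      unfold H31R.pd
      rw [fderiv_fun_mul hx hx']
      rfl
    rw [h1]
    simp
  · filter_upwards [h.diff, hd] with x hx hx'
    exact hx.fun_mul hx'

/-- consequences -/
theorem Ex.val1 {f : E3 → ℝ} {c0 c1 : ℝ} {φ : E4 → ℝ} (h : Ex f c0 c1 φ) :
    (fun x => φ (PP f x) - c0) =O[LL] fun x => ‖x‖⁻¹ := by
  exact b3a_val1 h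

theorem Ex.der2 {f : E3 → ℝ} {c0 c1 : ℝ} {φ : E4 → ℝ} (h : Ex f c0 c1 φ) (a : Fin 4) :
    (fun x => H31R.pd a φ (PP f x)) =O[LL] fun x => (‖x‖ ^ 2)⁻¹ := by
  have e1 := (h.der a).trans (ex_pow_le (show 2 ≤ 3 by norm_num))
  have e2 := b3a_c2 c1 a
  refine (e1.sub e2).congr_left fun x => ?_
  ring

end H17B
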