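import Pool.Agent.Lib.H17B.B3A

set_option autoImplicit false

/-!
# H17B, chunk B3B (M): the functions `F`, `k`, `r/ρ`, the directions, the function `f`

`PP f x = pt (f x) x = ev (qq f x) (‖x‖⁻¹ • x)`, `pos (pt t x) = x` (`pos_pt`), `pt t x 0 = t`.
(F) `H31R.pd a (fun q => 1 - 2 m/‖pos q‖) p = (2m/ρ²) om (pos p) a` at `pos p ≠ 0` (`‖pos q‖` has the partial derivatives `om (pos q) a`), `F` is
differentiable at `PP f x`, so `pd a F = (2m/ρ²) om a + O(ρ⁻³)`.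
(k) `H31R.pd a (fun p => k ‖pos p‖) = k'(ρ) om a`, `k' = -2m/ρ² + O(ρ⁻³)`.
(r) `r(p 0, ‖pos p‖)/‖pos p‖`: value `(ρ + m + O(ρ⁻¹))/ρ`; `pd 0 = r_T/ρ = O(ρ⁻³)`, `pd (i+1) = (r_ρ/ρ - r/ρ²) ω_i`,
`r_ρ/ρ - r/ρ² = (1 + O(ρ⁻²))/ρ - (ρ + m + O(ρ⁻¹))/ρ² = -m/ρ² + O(ρ⁻³)`.
(dir) `ω_i(p) = pos p i/‖pos p‖`: bounded by one, `∂_a ω_i = O(1/ρ)`: `∂_0 = 0`, `∂_{j+1} ω_i = (δ_ij - ω_i ω_j)/ρ`.
An inequality `|..| ≤ C/‖x‖^n` for `‖x‖ ≥ R` gives `IsBigO` along `LL` (`IsBigO.of_bound`, eventually `R ≤ ‖x‖` in `cobounded`).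
-/

open MeasureTheory Filter Topology Set Asymptotics
open scoped ContDiff

namespace H17B

open H17T
open Pool.Agent.Lib.PenroseSph (E3 Tens S2 sm pd trg fluxDensity momDensity admFlux admMom DefFun meanCurv trLevel)

theorem b3b_bound {φ : E3 → ℝ} {C R : ℝ} (n : ℕ) (h : ∀ x : E3, R ≤ ‖x‖ → |φ x| ≤ C / ‖x‖ ^ n) :
    φ =O[LL] fun x => (‖x‖ ^ n)⁻¹ := by
  refine IsBigO.of_bound C ?_
  filter_upwards [tendsto_norm_cobounded_atTop.eventually_ge_atTop R] with x hx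
  rw [Real.norm_eq_abs, Real.norm_of_nonneg (show (0 : ℝ) ≤ (‖x‖ ^ n)⁻¹ by positivity), ← div_eq_mul_inv]
  exact h x hx

/-- The position as a continuous linear map. -/
noncomputable def b3b_pos : E4 →L[ℝ] E3 :=
  LinearMap.toContinuousLinearMap
    { toFun := pos
      map_add' := fun x y => by
        ext i
        rw [t0_pos_apply, PiLp.add_apply, PiLp.add_apply, t0_pos_apply, t0_pos_apply]
      map_smul' := fun c x => by
        ext i
        rw [t0_pos_apply, PiLp.smul_apply]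
        show c • x i.succ = c • pos x i
        rw [t0_pos_apply] }

theorem b3b_pos_apply (p : E4) : b3b_pos p = pos p := rfl

theorem b3b_pp (f : E3 → ℝ) (x : E3) : pos (PP f x) = x := pos_pt _ _

theorem b3b_ne (f : E3 → ℝ) {x : E3} (hx : 0 < ‖x‖) : pos (PP f x) ≠ 0 := by
  rw [b3b_pp]
  exact norm_pos_iff.1 hx

/-- The direction of `x`. -/
noncomputable def b3b_n {x : E3} (hx : 0 < ‖x‖) : S2 :=
  ⟨‖x‖⁻¹ • x, by
    rw [mem_sphere_zero_iff_norm, norm_smul, norm_inv, norm_norm, inv_mul_cancel₀ hx.ne']⟩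

theorem b3b_ev (f : E3 → ℝ) {x : E3} (hx : 0 < ‖x‖) : ev (qq f x) (b3b_n hx) = PP f x := by
  show pt (f x) (‖x‖ • (‖x‖⁻¹ • x)) = pt (f x) x
  rw [smul_smul, mul_inv_cancel₀ hx.ne', one_smul]

theorem b3b_rho {p : E4} (hp : pos p ≠ 0) :
    HasFDerivAt (fun q : E4 => ‖pos q‖) ((‖pos p‖⁻¹ • innerSL ℝ (pos p)).comp b3b_pos) p := by
  have h1 : HasFDerivAt (fun x : E3 => ‖x‖) (‖pos p‖⁻¹ • innerSL ℝ (pos p)) (b3b_pos p) :=
    Pool.Agent.Lib.PenroseSph.hasFDerivAt_norm' hp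
  exact h1.comp p b3b_pos.hasFDerivAt

theorem b3b_ap (p : E4) (a : Fin 4) :
    ((‖pos p‖⁻¹ • innerSL ℝ (pos p)).comp b3b_pos) (H31R.ebas a) = om (pos p) a := by
  rw [ContinuousLinearMap.comp_apply, b3b_pos_apply]
  have e : (‖pos p‖⁻¹ • innerSL ℝ (pos p)) (pos (H31R.ebas a)) =
      ‖pos p‖⁻¹ * ∑ i : Fin 3, pos p i * pos (H31R.ebas a) i := by
    rw [ContinuousLinearMap.smul_apply, innerSL_apply_apply, PiLp.inner_apply, smul_eq_mul]
    congr 1
    refine Finset.sum_congr rfl fun i _ => ?_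
    rw [real_inner_comm]
    rfl
  rw [e]
  refine Fin.cases ?_ (fun i => ?_) a
  · have h1 : ∀ i : Fin 3, pos (H31R.ebas (0 : Fin 4)) i = 0 := by
      intro i
      rw [t0_pos_apply]
      simp [EuclideanSpace.single_apply]
    simp only [h1]
    simp [om]
  · have h1 : ∀ j : Fin 3, pos (H31R.ebas (i.succ : Fin 4)) j = if j = i then 1 else 0 := by
      intro j
      rw [t0_pos_apply]
      simp [EuclideanSpace.single_apply]
    simp only [h1]
    have h2 : om (pos p) i.succ = pos p i / ‖pos p‖ := rfl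
    rw [h2, div_eq_inv_mul]
    simp

theorem ex_F {F : E4 → ℝ} {k : ℝ → ℝ} {r : ℝ × ℝ → ℝ} {f : E3 → ℝ} {m β C R : ℝ}
    (hB : FarEnd F k r f m β C R) : Ex f 1 (-(2 * m)) F := by
  refine ⟨?_, ?_, ?_⟩
  · refine b3b_bound (R := R) (C := C) 2 fun x hx => ?_
    have hx0 : 0 < ‖x‖ := lt_of_lt_of_le hB.R_pos hx
    have h1 := hB.F0 x hx (b3b_n hx0)
    rw [b3b_ev f hx0] at h1
    have e : F (PP f x) - (1 + -(2 * m) / ‖x‖) = F (PP f x) - (1 - 2 * m / ‖x‖) := by ring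
    rw [e]
    exact h1
  · intro a
    refine b3b_bound (R := R) (C := C) 3 fun x hx => ?_
    have hx0 : 0 < ‖x‖ := lt_of_lt_of_le hB.R_pos hx
    have h1 := hB.F1 x hx a
    have hp : pos (PP f x) ≠ 0 := b3b_ne f hx0
    have hF : DifferentiableAt ℝ F (PP f x) := by
      have h2 := hB.F_smooth x hx (b3b_n hx0)
      rw [b3b_ev f hx0] at h2
      exact h2.differentiableAt (by simp)
    have hr := b3b_rho hp
    have hn : ‖pos (PP f x)‖ ≠ 0 := norm_ne_zero_iff.2 hp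
    have hq : HasFDerivAt (fun q : E4 => 1 - 2 * m / ‖pos q‖)
        (-(2 * m) • (-(‖pos (PP f x)‖ ^ 2)⁻¹ • ((‖pos (PP f x)‖⁻¹ • innerSL ℝ (pos (PP f x))).comp b3b_pos))) (PP f x) := by
      have h3 := (((hasDerivAt_inv hn).comp_hasFDerivAt (PP f x) hr).const_mul (2 * m)).const_sub 1
      have h4 : (-(2 * m) • (-(‖pos (PP f x)‖ ^ 2)⁻¹ • ((‖pos (PP f x)‖⁻¹ • innerSL ℝ (pos (PP f x))).comp b3b_pos))) =
          -((2 * m) • (-(‖pos (PP f x)‖ ^ 2)⁻¹ • ((‖pos (PP f x)‖⁻¹ • innerSL ℝ (pos (PP f x))).comp b3b_pos))) := by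
        rw [neg_smul]
      rw [h4]
      exact h3
    have h5 : H31R.pd a (fun q => F q - (1 - 2 * m / ‖pos q‖)) (pt (f x) x) =
        H31R.pd a F (PP f x) + -(2 * m) / ‖x‖ ^ 2 * om x a := by
      have h6 := (hF.hasFDerivAt.sub hq).fderiv
      have h7 : fderiv ℝ (fun q => F q - (1 - 2 * m / ‖pos q‖)) (pt (f x) x) = _ := h6
      unfold H31R.pd
      rw [h7, ContinuousLinearMap.sub_apply, ContinuousLinearMap.smul_apply, ContinuousLinearMap.smul_apply,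
        b3b_ap, b3b_pp]
      simp only [smul_eq_mul]
      ring
    rw [← h5]
    exact h1
  · filter_upwards [tendsto_norm_cobounded_atTop.eventually_ge_atTop R] with x hx
    have hx0 : 0 < ‖x‖ := lt_of_lt_of_le hB.R_pos hx
    have h2 := hB.F_smooth x hx (b3b_n hx0)
    rw [b3b_ev f hx0] at h2
    exact h2.differentiableAt (by simp)

theorem ex_k {F : E4 → ℝ} {k : ℝ → ℝ} {r : ℝ × ℝ → ℝ} {f : E3 → ℝ} {m β C R : ℝ}
    (hB : FarEnd F k r f m β C R) : Ex f 1 (2 * m) fun p => k ‖pos p‖ := by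
  have hd : ∀ x : E3, R ≤ ‖x‖ → HasFDerivAt (fun p : E4 => k ‖pos p‖)
      (deriv k ‖x‖ • ((‖pos (PP f x)‖⁻¹ • innerSL ℝ (pos (PP f x))).comp b3b_pos)) (PP f x) := by
    intro x hx
    have hx0 : 0 < ‖x‖ := lt_of_lt_of_le hB.R_pos hx
    have hr := b3b_rho (b3b_ne f hx0)
    have hk : HasDerivAt k (deriv k ‖x‖) ‖pos (PP f x)‖ := by
      rw [b3b_pp]
      exact ((hB.k_smooth ‖x‖ hx).differentiableAt (by simp)).hasDerivAt
    exact hk.comp_hasFDerivAt (PP f x) hr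
  refine ⟨?_, ?_, ?_⟩
  · refine b3b_bound (R := R) (C := C) 2 fun x hx => ?_
    simp only [b3b_pp]
    exact hB.k0 ‖x‖ hx
  · intro a
    refine b3b_bound (R := R) (C := C) 3 fun x hx => ?_
    have h1 : H31R.pd a (fun p : E4 => k ‖pos p‖) (PP f x) = deriv k ‖x‖ * om x a := by
      unfold H31R.pd
      rw [(hd x hx).fderiv, ContinuousLinearMap.smul_apply, b3b_ap, b3b_pp, smul_eq_mul]
    have h2 : deriv k ‖x‖ * om x a + 2 * m / ‖x‖ ^ 2 * om x a = (deriv k ‖x‖ + 2 * m / ‖x‖ ^ 2) * om x a := by ring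
    rw [h1, h2, abs_mul]
    have h3 := hB.k1 ‖x‖ hx
    calc |deriv k ‖x‖ + 2 * m / ‖x‖ ^ 2| * |om x a| ≤ |deriv k ‖x‖ + 2 * m / ‖x‖ ^ 2| * 1 :=
          mul_le_mul_of_nonneg_left (ex_om a x) (abs_nonneg _)
      _ ≤ C / ‖x‖ ^ 3 := by rw [mul_one]; exact h3
  · filter_upwards [tendsto_norm_cobounded_atTop.eventually_ge_atTop R] with x hx
    exact (hd x hx).differentiableAt

theorem ex_r {F : E4 → ℝ} {k : ℝ → ℝ} {r : ℝ × ℝ → ℝ} {f : E3 → ℝ} {m β C R : ℝ}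
    (hB : FarEnd F k r f m β C R) : Ex f 1 m fun p => r (p 0, ‖pos p‖) / ‖pos p‖ := by
  have hd : ∀ x : E3, R ≤ ‖x‖ → HasFDerivAt (fun p : E4 => r (p 0, ‖pos p‖))
      ((fderiv ℝ r (qq f x)).comp ((EuclideanSpace.proj (0 : Fin 4) : E4 →L[ℝ] ℝ).prod
        ((‖pos (PP f x)‖⁻¹ • innerSL ℝ (pos (PP f x))).comp b3b_pos))) (PP f x) := by
    intro x hx
    have hx0 : 0 < ‖x‖ := lt_of_lt_of_le hB.R_pos hx
    have hr := b3b_rho (b3b_ne f hx0)
    have h0 : HasFDerivAt (fun p : E4 => p 0) (EuclideanSpace.proj (0 : Fin 4) : E4 →L[ℝ] ℝ) (PP f x) :=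
      (EuclideanSpace.proj (0 : Fin 4) : E4 →L[ℝ] ℝ).hasFDerivAt
    have hrr : HasFDerivAt r (fderiv ℝ r (qq f x)) ((PP f x) 0, ‖pos (PP f x)‖) := by
      have e : ((PP f x) 0, ‖pos (PP f x)‖) = qq f x := by
        rw [b3b_pp]
        rfl
      rw [e]
      exact ((hB.r_smooth x hx).differentiableAt (by simp)).hasFDerivAt
    exact hrr.comp (PP f x) (h0.prodMk hr)
  have hq : ∀ x : E3, R ≤ ‖x‖ → HasFDerivAt (fun p : E4 => r (p 0, ‖pos p‖) / ‖pos p‖)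
      ((‖x‖ ^ 2)⁻¹ • (‖x‖ • ((fderiv ℝ r (qq f x)).comp ((EuclideanSpace.proj (0 : Fin 4) : E4 →L[ℝ] ℝ).prod
        ((‖pos (PP f x)‖⁻¹ • innerSL ℝ (pos (PP f x))).comp b3b_pos))) -
        r (qq f x) • ((‖pos (PP f x)‖⁻¹ • innerSL ℝ (pos (PP f x))).comp b3b_pos))) (PP f x) := by
    intro x hx
    have hx0 : 0 < ‖x‖ := lt_of_lt_of_le hB.R_pos hx
    have hr := b3b_rho (b3b_ne f hx0)
    have hn : ‖pos (PP f x)‖ ≠ 0 := norm_ne_zero_iff.2 (b3b_ne f hx0)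
    have h1 := (hd x hx).mul ((hasDerivAt_inv hn).comp_hasFDerivAt (PP f x) hr)
    have e : (fun p : E4 => r (p 0, ‖pos p‖) / ‖pos p‖) = fun p : E4 => r (p 0, ‖pos p‖) * (‖pos p‖)⁻¹ := by
      funext p
      rw [div_eq_mul_inv]
    rw [e]
    refine h1.congr_fderiv ?_
    have e2 : ((PP f x) 0, ‖pos (PP f x)‖) = qq f x := by
      rw [b3b_pp]
      rfl
    have hx0' : ‖x‖ ≠ 0 := hx0.ne'
    ext v
    simp only [ContinuousLinearMap.add_apply, ContinuousLinearMap.smul_apply, ContinuousLinearMap.sub_apply,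
      smul_eq_mul, e2, Function.comp_apply]
    rw [b3b_pp]
    field_simp
    ring
  refine ⟨?_, ?_, ?_⟩
  · refine b3b_bound (R := R) (C := C) 2 fun x hx => ?_
    have hx0 : 0 < ‖x‖ := lt_of_lt_of_le hB.R_pos hx
    have e2 : ((PP f x) 0, ‖pos (PP f x)‖) = qq f x := by
      rw [b3b_pp]
      rfl
    show |r ((PP f x) 0, ‖pos (PP f x)‖) / ‖pos (PP f x)‖ - (1 + m / ‖x‖)| ≤ C / ‖x‖ ^ 2
    rw [e2, b3b_pp]
    have h1 : r (qq f x) / ‖x‖ - (1 + m / ‖x‖) = (r (qq f x) - (‖x‖ + m)) / ‖x‖ := by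
      field_simp
    rw [h1, abs_div, abs_norm, div_le_iff₀ hx0]
    have h2 := hB.r0 x hx
    have h3 : C / ‖x‖ ^ 2 * ‖x‖ = C / ‖x‖ := by
      field_simp
    rw [h3]
    exact h2
  · intro a
    have bT : (fun x => fderiv ℝ r (qq f x) (1, 0)) =O[LL] fun x => (‖x‖ ^ 2)⁻¹ :=
      b3b_bound (R := R) (C := C) 2 hB.rT
    have bR : (fun x => fderiv ℝ r (qq f x) (0, 1) - 1) =O[LL] fun x => (‖x‖ ^ 2)⁻¹ :=
      b3b_bound (R := R) (C := C) 2 hB.rR
    have b0 : (fun x => r (qq f x) - (‖x‖ + m)) =O[LL] fun x => (‖x‖ ^ 1)⁻¹ :=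
      b3b_bound (R := R) (C := C) 1 fun x hx => by
        rw [pow_one]
        exact hB.r0 x hx
    have bo : (fun x => om x a) =O[LL] fun _ => (1 : ℝ) :=
      IsBigO.of_bound 1 (Eventually.of_forall fun x => by
        rw [norm_one, mul_one, Real.norm_eq_abs]
        exact ex_om a x)
    have i1 : (fun x : E3 => ‖x‖⁻¹) =O[LL] fun x : E3 => ‖x‖⁻¹ := isBigO_refl _ _
    have i2 : (fun x : E3 => (‖x‖ ^ 2)⁻¹) =O[LL] fun x : E3 => (‖x‖ ^ 2)⁻¹ := isBigO_refl _ _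
    have c1 : (fun x => (if a = 0 then (1 : ℝ) else 0) * (fderiv ℝ r (qq f x) (1, 0) * ‖x‖⁻¹)) =O[LL]
        fun x => (‖x‖ ^ 3)⁻¹ := by
      refine IsBigO.const_mul_left ?_ _
      refine (bT.mul i1).congr_right fun x => ?_
      rw [← mul_inv]
      congr 1
    have c2 : (fun x => om x a * ((fderiv ℝ r (qq f x) (0, 1) - 1) * ‖x‖⁻¹)) =O[LL] fun x => (‖x‖ ^ 3)⁻¹ := by
      refine (bo.mul (bR.mul i1)).congr_right fun x => ?_
      rw [← mul_inv, one_mul]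
      congr 1
    have c3 : (fun x => om x a * ((r (qq f x) - (‖x‖ + m)) * (‖x‖ ^ 2)⁻¹)) =O[LL] fun x => (‖x‖ ^ 3)⁻¹ := by
      refine (bo.mul (b0.mul i2)).congr_right fun x => ?_
      rw [← mul_inv, one_mul]
      congr 1
      ring
    refine IsBigO.congr' ((c1.add c2).sub c3) ?_ EventuallyEq.rfl
    filter_upwards [tendsto_norm_cobounded_atTop.eventually_ge_atTop R] with x hx
    have hx0 : 0 < ‖x‖ := lt_of_lt_of_le hB.R_pos hx
    have hx0' : ‖x‖ ≠ 0 := hx0.ne'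
    have h1 : H31R.pd a (fun p : E4 => r (p 0, ‖pos p‖) / ‖pos p‖) (PP f x) =
        (‖x‖ ^ 2)⁻¹ * (‖x‖ * ((if a = 0 then (1 : ℝ) else 0) * fderiv ℝ r (qq f x) (1, 0) +
          om x a * fderiv ℝ r (qq f x) (0, 1)) - r (qq f x) * om x a) := by
      unfold H31R.pd
      rw [(hq x hx).fderiv]
      simp only [ContinuousLinearMap.smul_apply, ContinuousLinearMap.sub_apply, smul_eq_mul]
      rw [b3b_ap]
      have h2 : ((fderiv ℝ r (qq f x)).comp ((EuclideanSpace.proj (0 : Fin 4) : E4 →L[ℝ] ℝ).prod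
          ((‖pos (PP f x)‖⁻¹ • innerSL ℝ (pos (PP f x))).comp b3b_pos))) (H31R.ebas a) =
          (if a = 0 then (1 : ℝ) else 0) * fderiv ℝ r (qq f x) (1, 0) + om x a * fderiv ℝ r (qq f x) (0, 1) := by
        rw [ContinuousLinearMap.comp_apply, ContinuousLinearMap.prod_apply, b3b_ap, b3b_pp]
        have h3 : (EuclideanSpace.proj (0 : Fin 4) : E4 →L[ℝ] ℝ) (H31R.ebas a) = if a = 0 then (1 : ℝ) else 0 := by
          show (EuclideanSpace.single a (1 : ℝ) : E4) 0 = _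
          rw [EuclideanSpace.single_apply]
          by_cases h : a = 0
          · rw [if_pos h, if_pos h.symm]
          · rw [if_neg h, if_neg fun h' => h h'.symm]
        rw [h3]
        have h4 : (((if a = 0 then (1 : ℝ) else 0), om x a) : ℝ × ℝ) =
            (if a = 0 then (1 : ℝ) else 0) • (1, 0) + om x a • (0, 1) := by
          rw [Prod.smul_mk, Prod.smul_mk, smul_eq_mul, smul_eq_mul, smul_eq_mul, smul_eq_mul, mul_one, mul_one,
            mul_zero, mul_zero, Prod.mk_add_mk, add_zero, zero_add]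
        rw [h4, map_add, map_smul, map_smul, smul_eq_mul, smul_eq_mul]
      rw [h2, b3b_pp]
    rw [h1]
    field_simp
    ring
  · filter_upwards [tendsto_norm_cobounded_atTop.eventually_ge_atTop R] with x hx
    exact (hq x hx).differentiableAt

theorem ex_dir (f : E3 → ℝ) (i : Fin 3) :
    (fun x => (fun p : E4 => pos p i / ‖pos p‖) (PP f x)) =O[LL] (fun _ => (1 : ℝ)) ∧
      (∀ a, (fun x => H31R.pd a (fun p : E4 => pos p i / ‖pos p‖) (PP f x)) =O[LL] fun x => ‖x‖⁻¹) ∧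
      ∀ᶠ x in LL, DifferentiableAt ℝ (fun p : E4 => pos p i / ‖pos p‖) (PP f x) := by
  have hd : ∀ x : E3, 0 < ‖x‖ → HasFDerivAt (fun p : E4 => pos p i / ‖pos p‖)
      ((‖x‖ ^ 2)⁻¹ • (‖x‖ • (EuclideanSpace.proj (i.succ : Fin 4) : E4 →L[ℝ] ℝ) -
        x i • ((‖pos (PP f x)‖⁻¹ • innerSL ℝ (pos (PP f x))).comp b3b_pos))) (PP f x) := by
    intro x hx0
    have hr := b3b_rho (b3b_ne f hx0)
    have hn : ‖pos (PP f x)‖ ≠ 0 := norm_ne_zero_iff.2 (b3b_ne f hx0)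
    have h0 : HasFDerivAt (fun p : E4 => pos p i) (EuclideanSpace.proj (i.succ : Fin 4) : E4 →L[ℝ] ℝ) (PP f x) := by
      have e : (fun p : E4 => pos p i) = fun p : E4 => (EuclideanSpace.proj (i.succ : Fin 4) : E4 →L[ℝ] ℝ) p := by
        funext p
        rw [t0_pos_apply]
        rfl
      rw [e]
      exact (EuclideanSpace.proj (i.succ : Fin 4) : E4 →L[ℝ] ℝ).hasFDerivAt
    have h1 := h0.mul ((hasDerivAt_inv hn).comp_hasFDerivAt (PP f x) hr)
    have e : (fun p : E4 => pos p i / ‖pos p‖) = fun p : E4 => pos p i * (‖pos p‖)⁻¹ := by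
      funext p
      rw [div_eq_mul_inv]
    rw [e]
    refine h1.congr_fderiv ?_
    have hx0' : ‖x‖ ≠ 0 := hx0.ne'
    ext v
    simp only [ContinuousLinearMap.add_apply, ContinuousLinearMap.smul_apply, ContinuousLinearMap.sub_apply,
      smul_eq_mul, Function.comp_apply]
    rw [b3b_pp]
    field_simp
    ring
  refine ⟨?_, ?_, ?_⟩
  · refine IsBigO.of_bound 1 (Eventually.of_forall fun x => ?_)
    rw [norm_one, mul_one, Real.norm_eq_abs]
    show |pos (PP f x) i / ‖pos (PP f x)‖| ≤ 1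
    rw [b3b_pp]
    exact ex_om i.succ x
  · intro a
    have h0 : (fun x => H31R.pd a (fun p : E4 => pos p i / ‖pos p‖) (PP f x)) =O[LL] fun x => (‖x‖ ^ 1)⁻¹ := by
      refine b3b_bound (R := 1) (C := 2) 1 fun x hx => ?_
      have hx0 : 0 < ‖x‖ := lt_of_lt_of_le one_pos hx
      have hx0' : ‖x‖ ≠ 0 := hx0.ne'
      have h1 : H31R.pd a (fun p : E4 => pos p i / ‖pos p‖) (PP f x) =
          (‖x‖ ^ 2)⁻¹ * (‖x‖ * (if i.succ = a then (1 : ℝ) else 0) - x i * om x a) := by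
        unfold H31R.pd
        rw [(hd x hx0).fderiv]
        simp only [ContinuousLinearMap.smul_apply, ContinuousLinearMap.sub_apply, smul_eq_mul]
        rw [b3b_ap, b3b_pp]
        have h3 : (EuclideanSpace.proj (i.succ : Fin 4) : E4 →L[ℝ] ℝ) (H31R.ebas a) =
            if i.succ = a then (1 : ℝ) else 0 := by
          show (EuclideanSpace.single a (1 : ℝ) : E4) i.succ = _
          rw [EuclideanSpace.single_apply]
        rw [h3]
      have h2 : (‖x‖ ^ 2)⁻¹ * (‖x‖ * (if i.succ = a then (1 : ℝ) else 0) - x i * om x a) =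
          ((if i.succ = a then (1 : ℝ) else 0) - x i / ‖x‖ * om x a) / ‖x‖ := by
        field_simp
      rw [h1, h2, abs_div, abs_norm, pow_one]
      refine div_le_div_of_nonneg_right ?_ hx0.le
      have h3 : |(if i.succ = a then (1 : ℝ) else 0)| ≤ 1 := by
        split_ifs <;> simp
      have h4 : |x i / ‖x‖ * om x a| ≤ 1 := by
        rw [abs_mul]
        have h5 : |x i / ‖x‖| ≤ 1 := ex_om i.succ x
        exact mul_le_one₀ h5 (abs_nonneg _) (ex_om a x)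
      have h5 := abs_sub (if i.succ = a then (1 : ℝ) else 0) (x i / ‖x‖ * om x a)
      linarith
    simpa using h0
  · filter_upwards [tendsto_norm_cobounded_atTop.eventually_ge_atTop 1] with x hx
    exact (hd x (lt_of_lt_of_le one_pos hx)).differentiableAt

theorem f_one {F : E4 → ℝ} {k : ℝ → ℝ} {r : ℝ × ℝ → ℝ} {f : E3 → ℝ} {m β C R : ℝ}
    (hB : FarEnd F k r f m β C R) (i : Fin 3) : (fun x => pd i f x - β * dz i) =O[LL] fun x => ‖x‖⁻¹ := by
  have h : (fun x => pd i f x - β * dz i) =O[LL] fun x => (‖x‖ ^ 1)⁻¹ := by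
    refine b3b_bound (R := R) (C := C) 1 fun x hx => ?_
    have h1 := hB.f1 x hx i
    have h2 : β * dz i = if i = 0 then β else 0 := by
      unfold dz
      split_ifs <;> simp
    rw [h2, pow_one]
    exact h1
  simpa using h

theorem f_two {F : E4 → ℝ} {k : ℝ → ℝ} {r : ℝ × ℝ → ℝ} {f : E3 → ℝ} {m β C R : ℝ}
    (hB : FarEnd F k r f m β C R) (i j : Fin 3) : (fun x => pd i (pd j f) x) =O[LL] fun x => (‖x‖ ^ 2)⁻¹ := by
  exact b3b_bound (R := R) (C := C) 2 fun x hx => hB.f2 x hx i j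

end H17B
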