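import Pool.Agent.Lib.H17B.B3B

set_option autoImplicit false

/-!
# H17B, chunk B4 (M): the entries of the metric

`G = stMetric F k r`. `(0,0)`: `-F`. `(0,i)`, `(i,0)`: `0`. `(i+1,j+1)`: `F k² ω_i ω_j + (r/ρ)² (δ_ij - ω_i ω_j)
= (r/ρ)² δ_ij + D ω_i ω_j`, `D = F k² - (r/ρ)²`. `Ex.mul`: `F k² : (1, -2m + 2·2m) = (1, 2m)`, `(r/ρ)² : (1, 2m)`, so `D : (0, 0)`,
and `D ω_i ω_j : (0, 0)` by `Ex.bdd` (twice, `ex_dir`). (Rewrite functions with `Ex` through `funext`.)
-/

open MeasureTheory Filter Topology Set Asymptotics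
open scoped ContDiff

namespace H17B

open H17T
open Pool.Agent.Lib.PenroseSph (E3 Tens S2 sm pd trg fluxDensity momDensity admFlux admMom DefFun meanCurv trLevel)

theorem b4_congr {f : E3 → ℝ} {c0 c1 d0 d1 : ℝ} {φ ψ : E4 → ℝ} (h : Ex f c0 c1 φ) (e0 : c0 = d0) (e1 : c1 = d1)
    (e : ∀ p, φ p = ψ p) : Ex f d0 d1 ψ := by
  have h2 : φ = ψ := funext e
  subst e0 e1 h2
  exact h

theorem ex_metric {F : E4 → ℝ} {k : ℝ → ℝ} {r : ℝ × ℝ → ℝ} {f : E3 → ℝ} {m β C R : ℝ}
    (hB : FarEnd F k r f m β C R) (a b : Fin 4) :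
    Ex f (eta a b) (2 * m * dl a b) fun p => stMetric F k r p a b := by
  refine Fin.cases ?_ (fun i => ?_) a
  · refine Fin.cases ?_ (fun j => ?_) b
    · refine b4_congr (ex_F hB).neg ?_ ?_ ?_
      · simp [eta]
      · simp [dl]
      · intro p
        simp only [stMetric, Matrix.of_apply, Fin.cases_zero]
    · refine b4_congr (Ex.const f 0) ?_ ?_ ?_
      · simp [eta, (Fin.succ_ne_zero j).symm]
      · simp [dl, (Fin.succ_ne_zero j).symm]
      · intro p
        simp only [stMetric, Matrix.of_apply, Fin.cases_zero, Fin.cases_succ]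
  · refine Fin.cases ?_ (fun j => ?_) b
    · refine b4_congr (Ex.const f 0) ?_ ?_ ?_
      · simp [eta, Fin.succ_ne_zero i]
      · simp [dl, Fin.succ_ne_zero i]
      · intro p
        simp only [stMetric, Matrix.of_apply, Fin.cases_zero, Fin.cases_succ]
    · have hF := ex_F hB
      have hk := ex_k hB
      have hr := ex_r hB
      have hFk := hF.mul (hk.mul hk)
      have hrr := hr.mul hr
      have hD : Ex f 0 0 fun p => F p * (k ‖pos p‖ * k ‖pos p‖)
          - r (p 0, ‖pos p‖) / ‖pos p‖ * (r (p 0, ‖pos p‖) / ‖pos p‖) := by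
        refine b4_congr (hFk.add hrr.neg) ?_ ?_ ?_
        · ring
        · ring
        · intro p
          ring
      obtain ⟨u1, u2, u3⟩ := ex_dir f i
      obtain ⟨v1, v2, v3⟩ := ex_dir f j
      have hDD := (hD.bdd u1 u2 u3).bdd v1 v2 v3
      have hd := hrr.mul (Ex.const f (dl i j))
      refine b4_congr (hd.add hDD) ?_ ?_ ?_
      · by_cases hij : i = j
        · subst hij
          simp [eta, dl, Fin.succ_ne_zero i]
        · have : ¬ i.succ = j.succ := fun h => hij (Fin.succ_injective _ h)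
          simp [eta, dl, hij]
      · by_cases hij : i = j
        · subst hij
          simp [dl]
          ring
        · simp [dl, hij]
      · intro p
        simp only [stMetric, Matrix.of_apply, Fin.cases_succ, dl]
        ring

end H17B
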