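import Pool.Agent.Lib.H17B.B0
import Pool.Agent.Lib.H17B.B4

set_option autoImplicit false

/-!
# H17B, chunk B5 (M): the inverse metric and the Christoffel symbols

(a) `inv_bigO` with `A0 = Matrix.of eta` (`eta⁻¹ = eta`, `det ≠ 0`) and `Ex.val1`.
(b) `H31R.chr G c a b p = (1/2) Σ_l (G p)⁻¹ c l (∂_a G_bl + ∂_b G_al - ∂_l G_ab)`. By (a) and `Ex.der2` one may replace `(G p)⁻¹ c l`
by `eta c l` with an error `O(ρ⁻¹ ρ⁻²)`, and `∂_a G_bl` by `-(2m dl b l/ρ²) om a` (`Ex.der`). `Σ_l eta c l Y l = eta c c Y c`.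
Result `(1/2) eta c c (-(2m/ρ²)) (om a dl b c + om b dl a c - om c dl a b)`.
-/

open MeasureTheory Filter Topology Set Asymptotics
open scoped ContDiff

namespace H17B

open H17T
open Pool.Agent.Lib.PenroseSph (E3 Tens S2 sm pd trg fluxDensity momDensity admFlux admMom DefFun meanCurv trLevel)

theorem b5_eta_mul : (Matrix.of eta : Matrix (Fin 4) (Fin 4) ℝ) * Matrix.of eta = 1 := by
  have h : (Matrix.of eta : Matrix (Fin 4) (Fin 4) ℝ) = Matrix.diagonal fun a => if a = 0 then -1 else 1 := by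
    ext a b
    by_cases hab : a = b
    · subst hab
      simp [eta]
    · rw [Matrix.diagonal_apply_ne _ hab]
      simp [eta, hab]
  rw [h, Matrix.diagonal_mul_diagonal, ← Matrix.diagonal_one]
  congr 1
  funext a
  by_cases ha : a = 0
  · simp [ha]
  · simp [ha]

theorem b5_eta_inv : (Matrix.of eta : Matrix (Fin 4) (Fin 4) ℝ)⁻¹ = Matrix.of eta :=
  Matrix.inv_eq_right_inv b5_eta_mul

theorem b5_eta_det : (Matrix.of eta : Matrix (Fin 4) (Fin 4) ℝ).det ≠ 0 := by
  have h := congrArg Matrix.det b5_eta_mul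
  rw [Matrix.det_mul, Matrix.det_one] at h
  intro h0
  rw [h0, zero_mul] at h
  exact zero_ne_one h

theorem inv_metric {F : E4 → ℝ} {k : ℝ → ℝ} {r : ℝ × ℝ → ℝ} {f : E3 → ℝ} {m β C R : ℝ}
    (hB : FarEnd F k r f m β C R) (a b : Fin 4) :
    (fun x => (stMetric F k r (PP f x))⁻¹ a b - eta a b) =O[LL] fun x => ‖x‖⁻¹ := by
  have h := inv_bigO (A := fun x => stMetric F k r (PP f x)) (A0 := Matrix.of eta) b5_eta_det
    (fun i j => (ex_metric hB i j).val1) a b
  rw [b5_eta_inv] at h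
  exact h

theorem b5_mul {n k l : ℕ} (h : n + k = l) {u v : E3 → ℝ} (hu : u =O[LL] fun x => (‖x‖ ^ n)⁻¹)
    (hv : v =O[LL] fun x => (‖x‖ ^ k)⁻¹) : (fun x => u x * v x) =O[LL] fun x => (‖x‖ ^ l)⁻¹ := by
  have e : (fun x : E3 => (‖x‖ ^ l)⁻¹) = fun x => (‖x‖ ^ n)⁻¹ * (‖x‖ ^ k)⁻¹ := by
    funext x
    rw [← mul_inv, ← pow_add, h]
  rw [e]
  exact hu.mul hv

theorem b5_sum {ι : Type*} (s : Finset ι) {u : ι → E3 → ℝ} {g : E3 → ℝ} (h : ∀ i, u i =O[LL] g) :
    (fun x => ∑ i ∈ s, u i x) =O[LL] g := by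
  have h2 := IsBigO.sum (s := s) fun i _ => h i
  refine h2.congr_left fun x => ?_
  rw [Finset.sum_apply]

theorem chr_exp {F : E4 → ℝ} {k : ℝ → ℝ} {r : ℝ × ℝ → ℝ} {f : E3 → ℝ} {m β C R : ℝ}
    (hB : FarEnd F k r f m β C R) (c a b : Fin 4) :
    (fun x => H31R.chr (stMetric F k r) c a b (PP f x) - chlin m c a b x) =O[LL] fun x => (‖x‖ ^ 3)⁻¹ := by
  have hY : ∀ i j l : Fin 4, (fun x => H31R.pd l (fun y => stMetric F k r y i j) (PP f x)
      + 2 * m * dl i j / ‖x‖ ^ 2 * om x l) =O[LL] fun x => (‖x‖ ^ 3)⁻¹ := fun i j l => (ex_metric hB i j).der l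
  have hY2 : ∀ i j l : Fin 4, (fun x => H31R.pd l (fun y => stMetric F k r y i j) (PP f x))
      =O[LL] fun x => (‖x‖ ^ 2)⁻¹ := fun i j l => (ex_metric hB i j).der2 l
  have hI : ∀ l, (fun x => (stMetric F k r (PP f x))⁻¹ c l - eta c l) =O[LL] fun x => (‖x‖ ^ 1)⁻¹ := by
    intro l
    have h := inv_metric hB c l
    simpa using h
  have h1 : ∀ l : Fin 4, (fun x => ((stMetric F k r (PP f x))⁻¹ c l - eta c l)
      * (H31R.pd a (fun y => stMetric F k r y b l) (PP f x) + H31R.pd b (fun y => stMetric F k r y a l) (PP f x)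
        - H31R.pd l (fun y => stMetric F k r y a b) (PP f x))) =O[LL] fun x => (‖x‖ ^ 3)⁻¹ := by
    intro l
    exact b5_mul (by norm_num) (hI l) (((hY2 b l a).add (hY2 a l b)).sub (hY2 a b l))
  have h2 : ∀ l : Fin 4, (fun x => eta c l
      * ((H31R.pd a (fun y => stMetric F k r y b l) (PP f x) + 2 * m * dl b l / ‖x‖ ^ 2 * om x a)
        + (H31R.pd b (fun y => stMetric F k r y a l) (PP f x) + 2 * m * dl a l / ‖x‖ ^ 2 * om x b)
        - (H31R.pd l (fun y => stMetric F k r y a b) (PP f x) + 2 * m * dl a b / ‖x‖ ^ 2 * om x l)))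
      =O[LL] fun x => (‖x‖ ^ 3)⁻¹ := by
    intro l
    exact (((hY b l a).add (hY a l b)).sub (hY a b l)).const_mul_left _
  have h3 : (fun x => (1 / 2 : ℝ) * ∑ l : Fin 4, (((stMetric F k r (PP f x))⁻¹ c l - eta c l)
      * (H31R.pd a (fun y => stMetric F k r y b l) (PP f x) + H31R.pd b (fun y => stMetric F k r y a l) (PP f x)
        - H31R.pd l (fun y => stMetric F k r y a b) (PP f x)) + eta c l
      * ((H31R.pd a (fun y => stMetric F k r y b l) (PP f x) + 2 * m * dl b l / ‖x‖ ^ 2 * om x a)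
        + (H31R.pd b (fun y => stMetric F k r y a l) (PP f x) + 2 * m * dl a l / ‖x‖ ^ 2 * om x b)
        - (H31R.pd l (fun y => stMetric F k r y a b) (PP f x) + 2 * m * dl a b / ‖x‖ ^ 2 * om x l))))
      =O[LL] fun x => (‖x‖ ^ 3)⁻¹ := by
    refine IsBigO.const_mul_left ?_ _
    exact b5_sum Finset.univ fun l => (h1 l).add (h2 l)
  refine h3.congr_left fun x => ?_
  have e1 : chlin m c a b x = -((1 / 2 : ℝ) * ∑ l : Fin 4, eta c l
      * (2 * m * dl b l / ‖x‖ ^ 2 * om x a + 2 * m * dl a l / ‖x‖ ^ 2 * om x b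
        - 2 * m * dl a b / ‖x‖ ^ 2 * om x l)) := by
    rw [Finset.sum_eq_single c]
    · have s1 : dl c b = dl b c := by
        simp only [dl, eq_comm]
      have s2 : dl c a = dl a c := by
        simp only [dl, eq_comm]
      rw [chlin, s1, s2]
      ring
    · intro l _ hl
      have : eta c l = 0 := by
        simp [eta, hl.symm]
      rw [this, zero_mul]
    · intro h
      exact absurd (Finset.mem_univ c) h
  rw [H31R.chr, e1, sub_neg_eq_add, ← mul_add, ← Finset.sum_add_distrib]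
  congr 1
  refine Finset.sum_congr rfl fun l _ => ?_
  ring

end H17B
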