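import Pool.Agent.Lib.H17B.Defs

set_option autoImplicit false

/-!
# H17B, chunk B6A (S/M, pure algebra)

`N = (1, -β, 0, 0)`, `t_i = (β dz i, e_i)`. `Σ_cab chlin(c,a,b) N_c t_i^a t_j^b = -(m/ρ²) Σ_c eta_cc N_c (om(t_i) t_j^c + om(t_j) t_i^c
- om_c <t_i, t_j>)`, `om(t_i) = x_i/ρ`, `Σ_c eta_cc N_c t_j^c = -2 β dz j`, `Σ_c eta_cc N_c om_c = -β x_0/ρ`, `<t_i,t_j> = dl i j + β² dz i dz j`.
(Or `fin_cases i <;> fin_cases j` and `simp [Fin.sum_univ_succ, ...]; ring`.)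
-/

open MeasureTheory Filter Topology Set Asymptotics
open scoped ContDiff

namespace H17B

open H17T
open Pool.Agent.Lib.PenroseSph (E3 Tens S2 sm pd trg fluxDensity momDensity admFlux admMom DefFun meanCurv trLevel)

theorem chlin_sum (m β : ℝ) (x : E3) (i j : Fin 3) :
    ∑ c, ∑ a, ∑ b, chlin m c a b x * (Fin.cons 1 (fun l => -(β * dz l)) : Fin 4 → ℝ) c
      * (Fin.cons (β * dz i) (fun l => dl l i) : Fin 4 → ℝ) a * (Fin.cons (β * dz j) (fun l => dl l j) : Fin 4 → ℝ) b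
      = kh m β i j x := by
  unfold chlin kh
  fin_cases i <;> fin_cases j <;>
    (simp [Fin.sum_univ_succ, eta, om, dz, dl]; try ring)

end H17B
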