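import Pool.Agent.Lib.H17B.B5
import Pool.Agent.Lib.H17B.B6A

set_option autoImplicit false

/-!
# H17B, chunk B6B (M): the Christoffel term of the second fundamental form

`conorm f x = (1, -∂f)` and `tang f x i = (∂_i f, e_i)` differ from the constant vectors of `chlin_sum` by `O(1/ρ)` (`f_one`); the
Christoffel symbols are `chlin + O(ρ⁻³)` and `chlin = O(ρ⁻²)`. Telescoping: `A N t s - A' N' t' s'` with `A - A' = O(ρ⁻³)`, the other
differences `O(ρ⁻¹)`, `A' = O(ρ⁻²)`, all other factors bounded. Finite sums (`IsBigO.sum`).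
-/

open MeasureTheory Filter Topology Set Asymptotics
open scoped ContDiff

namespace H17B

open H17T
open Pool.Agent.Lib.PenroseSph (E3 Tens S2 sm pd trg fluxDensity momDensity admFlux admMom DefFun meanCurv trLevel)

theorem b6b_one (c : ℝ) : (fun _ : E3 => c) =O[LL] fun x => (‖x‖ ^ 0)⁻¹ := by
  simp only [pow_zero, inv_one]
  exact isBigO_const_const c one_ne_zero LL

theorem b6b_om (a : Fin 4) : (fun x => om x a) =O[LL] fun x => (‖x‖ ^ 0)⁻¹ := by
  refine IsBigO.of_bound 1 (Eventually.of_forall fun x => ?_)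
  simp only [pow_zero, inv_one, Real.norm_eq_abs, abs_one, mul_one]
  exact ex_om a x

theorem b6b_self (c : ℝ) (n : ℕ) : (fun x : E3 => c * (‖x‖ ^ n)⁻¹) =O[LL] fun x => (‖x‖ ^ n)⁻¹ :=
  (isBigO_refl _ _).const_mul_left c

theorem chlin_bigO (m : ℝ) (c a b : Fin 4) : (fun x => chlin m c a b x) =O[LL] fun x => (‖x‖ ^ 2)⁻¹ := by
  have h1 := b6b_self (-(m * eta c c)) 2
  have h2 := (((b6b_om a).const_mul_left (dl c b)).add ((b6b_om b).const_mul_left (dl c a))).sub
    ((b6b_om c).const_mul_left (dl a b))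
  refine (b5_mul (l := 2) (by norm_num) h1 h2).congr_left fun x => ?_
  rw [chlin]
  ring

theorem kh_bigO (m β : ℝ) (i j : Fin 3) : (fun x => kh m β i j x) =O[LL] fun x => (‖x‖ ^ 2)⁻¹ := by
  have h1 := b6b_self m 2
  have h2 := (((b6b_om i.succ).const_mul_left (2 * β * dz j)).add
    ((b6b_om j.succ).const_mul_left (2 * β * dz i))).sub
    ((b6b_om (0 : Fin 3).succ).const_mul_left (β * (dl i j + β ^ 2 * dz i * dz j)))
  refine (b5_mul (l := 2) (by norm_num) h1 h2).congr_left fun x => ?_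
  simp only [kh, om, Fin.cons_succ]
  ring

theorem b6b_con {F : E4 → ℝ} {k : ℝ → ℝ} {r : ℝ × ℝ → ℝ} {f : E3 → ℝ} {m β C R : ℝ}
    (hB : FarEnd F k r f m β C R) (c : Fin 4) :
    (fun x => conorm f x c - (Fin.cons 1 (fun l => -(β * dz l)) : Fin 4 → ℝ) c) =O[LL] fun x => (‖x‖ ^ 1)⁻¹ := by
  simp only [pow_one]
  refine Fin.cases ?_ (fun l => ?_) c
  · simp only [conorm, Fin.cons_zero, sub_self]
    exact isBigO_zero _ _
  · simp only [conorm, Fin.cons_succ]
    refine (f_one hB l).neg_left.congr_left fun x => ?_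
    ring

theorem b6b_tang {F : E4 → ℝ} {k : ℝ → ℝ} {r : ℝ × ℝ → ℝ} {f : E3 → ℝ} {m β C R : ℝ}
    (hB : FarEnd F k r f m β C R) (i : Fin 3) (c : Fin 4) :
    (fun x => tang f x i c - (Fin.cons (β * dz i) (fun l => dl l i) : Fin 4 → ℝ) c)
      =O[LL] fun x => (‖x‖ ^ 1)⁻¹ := by
  simp only [pow_one]
  refine Fin.cases ?_ (fun l => ?_) c
  · simp only [tang, Fin.cons_zero]
    exact f_one hB i
  · simp only [tang, Fin.cons_succ, dl, sub_self]
    exact isBigO_zero _ _

theorem b6b_bdd {u : E3 → ℝ} {c : ℝ} (h : (fun x => u x - c) =O[LL] fun x => (‖x‖ ^ 1)⁻¹) :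
    u =O[LL] fun x => (‖x‖ ^ 0)⁻¹ := by
  have h1 := (h.trans (ex_pow_le (m := 0) (n := 1) (by norm_num))).add (b6b_one c)
  refine h1.congr_left fun x => ?_
  ring

theorem chr_sum {F : E4 → ℝ} {k : ℝ → ℝ} {r : ℝ × ℝ → ℝ} {f : E3 → ℝ} {m β C R : ℝ}
    (hB : FarEnd F k r f m β C R) (i j : Fin 3) :
    (fun x => (∑ c, ∑ a, ∑ b, H31R.chr (stMetric F k r) c a b (pt (f x) x) * conorm f x c * tang f x i a
      * tang f x j b) - kh m β i j x) =O[LL] fun x => (‖x‖ ^ 3)⁻¹ := by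
  set N' : Fin 4 → ℝ := Fin.cons 1 (fun l => -(β * dz l)) with hN'
  set t' : Fin 3 → Fin 4 → ℝ := fun i => Fin.cons (β * dz i) (fun l => dl l i) with ht'
  have hN : ∀ c, (fun x => conorm f x c - N' c) =O[LL] fun x => (‖x‖ ^ 1)⁻¹ := b6b_con hB
  have ht : ∀ i c, (fun x => tang f x i c - t' i c) =O[LL] fun x => (‖x‖ ^ 1)⁻¹ := b6b_tang hB
  have hN0 : ∀ c, (fun x => conorm f x c) =O[LL] fun x => (‖x‖ ^ 0)⁻¹ := fun c => b6b_bdd (hN c)
  have ht0 : ∀ i c, (fun x => tang f x i c) =O[LL] fun x => (‖x‖ ^ 0)⁻¹ := fun i c => b6b_bdd (ht i c)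
  have key : ∀ c a b, (fun x => (((H31R.chr (stMetric F k r) c a b (PP f x) - chlin m c a b x) * conorm f x c
      * tang f x i a * tang f x j b + chlin m c a b x * (conorm f x c - N' c) * tang f x i a * tang f x j b)
      + chlin m c a b x * N' c * (tang f x i a - t' i a) * tang f x j b)
      + chlin m c a b x * N' c * t' i a * (tang f x j b - t' j b)) =O[LL] fun x => (‖x‖ ^ 3)⁻¹ := by
    intro c a b
    have h1 : (fun x => (H31R.chr (stMetric F k r) c a b (PP f x) - chlin m c a b x) * conorm f x c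
      * tang f x i a * tang f x j b) =O[LL] fun x => (‖x‖ ^ 3)⁻¹ :=
      b5_mul (n := 3) (k := 0) (by norm_num) (b5_mul (n := 3) (k := 0) (by norm_num)
        (b5_mul (n := 3) (k := 0) (by norm_num) (chr_exp hB c a b) (hN0 c)) (ht0 i a)) (ht0 j b)
    have h2 : (fun x => chlin m c a b x * (conorm f x c - N' c) * tang f x i a * tang f x j b)
        =O[LL] fun x => (‖x‖ ^ 3)⁻¹ :=
      b5_mul (n := 3) (k := 0) (by norm_num) (b5_mul (n := 3) (k := 0) (by norm_num)
        (b5_mul (n := 2) (k := 1) (by norm_num) (chlin_bigO m c a b) (hN c)) (ht0 i a)) (ht0 j b)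
    have h3 : (fun x => chlin m c a b x * N' c * (tang f x i a - t' i a) * tang f x j b)
        =O[LL] fun x => (‖x‖ ^ 3)⁻¹ :=
      b5_mul (n := 3) (k := 0) (by norm_num) (b5_mul (n := 2) (k := 1) (by norm_num)
        (b5_mul (n := 2) (k := 0) (by norm_num) (chlin_bigO m c a b) (b6b_one (N' c))) (ht i a)) (ht0 j b)
    have h4 : (fun x => chlin m c a b x * N' c * t' i a * (tang f x j b - t' j b))
        =O[LL] fun x => (‖x‖ ^ 3)⁻¹ :=
      b5_mul (n := 2) (k := 1) (by norm_num) (b5_mul (n := 2) (k := 0) (by norm_num)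
        (b5_mul (n := 2) (k := 0) (by norm_num) (chlin_bigO m c a b) (b6b_one (N' c))) (b6b_one (t' i a))) (ht j b)
    exact ((h1.add h2).add h3).add h4
  have h5 := b5_sum Finset.univ fun c => b5_sum Finset.univ fun a => b5_sum Finset.univ fun b => key c a b
  refine h5.congr_left fun x => ?_
  rw [← chlin_sum m β x i j, ← Finset.sum_sub_distrib]
  refine Finset.sum_congr rfl fun c _ => ?_
  rw [← Finset.sum_sub_distrib]
  refine Finset.sum_congr rfl fun a _ => ?_
  rw [← Finset.sum_sub_distrib]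
  refine Finset.sum_congr rfl fun b _ => ?_
  have e1 : PP f x = pt (f x) x := rfl
  have e2 : (Fin.cons 1 (fun l => -(β * dz l)) : Fin 4 → ℝ) c = N' c := rfl
  have e3 : (Fin.cons (β * dz i) (fun l => dl l i) : Fin 4 → ℝ) a = t' i a := rfl
  have e4 : (Fin.cons (β * dz j) (fun l => dl l j) : Fin 4 → ℝ) b = t' j b := rfl
  rw [e1, e2, e3, e4]
  ring

end H17B
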