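import Pool.Agent.Lib.H17B.B5
import Pool.Agent.Lib.H17B.B1

set_option autoImplicit false

/-!
# H17B, chunk B7A (M): the length of the conormal

`-Σ G⁻¹ a b N_a N_b - (1 - β²) = O(1/ρ)`: `G⁻¹ = eta + O(1/ρ)`, `N = (1, -β, 0, 0) + O(1/ρ)`, `-Σ eta N N = 1 - β²`. As `1 - β² > 0` the
function `s ↦ 1/√s` is Lipschitz near `1 - β²` (or: `|1/√s - 1/√s0| ≤ |s - s0| (2/s0^(3/2))` for `s ≥ s0/2`), value `lor β` at
`1 - β²`.
-/

open MeasureTheory Filter Topology Set Asymptotics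
open scoped ContDiff

namespace H17B

open H17T
open Pool.Agent.Lib.PenroseSph (E3 Tens S2 sm pd trg fluxDensity momDensity admFlux admMom DefFun meanCurv trLevel)

theorem b7a_zero : Tendsto (fun x : E3 => ‖x‖⁻¹) LL (𝓝 0) :=
  tendsto_inv_atTop_zero.comp tendsto_norm_cobounded_atTop

theorem b7a_one : (fun x : E3 => ‖x‖⁻¹) =O[LL] fun _ => (1 : ℝ) :=
  b7a_zero.isBigO_one ℝ

/-- Products of functions with limits. -/
theorem b7a_mul {f g : E3 → ℝ} {f0 g0 : ℝ} (hf : (fun x => f x - f0) =O[LL] fun x => ‖x‖⁻¹)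
    (hg : (fun x => g x - g0) =O[LL] fun x => ‖x‖⁻¹) : (fun x => f x * g x - f0 * g0) =O[LL] fun x => ‖x‖⁻¹ := by
  have h1 : (fun x => (f x - f0) * (g x - g0)) =O[LL] fun x => ‖x‖⁻¹ := by
    have := hf.mul (hg.trans b7a_one)
    simpa using this
  have h2 : (fun x => f0 * (g x - g0)) =O[LL] fun x => ‖x‖⁻¹ := hg.const_mul_left f0
  have h3 : (fun x => g0 * (f x - f0)) =O[LL] fun x => ‖x‖⁻¹ := hf.const_mul_left g0
  refine ((h1.add h2).add h3).congr_left fun x => ?_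
  ring

theorem b7a_conorm {F : E4 → ℝ} {k : ℝ → ℝ} {r : ℝ × ℝ → ℝ} {f : E3 → ℝ} {m β C R : ℝ}
    (hB : FarEnd F k r f m β C R) (a : Fin 4) :
    (fun x => conorm f x a - (Fin.cons 1 (fun l => -(β * dz l)) : Fin 4 → ℝ) a) =O[LL] fun x => ‖x‖⁻¹ := by
  refine Fin.cases ?_ (fun i => ?_) a
  · simp only [conorm, Fin.cons_zero, sub_self]
    exact isBigO_zero _ _
  · simp only [conorm, Fin.cons_succ]
    refine (f_one hB i).neg_left.congr_left fun x => ?_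
    ring

theorem b7a_eta (β : ℝ) : (-∑ a, ∑ b, eta a b * (Fin.cons 1 (fun l => -(β * dz l)) : Fin 4 → ℝ) a *
    (Fin.cons 1 (fun l => -(β * dz l)) : Fin 4 → ℝ) b) = 1 - β ^ 2 := by
  simp only [Fin.sum_univ_succ, Fin.sum_univ_zero, Fin.cons_zero, Fin.cons_succ, eta, dz]
  simp [Fin.ext_iff]
  ring

theorem conorm_len {F : E4 → ℝ} {k : ℝ → ℝ} {r : ℝ × ℝ → ℝ} {f : E3 → ℝ} {m β C R : ℝ}
    (hB : FarEnd F k r f m β C R) :
    (fun x => (-∑ a, ∑ b, (stMetric F k r (pt (f x) x))⁻¹ a b * conorm f x a * conorm f x b) - (1 - β ^ 2))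
      =O[LL] fun x => ‖x‖⁻¹ := by
  have h : ∀ a b : Fin 4, (fun x => (stMetric F k r (pt (f x) x))⁻¹ a b * conorm f x a * conorm f x b -
      eta a b * (Fin.cons 1 (fun l => -(β * dz l)) : Fin 4 → ℝ) a * (Fin.cons 1 (fun l => -(β * dz l)) : Fin 4 → ℝ) b)
      =O[LL] fun x => ‖x‖⁻¹ := fun a b =>
    b7a_mul (b7a_mul (inv_metric hB a b) (b7a_conorm hB a)) (b7a_conorm hB b)
  have h2 : (fun x => ∑ a, ∑ b, ((stMetric F k r (pt (f x) x))⁻¹ a b * conorm f x a * conorm f x b -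
      eta a b * (Fin.cons 1 (fun l => -(β * dz l)) : Fin 4 → ℝ) a * (Fin.cons 1 (fun l => -(β * dz l)) : Fin 4 → ℝ) b))
      =O[LL] fun x => ‖x‖⁻¹ :=
    IsBigO.fun_sum fun a _ => IsBigO.fun_sum fun b _ => h a b
  refine h2.neg_left.congr_left fun x => ?_
  rw [← b7a_eta β]
  simp only [Finset.sum_sub_distrib]
  ring

theorem conorm_sqrt {F : E4 → ℝ} {k : ℝ → ℝ} {r : ℝ × ℝ → ℝ} {f : E3 → ℝ} {m β C R : ℝ}
    (hB : FarEnd F k r f m β C R) :
    (fun x => 1 / Real.sqrt (-∑ a, ∑ b, (stMetric F k r (pt (f x) x))⁻¹ a b * conorm f x a * conorm f x b) - lor β)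
      =O[LL] fun x => ‖x‖⁻¹ := by
  have h := conorm_len hB
  have h0 : 0 < 1 - β ^ 2 := by
    have := hB.beta
    have h1 : β ^ 2 < 1 := by
      rw [← sq_abs]
      have := abs_nonneg β
      nlinarith
    linarith
  have ht : Tendsto (fun x => -∑ a, ∑ b, (stMetric F k r (pt (f x) x))⁻¹ a b * conorm f x a * conorm f x b) LL
      (𝓝 (1 - β ^ 2)) := by
    have h1 := h.trans_tendsto b7a_zero
    have h2 := h1.add_const (1 - β ^ 2)
    simpa using h2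
  have hd : DifferentiableAt ℝ (fun s : ℝ => 1 / Real.sqrt s) (1 - β ^ 2) :=
    (differentiableAt_const _).div (Real.hasDerivAt_sqrt h0.ne').differentiableAt (Real.sqrt_pos.2 h0).ne'
  have h3 := hd.isBigO_sub.comp_tendsto ht
  exact h3.trans h

end H17B
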