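import Pool.Agent.Lib.H17B.B6B
import Pool.Agent.Lib.H17B.B7A

set_option autoImplicit false

/-!
# H17B, chunk B7B (S/M): the second fundamental form

`second = (f_ij + S) / √(..)`, `S = kh + O(ρ⁻³)` (`chr_sum`), `f_ij + kh = O(ρ⁻²)`, `1/√(..) = γ + O(1/ρ)`.
-/

open MeasureTheory Filter Topology Set Asymptotics
open scoped ContDiff

namespace H17B

open H17T
open Pool.Agent.Lib.PenroseSph (E3 Tens S2 sm pd trg fluxDensity momDensity admFlux admMom DefFun meanCurv trLevel)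

theorem second_exp {F : E4 → ℝ} {k : ℝ → ℝ} {r : ℝ × ℝ → ℝ} {f : E3 → ℝ} {m β C R : ℝ}
    (hB : FarEnd F k r f m β C R) (i j : Fin 3) :
    (fun x => second (stMetric F k r) f x i j - lor β * (pd i (pd j f) x + kh m β i j x))
      =O[LL] fun x => (‖x‖ ^ 3)⁻¹ := by
  have h1 := chr_sum hB i j
  have h2 := conorm_sqrt hB
  have h3 : (fun x => pd i (pd j f) x + kh m β i j x) =O[LL] fun x => (‖x‖ ^ 2)⁻¹ :=
    (f_two hB i j).add (kh_bigO m β i j)
  have h4 : (fun x => 1 / Real.sqrt (-∑ a, ∑ b, (stMetric F k r (pt (f x) x))⁻¹ a b * conorm f x a * conorm f x b))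
      =O[LL] fun _ => (1 : ℝ) := by
    have h5 := (h2.trans b7a_one).add (isBigO_const_const (lor β) (one_ne_zero (α := ℝ)) LL)
    refine h5.congr_left fun x => ?_
    ring
  have e : ∀ x : E3, (‖x‖ ^ 2)⁻¹ * ‖x‖⁻¹ = (‖x‖ ^ 3)⁻¹ := fun x => by
    rw [← mul_inv, ← pow_succ]
  have h6 : (fun x => ((∑ c, ∑ a, ∑ b, H31R.chr (stMetric F k r) c a b (pt (f x) x) * conorm f x c * tang f x i a
      * tang f x j b) - kh m β i j x) *
      (1 / Real.sqrt (-∑ a, ∑ b, (stMetric F k r (pt (f x) x))⁻¹ a b * conorm f x a * conorm f x b)) +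
      (pd i (pd j f) x + kh m β i j x) *
      (1 / Real.sqrt (-∑ a, ∑ b, (stMetric F k r (pt (f x) x))⁻¹ a b * conorm f x a * conorm f x b) - lor β))
      =O[LL] fun x => (‖x‖ ^ 3)⁻¹ := by
    refine IsBigO.add ?_ ?_
    · simpa using h1.mul h4
    · exact (h3.mul h2).congr_right e
  refine h6.congr_left fun x => ?_
  simp only [second, Matrix.of_apply]
  ring

theorem second_bigO {F : E4 → ℝ} {k : ℝ → ℝ} {r : ℝ × ℝ → ℝ} {f : E3 → ℝ} {m β C R : ℝ}
    (hB : FarEnd F k r f m β C R) (i j : Fin 3) :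
    (fun x => second (stMetric F k r) f x i j) =O[LL] fun x => (‖x‖ ^ 2)⁻¹ := by
  have h1 := (second_exp hB i j).trans (ex_pow_le (show 2 ≤ 3 by norm_num))
  have h3 : (fun x => pd i (pd j f) x + kh m β i j x) =O[LL] fun x => (‖x‖ ^ 2)⁻¹ :=
    (f_two hB i j).add (kh_bigO m β i j)
  have h2 := h1.add (h3.const_mul_left (lor β))
  refine h2.congr_left fun x => ?_
  ring

end H17B
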