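import Pool.Agent.Lib.H17B.B4

set_option autoImplicit false

/-!
# H17B, chunk B8A (S/M): the induced metric

`slice G f x i j = G_{i+1,j+1} + G_00 f_i f_j` at `pt (f x) x` (definition; the mixed entries of `stMetric` vanish), `G_{i+1,j+1} = dl i j + O(1/ρ)`,
`G_00 = -1 + O(1/ρ)` (`ex_metric`, `Ex.val1`), `f_i = β dz i + O(1/ρ)`.
-/

open MeasureTheory Filter Topology Set Asymptotics
open scoped ContDiff

namespace H17B

open H17T
open Pool.Agent.Lib.PenroseSph (E3 Tens S2 sm pd trg fluxDensity momDensity admFlux admMom DefFun meanCurv trLevel)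

theorem slice_split (F : E4 → ℝ) (k : ℝ → ℝ) (r : ℝ × ℝ → ℝ) (f : E3 → ℝ) (x : E3) (i j : Fin 3) :
    slice (stMetric F k r) f x i j
      = stMetric F k r (PP f x) i.succ j.succ + stMetric F k r (PP f x) 0 0 * (pd i f x * pd j f x) := by
  have e1 : ∀ l : Fin 3, stMetric F k r (PP f x) 0 l.succ = 0 := fun l => rfl
  have e2 : ∀ l : Fin 3, stMetric F k r (PP f x) l.succ 0 = 0 := fun l => rfl
  have e3 : slice (stMetric F k r) f x i j =
      ∑ a, ∑ b, stMetric F k r (PP f x) a b * tang f x i a * tang f x j b := rfl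
  rw [e3, Fin.sum_univ_succ]
  simp only [Fin.sum_univ_succ (n := 3), e1, e2, tang, Fin.cons_zero, Fin.cons_succ, zero_mul, Finset.sum_const_zero,
    add_zero, zero_add]
  simp
  ring

/-- Products of functions with limits. -/
theorem b8a_mul {f g : E3 → ℝ} {f0 g0 : ℝ} (hf : (fun x => f x - f0) =O[LL] fun x => ‖x‖⁻¹)
    (hg : (fun x => g x - g0) =O[LL] fun x => ‖x‖⁻¹) : (fun x => f x * g x - f0 * g0) =O[LL] fun x => ‖x‖⁻¹ := by
  have h0 : Tendsto (fun x : E3 => ‖x‖⁻¹) LL (𝓝 0) := tendsto_inv_atTop_zero.comp tendsto_norm_cobounded_atTop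
  have h1 : (fun x => (f x - f0) * (g x - g0)) =O[LL] fun x => ‖x‖⁻¹ := by
    have := hf.mul (hg.trans (h0.isBigO_one ℝ))
    simpa using this
  have h2 : (fun x => f0 * (g x - g0)) =O[LL] fun x => ‖x‖⁻¹ := hg.const_mul_left f0
  have h3 : (fun x => g0 * (f x - f0)) =O[LL] fun x => ‖x‖⁻¹ := hf.const_mul_left g0
  refine ((h1.add h2).add h3).congr_left fun x => ?_
  ring

theorem b8a_eta (i j : Fin 3) : eta i.succ j.succ = dl i j := by
  simp [eta, dl, Fin.succ_inj]

theorem slice_val {F : E4 → ℝ} {k : ℝ → ℝ} {r : ℝ × ℝ → ℝ} {f : E3 → ℝ} {m β C R : ℝ}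
    (hB : FarEnd F k r f m β C R) (i j : Fin 3) :
    (fun x => slice (stMetric F k r) f x i j - (dl i j - β ^ 2 * dz i * dz j)) =O[LL] fun x => ‖x‖⁻¹ := by
  have h1 := (ex_metric hB i.succ j.succ).val1
  have h2 := (ex_metric hB 0 0).val1
  have h3 := b8a_mul (f_one hB i) (f_one hB j)
  have h4 := h1.add (b8a_mul h2 h3)
  refine h4.congr_left fun x => ?_
  rw [slice_split, b8a_eta]
  have e : eta 0 0 = -1 := by simp [eta]
  rw [e]
  ring

end H17B
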