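import Pool.Agent.Lib.H17B.B8A

set_option autoImplicit false

/-!
# H17B, chunk B8B (M): first derivatives of the induced metric

`slice_split`. Chain rule: for `Φ` differentiable at `PP f x`: `∂_l (Φ ∘ PP f) x = ∂_{l+1} Φ (PP f x) + f_l(x) ∂_0 Φ (PP f x)` (the derivative of
`PP f` in the direction `e_l` is `(f_l, e_l)`). With `ex_metric`: `∂_l (G_ab ∘ PP f) = -(2m dl a b/ρ²) x_l/ρ + O(ρ⁻³)` (`om x 0 = 0`,
`om x l.succ = x l/ρ`; `∂_0 G = O(ρ⁻³)`). Product rule for `G_00 f_i f_j` with `G_00 = -1 + O(1/ρ)`, `f_i = β dz i + O(1/ρ)`, `f_il = O(ρ⁻²)`.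
-/

open MeasureTheory Filter Topology Set Asymptotics
open scoped ContDiff

namespace H17B

open H17T
open Pool.Agent.Lib.PenroseSph (E3 Tens S2 sm pd trg fluxDensity momDensity admFlux admMom DefFun meanCurv trLevel)

/-- The derivative of PP. -/
theorem b8b_pp {f : E3 → ℝ} {x : E3} (hf : DifferentiableAt ℝ f x) :
    DifferentiableAt ℝ (PP f) x ∧ ∀ l : Fin 3, fderiv ℝ (PP f) x (EuclideanSpace.single l 1) =
      pd l f x • H31R.ebas (0 : Fin 4) + H31R.ebas l.succ := by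
  have hd : DifferentiableAt ℝ (PP f) x := by
    have h1 : DifferentiableAt ℝ (fun y : E3 => (f y, y)) x := hf.prodMk differentiableAt_id
    have h2 : DifferentiableAt ℝ (fun q : ℝ × E3 => pt q.1 q.2) (f x, x) :=
      (pt_smooth.differentiable (by simp)).differentiableAt
    exact DifferentiableAt.comp (f := fun y : E3 => (f y, y)) x h2 h1
  refine ⟨hd, fun l => ?_⟩
  ext a
  have h3 : (fderiv ℝ (PP f) x (EuclideanSpace.single l 1)) a =
      fderiv ℝ (fun y => PP f y a) x (EuclideanSpace.single l 1) := by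
    have h4 : HasFDerivAt (fun y => PP f y a) ((EuclideanSpace.proj a : E4 →L[ℝ] ℝ).comp (fderiv ℝ (PP f) x)) x :=
      (EuclideanSpace.proj a : E4 →L[ℝ] ℝ).hasFDerivAt.comp x hd.hasFDerivAt
    rw [h4.fderiv]
    rfl
  rw [h3]
  refine Fin.cases ?_ (fun i => ?_) a
  · have e : (fun y => PP f y 0) = f := by
      funext y
      rfl
    rw [e]
    simp [pd]
  · have e : (fun y => PP f y i.succ) = fun y => (EuclideanSpace.proj i : E3 →L[ℝ] ℝ) y := by
      funext y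
      exact pt_succ _ _ _
    rw [e, ContinuousLinearMap.fderiv]
    simp [Fin.succ_inj]

/-- Chain rule. -/
theorem b8b_chain {f : E3 → ℝ} {φ : E4 → ℝ} {x : E3} (hf : DifferentiableAt ℝ f x) (hφ : DifferentiableAt ℝ φ (PP f x))
    (l : Fin 3) : DifferentiableAt ℝ (fun y => φ (PP f y)) x ∧
      pd l (fun y => φ (PP f y)) x = H31R.pd l.succ φ (PP f x) + pd l f x * H31R.pd 0 φ (PP f x) := by
  obtain ⟨h1, h2⟩ := b8b_pp hf
  have h3 : HasFDerivAt (fun y => φ (PP f y)) ((fderiv ℝ φ (PP f x)).comp (fderiv ℝ (PP f) x)) x :=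
    hφ.hasFDerivAt.comp x h1.hasFDerivAt
  refine ⟨h3.differentiableAt, ?_⟩
  have e : pd l (fun y => φ (PP f y)) x = fderiv ℝ (fun y => φ (PP f y)) x (EuclideanSpace.single l 1) := rfl
  rw [e, h3.fderiv, ContinuousLinearMap.comp_apply, h2 l, map_add, map_smul, smul_eq_mul]
  have e2 : ∀ a : Fin 4, fderiv ℝ φ (PP f x) (H31R.ebas a) = H31R.pd a φ (PP f x) := fun a => rfl
  rw [e2, e2]
  ring

theorem b8b_diff {f : E3 → ℝ} {x : E3} (hf : ContDiffAt ℝ ∞ f x) (i : Fin 3) : DifferentiableAt ℝ (pd i f) x := by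
  have h1 : ContDiffAt ℝ ∞ (fderiv ℝ f) x := hf.fderiv_right (by simp)
  have h2 : DifferentiableAt ℝ (fderiv ℝ f) x := h1.differentiableAt (by simp)
  exact h2.clm_apply (differentiableAt_const _)

/-- The derivative of the slice metric. -/
theorem b8b_der {f : E3 → ℝ} {φ ψ : E4 → ℝ} {x : E3} (hf : ContDiffAt ℝ ∞ f x) (hφ : DifferentiableAt ℝ φ (PP f x))
    (hψ : DifferentiableAt ℝ ψ (PP f x)) (l i j : Fin 3) :
    pd l (fun y => φ (PP f y) + ψ (PP f y) * (pd i f y * pd j f y)) x =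
      (H31R.pd l.succ φ (PP f x) + pd l f x * H31R.pd 0 φ (PP f x)) +
      ((H31R.pd l.succ ψ (PP f x) + pd l f x * H31R.pd 0 ψ (PP f x)) * (pd i f x * pd j f x) +
        ψ (PP f x) * (pd l (pd i f) x * pd j f x + pd i f x * pd l (pd j f) x)) := by
  have hfd : DifferentiableAt ℝ f x := hf.differentiableAt (by simp)
  obtain ⟨h1, h2⟩ := b8b_chain hfd hφ l
  obtain ⟨h3, h4⟩ := b8b_chain hfd hψ l
  have h5 := b8b_diff hf i
  have h6 := b8b_diff hf j
  rw [← h2, ← h4]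
  have h7 := (h1.hasFDerivAt.add (h3.hasFDerivAt.mul (h5.hasFDerivAt.mul h6.hasFDerivAt)))
  have e : pd l (fun y => φ (PP f y) + ψ (PP f y) * (pd i f y * pd j f y)) x =
    fderiv ℝ (fun y => φ (PP f y) + ψ (PP f y) * (pd i f y * pd j f y)) x (EuclideanSpace.single l 1) := rfl
  have e2 : fderiv ℝ (fun y => φ (PP f y) + ψ (PP f y) * (pd i f y * pd j f y)) x = _ := h7.fderiv
  rw [e, e2]
  simp only [add_apply, smul_apply, smul_eq_mul, Pi.mul_apply]
  have e3 : ∀ φ : E3 → ℝ, fderiv ℝ φ x (EuclideanSpace.single l 1) = pd l φ x := fun φ => rfl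
  simp only [e3]
  ring

theorem slice_der {F : E4 → ℝ} {k : ℝ → ℝ} {r : ℝ × ℝ → ℝ} {f : E3 → ℝ} {m β C R : ℝ}
    (hB : FarEnd F k r f m β C R) (l i j : Fin 3) :
    (fun x => pd l (fun y => slice (stMetric F k r) f y i j) x
      + (2 * m / ‖x‖ ^ 2 * (x l / ‖x‖) * (dl i j + β ^ 2 * dz i * dz j)
        + β * (pd l (pd i f) x * dz j + pd l (pd j f) x * dz i))) =O[LL] fun x => (‖x‖ ^ 3)⁻¹ := by
  have h0 : Tendsto (fun x : E3 => ‖x‖⁻¹) LL (𝓝 0) := tendsto_inv_atTop_zero.comp tendsto_norm_cobounded_atTop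
  have hone : (fun x : E3 => ‖x‖⁻¹) =O[LL] fun _ => (1 : ℝ) := h0.isBigO_one ℝ
  have e23 : ∀ x : E3, (‖x‖ ^ 2)⁻¹ * ‖x‖⁻¹ = (‖x‖ ^ 3)⁻¹ := fun x => by
    rw [← mul_inv, ← pow_succ]
  have e32 : ∀ x : E3, ‖x‖⁻¹ * (‖x‖ ^ 2)⁻¹ = (‖x‖ ^ 3)⁻¹ := fun x => by
    rw [mul_comm, e23]
  have hij := ex_metric hB i.succ j.succ
  have h00 := ex_metric hB 0 0
  have hf1 : ∀ i, (fun x => pd i f x) =O[LL] fun _ => (1 : ℝ) := fun i => by
    have h := ((f_one hB i).trans hone).add (isBigO_const_const (β * dz i) (one_ne_zero (α := ℝ)) LL)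
    refine h.congr_left fun x => ?_
    ring
  -- the time derivatives
  have ht : ∀ {c0 c1 : ℝ} {φ : E4 → ℝ}, Ex f c0 c1 φ →
      (fun x => pd l f x * H31R.pd 0 φ (PP f x)) =O[LL] fun x => (‖x‖ ^ 3)⁻¹ := by
    intro c0 c1 φ h
    have h1 : (fun x => H31R.pd 0 φ (PP f x)) =O[LL] fun x => (‖x‖ ^ 3)⁻¹ := by
      refine (h.der 0).congr_left fun x => ?_
      simp [om]
    have h2 := (hf1 l).mul h1
    simpa using h2
  have hA : (fun x => H31R.pd l.succ (fun p => stMetric F k r p i.succ j.succ) (PP f x) +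
      2 * m * dl i j / ‖x‖ ^ 2 * (x l / ‖x‖)) =O[LL] fun x => (‖x‖ ^ 3)⁻¹ := by
    refine (hij.der l.succ).congr_left fun x => ?_
    have e : dl i.succ j.succ = dl i j := by simp [dl, Fin.succ_inj]
    rw [e]
    rfl
  have hB0 : (fun x => H31R.pd l.succ (fun p => stMetric F k r p 0 0) (PP f x) +
      2 * m / ‖x‖ ^ 2 * (x l / ‖x‖)) =O[LL] fun x => (‖x‖ ^ 3)⁻¹ := by
    refine (h00.der l.succ).congr_left fun x => ?_
    have e : dl (0 : Fin 4) 0 = 1 := by simp [dl]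
    rw [e, mul_one]
    rfl
  have hB1 : (fun x => ((H31R.pd l.succ (fun p => stMetric F k r p 0 0) (PP f x) +
      2 * m / ‖x‖ ^ 2 * (x l / ‖x‖)) + pd l f x * H31R.pd 0 (fun p => stMetric F k r p 0 0) (PP f x)) *
      (pd i f x * pd j f x)) =O[LL] fun x => (‖x‖ ^ 3)⁻¹ := by
    have h := (hB0.add (ht h00)).mul ((hf1 i).mul (hf1 j))
    simpa using h
  have hC : (fun x : E3 => 2 * m / ‖x‖ ^ 2 * (x l / ‖x‖) * (pd i f x * pd j f x - β * dz i * (β * dz j)))
      =O[LL] fun x => (‖x‖ ^ 3)⁻¹ := by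
    have h1 := b8a_mul (f_one hB i) (f_one hB j)
    have h2 : (fun x : E3 => 2 * m / ‖x‖ ^ 2 * (x l / ‖x‖)) =O[LL] fun x => (‖x‖ ^ 2)⁻¹ := by
      refine IsBigO.of_bound (|2 * m|) (Eventually.of_forall fun x => ?_)
      have h3 : |x l / ‖x‖| ≤ 1 := ex_om l.succ x
      have h4 : ‖2 * m / ‖x‖ ^ 2 * (x l / ‖x‖)‖ = |2 * m| * ‖(‖x‖ ^ 2)⁻¹‖ * |x l / ‖x‖| := by
        rw [norm_mul, div_eq_mul_inv, norm_mul, Real.norm_eq_abs, Real.norm_eq_abs (x l / ‖x‖)]
      rw [h4]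
      calc |2 * m| * ‖(‖x‖ ^ 2)⁻¹‖ * |x l / ‖x‖| ≤ |2 * m| * ‖(‖x‖ ^ 2)⁻¹‖ * 1 :=
            mul_le_mul_of_nonneg_left h3 (by positivity)
        _ = _ := by ring
    exact (h2.mul h1).congr_right e23
  have hD : (fun x => (stMetric F k r (PP f x) 0 0 + 1) * (pd l (pd i f) x * pd j f x + pd i f x * pd l (pd j f) x))
      =O[LL] fun x => (‖x‖ ^ 3)⁻¹ := by
    have h1 : (fun x => stMetric F k r (PP f x) 0 0 + 1) =O[LL] fun x => ‖x‖⁻¹ := by
      refine h00.val1.congr_left fun x => ?_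
      have e : eta 0 0 = -1 := by simp [eta]
      rw [e]
      ring
    have h2 : (fun x => pd l (pd i f) x * pd j f x + pd i f x * pd l (pd j f) x) =O[LL] fun x => (‖x‖ ^ 2)⁻¹ := by
      have h3 := (f_two hB l i).mul (hf1 j)
      have h4 := (hf1 i).mul (f_two hB l j)
      refine IsBigO.add ?_ ?_
      · simpa using h3
      · simpa using h4
    exact (h1.mul h2).congr_right e32
  have hE : (fun x => pd l (pd i f) x * (pd j f x - β * dz j)) =O[LL] fun x => (‖x‖ ^ 3)⁻¹ :=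
    ((f_two hB l i).mul (f_one hB j)).congr_right e23
  have hE' : (fun x => pd l (pd j f) x * (pd i f x - β * dz i)) =O[LL] fun x => (‖x‖ ^ 3)⁻¹ :=
    ((f_two hB l j).mul (f_one hB i)).congr_right e23
  have hsum := (((((hA.add (ht hij)).add hB1).sub hC).add hD).sub hE).sub hE'
  refine hsum.congr' ?_ EventuallyEq.rfl
  have hev : ∀ᶠ x : E3 in LL, R ≤ ‖x‖ := tendsto_norm_cobounded_atTop.eventually_ge_atTop R
  filter_upwards [hev, hij.diff, h00.diff] with x hx hd1 hd2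
  have e1 : (fun y => slice (stMetric F k r) f y i j) = fun y => (fun p => stMetric F k r p i.succ j.succ) (PP f y) +
      (fun p => stMetric F k r p 0 0) (PP f y) * (pd i f y * pd j f y) := by
    funext y
    exact slice_split F k r f y i j
  rw [e1, b8b_der (hB.f_smooth x hx) hd1 hd2 l i j]
  ring

end H17B
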