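import Pool.Agent.Lib.H17B.B1
import Pool.Agent.Lib.H17B.B8A

set_option autoImplicit false

/-!
# H17B, chunk D0A (M): smoothness of the data near infinity

For `‖x‖ ≥ R` the point `PP f x = ev (qq f x) (‖x‖⁻¹ • x)`; the entries of `stMetric F k r` are smooth there (`stMetric_smooth` of H17T/T0, with
`hB.F_smooth`, `hB.k_smooth`, `hB.r_smooth`; `ev q n = pt q.1 (q.2 • n)`), `f` is smooth at `x`, so is `PP f` (`pt_smooth`). The slice metric is a
polynomial in these (`slice_split`), smooth at `x`. Second fundamental form: `H31R.chr` involves first derivatives of the entries (smooth) and the inverse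
matrix (smooth where the determinant is not zero: `stMetric_inv`; use `stInv` near `PP f x`, or `Ring.inverse`/`adjugate`; the statement for a fixed
`x` only needs continuity), and the quotient by the square root is continuous where `-Σ G⁻¹ N N > 0`, which is a hypothesis here.
-/

open MeasureTheory Filter Topology Set Asymptotics
open scoped ContDiff

namespace H17B

open H17T
open Pool.Agent.Lib.PenroseSph (E3 Tens S2 sm pd trg fluxDensity momDensity admFlux admMom DefFun meanCurv trLevel)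

theorem d0a_pd {φ : E3 → ℝ} {x : E3} (h : ContDiffAt ℝ ∞ φ x) (i : Fin 3) : ContDiffAt ℝ ∞ (pd i φ) x := by
  have h1 : ContDiffAt ℝ ∞ (fderiv ℝ φ) x := h.fderiv_right (m := ∞) (by simp)
  exact h1.clm_apply contDiffAt_const

theorem d0a_pd4 {φ : E4 → ℝ} {x : E4} (h : ContDiffAt ℝ ∞ φ x) (i : Fin 4) : ContDiffAt ℝ ∞ (H31R.pd i φ) x := by
  have h1 : ContDiffAt ℝ ∞ (fderiv ℝ φ) x := h.fderiv_right (m := ∞) (by simp)
  exact h1.clm_apply contDiffAt_const

theorem d0a_inv {X : Type} [TopologicalSpace X] {n : ℕ} {G : X → Matrix (Fin n) (Fin n) ℝ} {p : X}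
    (hG : ∀ a b, ContinuousAt (fun q => G q a b) p) (hd : (G p).det ≠ 0) (a b : Fin n) :
    ContinuousAt (fun q => (G q)⁻¹ a b) p := by
  have hG' : ContinuousAt G p := continuousAt_pi.2 fun a => continuousAt_pi.2 fun b => hG a b
  have hdet : ContinuousAt (fun q => (G q).det) p :=
    (continuous_id.matrix_det).continuousAt.comp (f := G) hG'
  have hadj : ContinuousAt (fun q => (G q).adjugate) p :=
    (continuous_id.matrix_adjugate).continuousAt.comp (f := G) hG'
  have e : (fun q => (G q)⁻¹ a b) = fun q => ((G q).det)⁻¹ * (G q).adjugate a b := by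
    funext q
    rw [Matrix.inv_def, Ring.inverse_eq_inv']
    rfl
  rw [e]
  exact (hdet.inv₀ hd).mul (continuousAt_pi.1 (continuousAt_pi.1 hadj a) b)

theorem d0a_ev {f : E3 → ℝ} {x : E3} (hx : x ≠ 0) : ∃ n : S2, ev (qq f x) n = PP f x := by
  have h0 : ‖x‖ ≠ 0 := norm_ne_zero_iff.2 hx
  refine ⟨⟨‖x‖⁻¹ • x, ?_⟩, ?_⟩
  · rw [mem_sphere_zero_iff_norm, norm_smul, norm_inv, norm_norm, inv_mul_cancel₀ h0]
  · show pt (f x) (‖x‖ • (‖x‖⁻¹ • x)) = pt (f x) x
    rw [smul_smul, mul_inv_cancel₀ h0, one_smul]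

theorem d0a_data {F : E4 → ℝ} {k : ℝ → ℝ} {r : ℝ × ℝ → ℝ} {f : E3 → ℝ} {m β C R : ℝ} (hB : FarEnd F k r f m β C R) {x : E3} (hx : R < ‖x‖) : x ≠ 0 ∧ ContDiffAt ℝ ∞ F (PP f x) ∧ 0 < F (PP f x) := by
  have hx0 : x ≠ 0 := norm_pos_iff.1 (hB.R_pos.trans hx)
  obtain ⟨n, hn⟩ := d0a_ev (f := f) hx0
  rw [← hn]
  exact ⟨hx0, hB.F_smooth x hx.le n, hB.F_pos x hx.le n⟩

theorem d0a_met {F : E4 → ℝ} {k : ℝ → ℝ} {r : ℝ × ℝ → ℝ} {f : E3 → ℝ} {m β C R : ℝ} (hB : FarEnd F k r f m β C R) {x : E3} (hx : R < ‖x‖) (a b : Fin 4) :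
    ContDiffAt ℝ ∞ (fun p => stMetric F k r p a b) (PP f x) := by
  obtain ⟨hx0, h1, -⟩ := d0a_data hB hx
  refine stMetric_smooth ?_ h1 ?_ ?_ a b
  · rw [PP, pos_pt]
    exact hx0
  · rw [PP, pos_pt]
    exact hB.k_smooth _ hx.le
  · rw [PP, pos_pt, pt_zero]
    exact hB.r_smooth x hx.le

theorem d0a_det {F : E4 → ℝ} {k : ℝ → ℝ} {r : ℝ × ℝ → ℝ} {f : E3 → ℝ} {m β C R : ℝ} (hB : FarEnd F k r f m β C R) {x : E3} (hx : R < ‖x‖) : (stMetric F k r (PP f x)).det ≠ 0 := by
  obtain ⟨hx0, -, h1⟩ := d0a_data hB hx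
  refine (stMetric_inv ?_ h1 ?_ ?_).2
  · rw [PP, pos_pt]
    exact hx0
  · rw [PP, pos_pt]
    exact hB.k_pos _ hx.le
  · rw [PP, pos_pt, pt_zero]
    exact hB.r_pos x hx.le

theorem d0a_PP {F : E4 → ℝ} {k : ℝ → ℝ} {r : ℝ × ℝ → ℝ} {f : E3 → ℝ} {m β C R : ℝ} (hB : FarEnd F k r f m β C R) {x : E3} (hx : R < ‖x‖) : ContDiffAt ℝ ∞ (PP f) x :=
  ContDiffAt.comp (f := fun y : E3 => (f y, y)) (g := fun q : ℝ × E3 => pt q.1 q.2) x pt_smooth.contDiffAt
    ((hB.f_smooth x hx.le).prodMk contDiffAt_id)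

theorem slice_smooth_b {F : E4 → ℝ} {k : ℝ → ℝ} {r : ℝ × ℝ → ℝ} {f : E3 → ℝ} {m β C R : ℝ}
    (hB : FarEnd F k r f m β C R) {x : E3} (hx : R < ‖x‖) (i j : Fin 3) :
    ContDiffAt ℝ ∞ (fun y => slice (stMetric F k r) f y i j) x := by
  have e : (fun y => slice (stMetric F k r) f y i j) = fun y =>
      (fun p => stMetric F k r p i.succ j.succ) (PP f y) + (fun p => stMetric F k r p 0 0) (PP f y) * (pd i f y * pd j f y) := by
    funext y
    exact slice_split F k r f y i j
  rw [e]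
  have hP := d0a_PP hB hx
  have h1 : ∀ a b, ContDiffAt ℝ ∞ (fun y => (fun p => stMetric F k r p a b) (PP f y)) x := fun a b =>
    ContDiffAt.comp (f := PP f) x (d0a_met hB hx a b) hP
  exact (h1 _ _).add ((h1 _ _).mul ((d0a_pd (hB.f_smooth x hx.le) i).mul (d0a_pd (hB.f_smooth x hx.le) j)))

theorem second_cont_b {F : E4 → ℝ} {k : ℝ → ℝ} {r : ℝ × ℝ → ℝ} {f : E3 → ℝ} {m β C R : ℝ}
    (hB : FarEnd F k r f m β C R) {x : E3} (hx : R < ‖x‖)
    (hpos : 0 < -∑ a, ∑ b, (stMetric F k r (pt (f x) x))⁻¹ a b * conorm f x a * conorm f x b) (i j : Fin 3) :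
    ContinuousAt (fun y => second (stMetric F k r) f y i j) x := by
  have hP := (d0a_PP hB hx).continuousAt
  have hf := hB.f_smooth x hx.le
  have hinv : ∀ a b, ContinuousAt (fun y => (stMetric F k r (pt (f y) y))⁻¹ a b) x := by
    intro a b
    have h1 := d0a_inv (G := stMetric F k r) (p := PP f x) (fun a b => (d0a_met hB hx a b).continuousAt) (d0a_det hB hx) a b
    exact ContinuousAt.comp (f := PP f) h1 hP
  have hcon : ∀ a, ContinuousAt (fun y => conorm f y a) x := by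
    intro a
    refine Fin.cases ?_ (fun l => ?_) a
    · exact continuousAt_const
    · exact (d0a_pd hf l).continuousAt.neg
  have htan : ∀ l a, ContinuousAt (fun y => tang f y l a) x := by
    intro l a
    refine Fin.cases ?_ (fun l' => ?_) a
    · exact (d0a_pd hf l).continuousAt
    · exact continuousAt_const
  have hchr : ∀ c a b, ContinuousAt (fun y => H31R.chr (stMetric F k r) c a b (pt (f y) y)) x := by
    intro c a b
    have h1 : ContinuousAt (H31R.chr (stMetric F k r) c a b) (PP f x) := by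
      unfold H31R.chr
      refine continuousAt_const.mul (tendsto_finset_sum _ fun l _ => ?_)
      refine ContinuousAt.mul ?_ ?_
      · exact d0a_inv (G := stMetric F k r) (p := PP f x) (fun a b => (d0a_met hB hx a b).continuousAt) (d0a_det hB hx) c l
      · exact ((d0a_pd4 (d0a_met hB hx b l) a).continuousAt.add (d0a_pd4 (d0a_met hB hx a l) b).continuousAt).sub
          (d0a_pd4 (d0a_met hB hx a b) l).continuousAt
    exact ContinuousAt.comp (f := PP f) h1 hP
  unfold second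
  refine ContinuousAt.div ?_ ?_ (Real.sqrt_pos.2 hpos).ne'
  · refine ContinuousAt.add (d0a_pd (d0a_pd hf j) i).continuousAt ?_
    refine tendsto_finset_sum _ fun c _ => tendsto_finset_sum _ fun a _ => tendsto_finset_sum _ fun b _ => ?_
    exact (((hchr c a b).mul (hcon c)).mul (htan i a)).mul (htan j b)
  · refine Real.continuous_sqrt.continuousAt.comp (ContinuousAt.neg ?_)
    refine tendsto_finset_sum _ fun a _ => tendsto_finset_sum _ fun b _ => ?_
    exact ((hinv a b).mul (hcon a)).mul (hcon b)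

end H17B
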