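import Pool.Agent.Lib.H17B.B2
import Pool.Agent.Lib.H17B.B7B
import Pool.Agent.Lib.H17B.B8B
import Pool.Agent.Lib.H17B.D0A

set_option autoImplicit false

/-!
# H17B, chunk C1 (M): the data in the coordinates `y`

`γ = lor β ≥ 1`. `boost` is defined entrywise; `comp_stretch` composes estimates with `stretch γ`. `γ² (1 - β²) = 1` gives
`sc i sc j (dl i j - β² dz i dz j) = dl i j`. `pd l (boost g · i j) y = sc i sc j sc l (pd l g_ij)(stretch y)` (`pd_stretch`; the slice metric is
differentiable for `‖x‖ ≥ R`: `slice_split`, `hB.F_smooth`, ...), and `pd l (pd i f)(stretch y) sc l sc i = pd l (pd i τ) y`, `τ = f ∘ stretch γ`.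
-/

open MeasureTheory Filter Topology Set Asymptotics
open scoped ContDiff

namespace H17B

open H17T
open Pool.Agent.Lib.PenroseSph (E3 Tens S2 sm pd trg fluxDensity momDensity admFlux admMom DefFun meanCurv trLevel)

/-- leading part of the derivative of the metric -/
noncomputable def dg (m β : ℝ) (f : E3 → ℝ) (l i j : Fin 3) (x : E3) : ℝ :=
  -(2 * m / ‖x‖ ^ 2 * (x l / ‖x‖) * (dl i j + β ^ 2 * dz i * dz j)
    + β * (pd l (pd i f) x * dz j + pd l (pd j f) x * dz i))

theorem c1_boost (β : ℝ) (g : Tens) (y : E3) (i j : Fin 3) :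
    boost β g y i j = sc (lor β) i * sc (lor β) j * g (stretch (lor β) y) i j := rfl

theorem c1_dl {γ β : ℝ} (h : γ ^ 2 * (1 - β ^ 2) = 1) (i j : Fin 3) :
    sc γ i * sc γ j * (dl i j - β ^ 2 * dz i * dz j) = dl i j := by
  fin_cases i <;> fin_cases j <;> (simp [sc, dl, dz]; try linear_combination h)

theorem c1_far (R : ℝ) : ∀ᶠ x in LL, R < ‖x‖ := by
  filter_upwards [eventually_cobounded_le_norm (R + 1)] with x hx
  linarith

theorem c1_pd_const_mul (c : ℝ) {φ : E3 → ℝ} (l : Fin 3) {y : E3} (h : DifferentiableAt ℝ φ y) :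
    pd l (fun z => c * φ z) y = c * pd l φ y := by
  unfold Pool.Agent.Lib.PenroseSph.pd
  rw [fderiv_const_mul h]
  rfl

theorem boost_val {F : E4 → ℝ} {k : ℝ → ℝ} {r : ℝ × ℝ → ℝ} {f : E3 → ℝ} {m β C R : ℝ}
    (hB : FarEnd F k r f m β C R) (i j : Fin 3) :
    (fun y => boost β (slice (stMetric F k r) f) y i j - dl i j) =O[LL] fun y => ‖y‖⁻¹ := by
  obtain ⟨hg1, hg2⟩ := lor_one_le hB.beta
  have h1 : (fun x => slice (stMetric F k r) f x i j - (dl i j - β ^ 2 * dz i * dz j))
      =O[LL] fun x => (‖x‖ ^ 1)⁻¹ := by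
    simpa only [pow_one] using slice_val hB i j
  have h2 := (comp_stretch hg1 1 h1).const_mul_left (sc (lor β) i * sc (lor β) j)
  simp only [pow_one] at h2
  refine h2.congr_left fun y => ?_
  rw [c1_boost, mul_sub, c1_dl hg2]

theorem boost_der {F : E4 → ℝ} {k : ℝ → ℝ} {r : ℝ × ℝ → ℝ} {f : E3 → ℝ} {m β C R : ℝ}
    (hB : FarEnd F k r f m β C R) (l i j : Fin 3) :
    (fun y => pd l (fun z => boost β (slice (stMetric F k r) f) z i j) y
      - sc (lor β) i * sc (lor β) j * sc (lor β) l * dg m β f l i j (stretch (lor β) y)) =O[LL] fun y => (‖y‖ ^ 3)⁻¹ := by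
  obtain ⟨hg1, hg2⟩ := lor_one_le hB.beta
  have h2 := (comp_stretch hg1 3 (slice_der hB l i j)).const_mul_left (sc (lor β) i * sc (lor β) j * sc (lor β) l)
  refine h2.congr' ?_ (Filter.EventuallyEq.refl _ _)
  filter_upwards [(stretch_tendsto hg1).eventually (c1_far R)] with y hy
  have hd : DifferentiableAt ℝ (fun z => slice (stMetric F k r) f z i j) (stretch (lor β) y) :=
    (slice_smooth_b hB hy i j).differentiableAt (by simp)
  have h3 : pd l (fun z => boost β (slice (stMetric F k r) f) z i j) y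
      = sc (lor β) i * sc (lor β) j * (sc (lor β) l * pd l (fun z => slice (stMetric F k r) f z i j) (stretch (lor β) y)) := by
    have h4 : (fun z => boost β (slice (stMetric F k r) f) z i j)
        = fun z => (sc (lor β) i * sc (lor β) j) * (fun w => (fun v => slice (stMetric F k r) f v i j) (stretch (lor β) w)) z := by
      funext z
      rw [c1_boost]
    have h5 : DifferentiableAt ℝ (fun w => (fun v => slice (stMetric F k r) f v i j) (stretch (lor β) w)) y :=
      DifferentiableAt.comp y hd ((stretch_smooth (lor β)).differentiable (by simp) y)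
    rw [h4, c1_pd_const_mul _ _ h5, pd_stretch hd]
  rw [h3, dg]
  ring

theorem boost_second {F : E4 → ℝ} {k : ℝ → ℝ} {r : ℝ × ℝ → ℝ} {f : E3 → ℝ} {m β C R : ℝ}
    (hB : FarEnd F k r f m β C R) (i j : Fin 3) :
    (fun y => boost β (second (stMetric F k r) f) y i j - lor β * (sc (lor β) i * sc (lor β) j *
      (pd i (pd j f) (stretch (lor β) y) + kh m β i j (stretch (lor β) y)))) =O[LL] (fun y => (‖y‖ ^ 3)⁻¹) ∧
    (fun y => boost β (second (stMetric F k r) f) y i j) =O[LL] fun y => (‖y‖ ^ 2)⁻¹ := by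
  obtain ⟨hg1, hg2⟩ := lor_one_le hB.beta
  constructor
  · have h2 := (comp_stretch hg1 3 (second_exp hB i j)).const_mul_left (sc (lor β) i * sc (lor β) j)
    refine h2.congr_left fun y => ?_
    rw [c1_boost]
    ring
  · have h2 := (comp_stretch hg1 2 (second_bigO hB i j)).const_mul_left (sc (lor β) i * sc (lor β) j)
    refine h2.congr_left fun y => ?_
    rw [c1_boost]

end H17B
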