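import Pool.Agent.Lib.H17B.B1

set_option autoImplicit false

/-!
# H17B, chunk C2A (M, pure algebra): the leading part of the energy flux density

`x = stretch γ y`, `x_i = sc i y_i`, `t = ‖y‖`, `ρ = ‖x‖`, `ρ² = t² + (γ² - 1) y_0²`, `t² = Σ y_i²`, `γ² (1 - β²) = 1`, `H` symmetric
(`H i j = f_ij(x)`). Terms with `2m/ρ²`: `(2m/(ρ³ t)) [Σ_i sc_i² y_i² (Σ_j sc_j² - sc_i²) + β² γ² (y_1² + y_2²)] = (2m/(ρ³ t)) 2 γ² t²`
(using `β² γ² = γ² - 1`). Terms with `H`: `-Σ_ij sc_i sc_j² β (H j i dz j + H j j dz i - 2 H i j dz j) y_i/t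
= (γ β/t) Σ_j (sc_j sc_0 H 0 j y_j - sc_j² H j j y_0)`. Expand the sums with `Fin.sum_univ_three`, `simp [sc, dz, dl]`, `field_simp`, and
`linear_combination`.
-/

open MeasureTheory Filter Topology Set Asymptotics
open scoped ContDiff

namespace H17B

open H17T
open Pool.Agent.Lib.PenroseSph (E3 Tens S2 sm pd trg fluxDensity momDensity admFlux admMom DefFun meanCurv trLevel)

theorem flux_alg {γ β m t ρ : ℝ} (ht : 0 < t) (hρ : 0 < ρ) (y : Fin 3 → ℝ) (H : Fin 3 → Fin 3 → ℝ)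
    (hH : ∀ i j, H i j = H j i) (hγ : γ ^ 2 * (1 - β ^ 2) = 1) (h1 : t ^ 2 = y 0 ^ 2 + y 1 ^ 2 + y 2 ^ 2) :
    ∑ i, ∑ j, (sc γ i * sc γ j * sc γ j *
        -(2 * m / ρ ^ 2 * (sc γ j * y j / ρ) * (dl i j + β ^ 2 * dz i * dz j) + β * (H j i * dz j + H j j * dz i))
      - sc γ j * sc γ j * sc γ i *
        -(2 * m / ρ ^ 2 * (sc γ i * y i / ρ) * (dl j j + β ^ 2 * dz j * dz j) + β * (H i j * dz j + H i j * dz j)))
      * (y i / t)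
      = 4 * m * γ ^ 2 * t / ρ ^ 3
        + γ * β / t * ∑ j, (y j * (sc γ 0 * sc γ j * H 0 j) - y 0 * (sc γ j * sc γ j * H j j)) := by
  have e1 : H 1 0 = H 0 1 := hH 1 0
  have e2 : H 2 0 = H 0 2 := hH 2 0
  have e3 : H 2 1 = H 1 2 := hH 2 1
  have ht0 : t ≠ 0 := ht.ne'
  have hρ0 : ρ ≠ 0 := hρ.ne'
  have hb : β ^ 2 * γ ^ 2 = γ ^ 2 - 1 := by linear_combination -hγ
  have hm : 4 * m * γ ^ 2 * t / ρ ^ 3 = 4 * m * γ ^ 2 * t ^ 2 / (ρ ^ 3 * t) := by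
    field_simp
  rw [hm, h1]
  simp only [Fin.sum_univ_three, sc, dz, dl, e1, e2, e3]
  simp
  field_simp
  linear_combination (2 * m * (y 1 ^ 2 + y 2 ^ 2)) * hb

end H17B
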