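import Pool.Agent.Lib.H17B.C1
import Pool.Agent.Lib.H17B.C2A

set_option autoImplicit false

/-!
# H17B, chunk C2B (M): expansion of the energy flux density

`fluxDensity g' y = Σ_ij (pd j g'_ij y - pd i g'_jj y) y_i/‖y‖`; replace the derivatives by their leading parts (`boost_der`, error
`O(‖y‖⁻³)`, the factors `y_i/‖y‖` are bounded by one), apply `flux_alg` with `H i j = pd i (pd j f) (stretch y)` (symmetric, as `f` is smooth
at `stretch y`, `‖stretch y‖ ≥ R`: symmetry of second derivatives; the estimates are needed for large `‖y‖` only), `ρ = ‖stretch y‖`, `stretch_apply`, `stretch_norm_sq`; and `pd2_stretch` to write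
`sc i sc j pd i (pd j f)(stretch y) = pd i (pd j τ) y`, `τ = fun z => f (stretch γ z)`.
-/

open MeasureTheory Filter Topology Set Asymptotics
open scoped ContDiff

namespace H17B

open H17T
open Pool.Agent.Lib.PenroseSph (E3 Tens S2 sm pd trg fluxDensity momDensity admFlux admMom DefFun meanCurv trLevel)

theorem c2b_symm {f : E3 → ℝ} {x : E3} (hf : ContDiffAt ℝ ∞ f x) (i j : Fin 3) :
    pd i (pd j f) x = pd j (pd i f) x := by
  have hs : IsSymmSndFDerivAt ℝ f x := hf.isSymmSndFDerivAt (by simp; norm_cast)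
  have hd : DifferentiableAt ℝ (fderiv ℝ f) x :=
    (hf.fderiv_right (m := ∞) (by simp)).differentiableAt (by simp)
  have key : ∀ a b : Fin 3, pd a (pd b f) x
      = fderiv ℝ (fderiv ℝ f) x (EuclideanSpace.single a 1) (EuclideanSpace.single b 1) := by
    intro a b
    unfold pd
    rw [fderiv_clm_apply hd (differentiableAt_const _)]
    simp
  rw [key, key, hs]

/-- the factors `y_i/‖y‖` are bounded -/
theorem c2b_unit (i : Fin 3) : (fun y : E3 => y i / ‖y‖) =O[LL] fun _ => (1 : ℝ) := by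
  refine IsBigO.of_bound 1 (Filter.Eventually.of_forall fun y => ?_)
  rw [norm_div, norm_norm, norm_one, mul_one]
  exact div_le_one_of_le₀ (PiLp.norm_apply_le y i) (norm_nonneg _)

theorem c2b_far (R : ℝ) {γ : ℝ} (h : 1 ≤ γ) : ∀ᶠ y : E3 in LL, 0 < ‖y‖ ∧ R ≤ ‖stretch γ y‖ := by
  have h1 : ∀ᶠ y : E3 in LL, 1 ≤ ‖y‖ := tendsto_norm_cobounded_atTop.eventually_ge_atTop 1
  have h2 : ∀ᶠ y : E3 in LL, R ≤ ‖y‖ := tendsto_norm_cobounded_atTop.eventually_ge_atTop R
  filter_upwards [h1, h2] with y hy hy2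
  exact ⟨by linarith, hy2.trans (stretch_le h y).1⟩

theorem flux_exp_b {F : E4 → ℝ} {k : ℝ → ℝ} {r : ℝ × ℝ → ℝ} {f : E3 → ℝ} {m β C R : ℝ}
    (hB : FarEnd F k r f m β C R) :
    (fun y => fluxDensity (boost β (slice (stMetric F k r) f)) y
      - (4 * m * lor β ^ 2 * ‖y‖ / ‖stretch (lor β) y‖ ^ 3
        + lor β * β / ‖y‖ * ∑ j, (y j * pd 0 (pd j fun z => f (stretch (lor β) z)) y
          - y 0 * pd j (pd j fun z => f (stretch (lor β) z)) y))) =O[LL] fun y => (‖y‖ ^ 3)⁻¹ := by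
  obtain ⟨hγ1, hγ⟩ := lor_one_le hB.beta
  set γ := lor β with hγdef
  set g' := boost β (slice (stMetric F k r) f) with hg'
  have herr : ∀ l i j : Fin 3, (fun y => (pd l (fun z => g' z i j) y
      - sc γ i * sc γ j * sc γ l * dg m β f l i j (stretch γ y))) =O[LL] fun y => (‖y‖ ^ 3)⁻¹ :=
    fun l i j => boost_der hB l i j
  have hsum : (fun y => ∑ i : Fin 3, ∑ j : Fin 3,
      ((pd j (fun z => g' z i j) y - sc γ i * sc γ j * sc γ j * dg m β f j i j (stretch γ y))
        - (pd i (fun z => g' z j j) y - sc γ j * sc γ j * sc γ i * dg m β f i j j (stretch γ y))) * (y i / ‖y‖))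
      =O[LL] fun y => (‖y‖ ^ 3)⁻¹ := by
    have hh : ∀ i j : Fin 3, (fun y : E3 =>
      ((pd j (fun z => g' z i j) y - sc γ i * sc γ j * sc γ j * dg m β f j i j (stretch γ y))
        - (pd i (fun z => g' z j j) y - sc γ j * sc γ j * sc γ i * dg m β f i j j (stretch γ y))) * (y i / ‖y‖))
      =O[LL] fun y : E3 => (‖y‖ ^ 3)⁻¹ := by
      intro i j
      have h1 := ((herr j i j).sub (herr i j j)).mul (c2b_unit i)
      simpa using h1
    exact IsBigO.fun_sum (fun (i : Fin 3) _ => IsBigO.fun_sum (fun (j : Fin 3) _ => hh i j))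
  refine hsum.congr' ?_ EventuallyEq.rfl
  filter_upwards [c2b_far R hγ1] with y hy
  obtain ⟨hy0, hyR⟩ := hy
  have hfs : ContDiffAt ℝ ∞ f (stretch γ y) := hB.f_smooth _ hyR
  have hρ : 0 < ‖stretch γ y‖ := lt_of_lt_of_le hB.R_pos hyR
  have hsq : ‖y‖ ^ 2 = y 0 ^ 2 + y 1 ^ 2 + y 2 ^ 2 := by
    rw [EuclideanSpace.norm_sq_eq, Fin.sum_univ_three]
    simp only [Real.norm_eq_abs, sq_abs]
  have halg := flux_alg (γ := γ) (β := β) (m := m) hy0 hρ (fun i => y i)
    (fun i j => pd i (pd j f) (stretch γ y)) (fun i j => c2b_symm hfs i j) hγ hsq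
  have hp : ∀ i j : Fin 3, pd i (pd j fun z => f (stretch γ z)) y
      = sc γ i * sc γ j * pd i (pd j f) (stretch γ y) := fun i j =>
    pd2_stretch (hfs.of_le (by norm_cast)) i j
  have hlead : ∑ i : Fin 3, ∑ j : Fin 3,
      (sc γ i * sc γ j * sc γ j * dg m β f j i j (stretch γ y)
        - sc γ j * sc γ j * sc γ i * dg m β f i j j (stretch γ y)) * (y i / ‖y‖)
      = 4 * m * γ ^ 2 * ‖y‖ / ‖stretch γ y‖ ^ 3
        + γ * β / ‖y‖ * ∑ j, (y j * pd 0 (pd j fun z => f (stretch γ z)) y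
          - y 0 * pd j (pd j fun z => f (stretch γ z)) y) := by
    simp only [hp]
    rw [← halg]
    simp only [dg, stretch_apply]
  rw [← hlead]
  unfold fluxDensity
  rw [← Finset.sum_sub_distrib]
  refine Finset.sum_congr rfl fun i _ => ?_
  rw [← Finset.sum_sub_distrib]
  refine Finset.sum_congr rfl fun j _ => ?_
  ring

end H17B
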