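import Pool.Agent.Lib.H17B.B1

set_option autoImplicit false

/-!
# H17B, chunk C3A (M, pure algebra): the leading part of the momentum density

Notation as in C2A, `K i j = (m/ρ²) (2β (w_i dz j + w_j dz i) - β w_0 (dl i j + β² dz i dz j))`, `w_i = sc i y_i/ρ`. Trace:
`Σ_l sc_l² K l l = (mβ w_0/ρ²)(2γ² - 1)` (using `β² γ² = γ² - 1`). `i = 0`: `γ Σ_j sc_0 sc_j K 0 j y_j/t - γ (trace) y_0/t
= 2 γ² β m t/ρ³`. `i ≠ 0`: `-2 γ² (γ² - 1) β m y_0 y_i/(ρ³ t)`. The `H` terms: `γ Σ_j (sc_i sc_j H i j y_j - sc_j² H j j y_i)/t`.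
-/

open MeasureTheory Filter Topology Set Asymptotics
open scoped ContDiff

namespace H17B

open H17T
open Pool.Agent.Lib.PenroseSph (E3 Tens S2 sm pd trg fluxDensity momDensity admFlux admMom DefFun meanCurv trLevel)

theorem mom_alg {γ β m t ρ : ℝ} (ht : 0 < t) (hρ : 0 < ρ) (y : Fin 3 → ℝ) (H : Fin 3 → Fin 3 → ℝ)
    (hγ : γ ^ 2 * (1 - β ^ 2) = 1) (h1 : t ^ 2 = y 0 ^ 2 + y 1 ^ 2 + y 2 ^ 2)
    (h2 : ρ ^ 2 = t ^ 2 + (γ ^ 2 - 1) * y 0 ^ 2) (B : Fin 3 → Fin 3 → ℝ)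
    (hB : ∀ i j, B i j = γ * (sc γ i * sc γ j * (H i j + m / ρ ^ 2 *
      (2 * β * (sc γ i * y i / ρ * dz j + sc γ j * y j / ρ * dz i)
        - β * (sc γ 0 * y 0 / ρ) * (dl i j + β ^ 2 * dz i * dz j))))) (i : Fin 3) :
    ∑ j, (B i j - (∑ l, B l l) * dl i j) * (y j / t)
      = γ / t * ∑ j, (y j * (sc γ i * sc γ j * H i j) - y i * (sc γ j * sc γ j * H j j))
        + (if i = 0 then 2 * γ ^ 2 * β * m * t / ρ ^ 3
          else -(2 * γ ^ 2 * (γ ^ 2 - 1) * β * m * (y 0 * y i) / (ρ ^ 3 * t))) := by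
  have ht0 : t ≠ 0 := ht.ne'
  have hρ0 : ρ ≠ 0 := hρ.ne'
  have hb : β ^ 2 * γ ^ 2 = γ ^ 2 - 1 := by linear_combination -hγ
  have hm : 2 * γ ^ 2 * β * m * t / ρ ^ 3 = 2 * γ ^ 2 * β * m * t ^ 2 / (ρ ^ 3 * t) := by
    field_simp
  rw [hm, h1]
  simp only [hB]
  fin_cases i
  · simp [Fin.sum_univ_three, sc, dz, dl]
    field_simp
    ring
  · simp [Fin.sum_univ_three, sc, dz, dl]
    field_simp
    linear_combination (γ ^ 2 * m * β * y 0 * y 1) * hb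
  · simp [Fin.sum_univ_three, sc, dz, dl]
    field_simp
    linear_combination (γ ^ 2 * m * β * y 0 * y 2) * hb

end H17B
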