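import Pool.Agent.Lib.H17B.C1
import Pool.Agent.Lib.H17B.B0

set_option autoImplicit false

/-!
# H17B, chunk C3B (M): the trace and the momentum density

`g' = dl + O(1/ρ)`, so `g'⁻¹ = dl + O(1/ρ)` (`inv_bigO`, `A0 = 1`), `h' = O(ρ⁻²)`: `trg g' h' = Σ_ij g'⁻¹_ij h'_ij = Σ_l h'_ll + O(ρ⁻³)`,
`(trg g' h') g'_ij = (Σ_l h'_ll) dl i j + O(ρ⁻³)`; then insert the leading parts of `h'` (`boost_second`).
-/

open MeasureTheory Filter Topology Set Asymptotics
open scoped ContDiff

namespace H17B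

open H17T
open Pool.Agent.Lib.PenroseSph (E3 Tens S2 sm pd trg fluxDensity momDensity admFlux admMom DefFun meanCurv trLevel)

theorem c3b_one (i j : Fin 3) : (1 : Matrix (Fin 3) (Fin 3) ℝ) i j = dl i j := by
  rw [Matrix.one_apply]
  rfl

theorem c3b_mul12 {u v : E3 → ℝ} (hu : u =O[LL] fun y => ‖y‖⁻¹) (hv : v =O[LL] fun y => (‖y‖ ^ 2)⁻¹) :
    (fun y => u y * v y) =O[LL] fun y => (‖y‖ ^ 3)⁻¹ := by
  refine (hu.mul hv).congr_right fun y => ?_
  rw [← mul_inv, ← pow_succ']

theorem c3b_trace (h : Matrix (Fin 3) (Fin 3) ℝ) : ∑ l, h l l = ∑ a, ∑ b, dl a b * h a b := by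
  refine Finset.sum_congr rfl fun a _ => ?_
  rw [Finset.sum_eq_single a]
  · simp [dl]
  · intro b _ hb
    have : ¬ a = b := fun h => hb h.symm
    simp [dl, this]
  · simp

theorem c3b_inv_one : (fun y : E3 => ‖y‖⁻¹) =O[LL] fun _ => (1 : ℝ) := by
  refine Asymptotics.IsBigO.of_bound 1 ?_
  filter_upwards [eventually_cobounded_le_norm (1 : ℝ)] with y hy
  rw [norm_inv, norm_norm, norm_one, mul_one]
  exact inv_le_one_of_one_le₀ hy

theorem c3b_dir (j : Fin 3) : (fun y : E3 => y j / ‖y‖) =O[LL] fun _ => (1 : ℝ) := by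
  refine Asymptotics.IsBigO.of_bound 1 ?_
  filter_upwards with y
  rw [norm_div, norm_norm, norm_one, mul_one]
  exact div_le_one_of_le₀ (PiLp.norm_apply_le y j) (norm_nonneg _)

theorem mom_trace {F : E4 → ℝ} {k : ℝ → ℝ} {r : ℝ × ℝ → ℝ} {f : E3 → ℝ} {m β C R : ℝ}
    (hB : FarEnd F k r f m β C R) (i : Fin 3) :
    (fun y => momDensity (boost β (slice (stMetric F k r) f)) (boost β (second (stMetric F k r) f)) i y
      - ∑ j, (boost β (second (stMetric F k r) f) y i j
        - (∑ l, boost β (second (stMetric F k r) f) y l l) * dl i j) * (y j / ‖y‖)) =O[LL] fun y => (‖y‖ ^ 3)⁻¹ := by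
  set g : Tens := boost β (slice (stMetric F k r) f) with hg
  set h : Tens := boost β (second (stMetric F k r) f) with hh
  have hgv : ∀ a b, (fun y => g y a b - dl a b) =O[LL] fun y => ‖y‖⁻¹ := fun a b => boost_val hB a b
  have hhv : ∀ a b, (fun y => h y a b) =O[LL] fun y => (‖y‖ ^ 2)⁻¹ := fun a b => (boost_second hB a b).2
  have hgi : ∀ a b, (fun y => (g y)⁻¹ a b - dl a b) =O[LL] fun y => ‖y‖⁻¹ := by
    intro a b
    have h1 := inv_bigO (A := g) (A0 := 1) (by simp) (fun i j => by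
      have h2 := hgv i j
      simpa only [c3b_one] using h2) a b
    simpa only [inv_one, c3b_one] using h1
  have hT0 : (fun y => ∑ l, h y l l) =O[LL] fun y => (‖y‖ ^ 2)⁻¹ :=
    Asymptotics.IsBigO.fun_sum fun l _ => hhv l l
  have hT : (fun y => trg g h y - ∑ l, h y l l) =O[LL] fun y => (‖y‖ ^ 3)⁻¹ := by
    have h1 : (fun y => ∑ a, ∑ b, ((g y)⁻¹ a b - dl a b) * h y a b) =O[LL] fun y => (‖y‖ ^ 3)⁻¹ :=
      Asymptotics.IsBigO.fun_sum fun a _ => Asymptotics.IsBigO.fun_sum fun b _ => c3b_mul12 (hgi a b) (hhv a b)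
    refine h1.congr_left fun y => ?_
    unfold trg
    rw [c3b_trace (h y), ← Finset.sum_sub_distrib]
    refine Finset.sum_congr rfl fun a _ => ?_
    rw [← Finset.sum_sub_distrib]
    refine Finset.sum_congr rfl fun b _ => ?_
    ring
  have hmain : ∀ j, (fun y => -((trg g h y - ∑ l, h y l l) * g y i j + (∑ l, h y l l) * (g y i j - dl i j)) * (y j / ‖y‖))
      =O[LL] fun y => (‖y‖ ^ 3)⁻¹ := by
    intro j
    have hgb : (fun y => g y i j) =O[LL] fun _ => (1 : ℝ) := by
      have h1 : (fun y => g y i j - dl i j) =O[LL] fun _ => (1 : ℝ) := (hgv i j).trans c3b_inv_one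
      have h2 : (fun _ : E3 => dl i j) =O[LL] fun _ => (1 : ℝ) := Asymptotics.isBigO_const_const _ one_ne_zero _
      refine (h1.add h2).congr_left fun y => ?_
      ring
    have h1 : (fun y => (trg g h y - ∑ l, h y l l) * g y i j) =O[LL] fun y => (‖y‖ ^ 3)⁻¹ := by
      have h2 := hT.mul hgb
      simpa only [mul_one] using h2
    have h2 : (fun y => (∑ l, h y l l) * (g y i j - dl i j)) =O[LL] fun y => (‖y‖ ^ 3)⁻¹ := by
      have h3 := c3b_mul12 (hgv i j) hT0
      refine h3.congr_left fun y => ?_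
      ring
    have h3 := (h1.add h2).neg_left.mul (c3b_dir j)
    simpa only [mul_one] using h3
  have hall := Asymptotics.IsBigO.fun_sum (s := Finset.univ) fun j _ => hmain j
  refine hall.congr_left fun y => ?_
  unfold momDensity
  rw [← Finset.sum_sub_distrib]
  refine Finset.sum_congr rfl fun j _ => ?_
  ring

end H17B
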