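import Pool.Agent.Lib.H17B.C3A
import Pool.Agent.Lib.H17B.C3B

set_option autoImplicit false

/-!
# H17B, chunk C3C (M): expansion of the momentum density

`mom_trace`; replace `boost β second` by its leading part (`boost_second`), then `mom_alg` with `H i j = pd i (pd j f)(stretch y)`,
`ρ = ‖stretch y‖`, `t = ‖y‖`, `stretch_apply`, `stretch_norm_sq`, and `pd2_stretch`.
-/

open MeasureTheory Filter Topology Set Asymptotics
open scoped ContDiff

namespace H17B

open H17T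
open Pool.Agent.Lib.PenroseSph (E3 Tens S2 sm pd trg fluxDensity momDensity admFlux admMom DefFun meanCurv trLevel)

/-- the factors `y_i/‖y‖` are bounded -/
theorem c3c_unit (i : Fin 3) : (fun y : E3 => y i / ‖y‖) =O[LL] fun _ => (1 : ℝ) := by
  refine IsBigO.of_bound 1 (Filter.Eventually.of_forall fun y => ?_)
  rw [norm_div, norm_norm, norm_one, mul_one]
  exact div_le_one_of_le₀ (PiLp.norm_apply_le y i) (norm_nonneg _)

theorem c3c_far (R : ℝ) {γ : ℝ} (h : 1 ≤ γ) : ∀ᶠ y : E3 in LL, 0 < ‖y‖ ∧ R ≤ ‖stretch γ y‖ := by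
  have h1 : ∀ᶠ y : E3 in LL, 1 ≤ ‖y‖ := tendsto_norm_cobounded_atTop.eventually_ge_atTop 1
  have h2 : ∀ᶠ y : E3 in LL, R ≤ ‖y‖ := tendsto_norm_cobounded_atTop.eventually_ge_atTop R
  filter_upwards [h1, h2] with y hy hy2
  exact ⟨by linarith, hy2.trans (stretch_le h y).1⟩

theorem mom_exp {F : E4 → ℝ} {k : ℝ → ℝ} {r : ℝ × ℝ → ℝ} {f : E3 → ℝ} {m β C R : ℝ}
    (hB : FarEnd F k r f m β C R) (i : Fin 3) :
    (fun y => momDensity (boost β (slice (stMetric F k r) f)) (boost β (second (stMetric F k r) f)) i y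
      - ((if i = 0 then 2 * lor β ^ 2 * β * m * ‖y‖ / ‖stretch (lor β) y‖ ^ 3
          else -(2 * lor β ^ 2 * (lor β ^ 2 - 1) * β * m * (y 0 * y i) / (‖stretch (lor β) y‖ ^ 3 * ‖y‖)))
        + lor β / ‖y‖ * ∑ j, (y j * pd i (pd j fun z => f (stretch (lor β) z)) y
          - y i * pd j (pd j fun z => f (stretch (lor β) z)) y))) =O[LL] fun y => (‖y‖ ^ 3)⁻¹ := by
  obtain ⟨hγ1, hγ⟩ := lor_one_le hB.beta
  have htr := mom_trace hB i
  have hsec := fun a b => (boost_second hB a b).1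
  set γ := lor β with hγdef
  set B := boost β (second (stMetric F k r) f) with hBdef
  set L : E3 → Fin 3 → Fin 3 → ℝ := fun y a b => γ * (sc γ a * sc γ b *
      (pd a (pd b f) (stretch γ y) + kh m β a b (stretch γ y))) with hL
  have herr : ∀ a b : Fin 3, (fun y => B y a b - L y a b) =O[LL] fun y => (‖y‖ ^ 3)⁻¹ := hsec
  have htrace : (fun y => ∑ l, (B y l l - L y l l)) =O[LL] fun y => (‖y‖ ^ 3)⁻¹ :=
    IsBigO.fun_sum (fun (l : Fin 3) _ => herr l l)
  have hh : ∀ j : Fin 3, (fun y : E3 => ((B y i j - L y i j) - (∑ l, (B y l l - L y l l)) * dl i j) * (y j / ‖y‖))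
      =O[LL] fun y : E3 => (‖y‖ ^ 3)⁻¹ := by
    intro j
    have h0 : (fun y => (∑ l, (B y l l - L y l l)) * dl i j) =O[LL] fun y => (‖y‖ ^ 3)⁻¹ := by
      have h1 := htrace.const_mul_left (dl i j)
      refine h1.congr' (Filter.Eventually.of_forall fun y => ?_) EventuallyEq.rfl
      exact mul_comm _ _
    have h1 := ((herr i j).sub h0).mul (c3c_unit j)
    simpa using h1
  have hs : (fun y : E3 => ∑ j : Fin 3,
      ((B y i j - L y i j) - (∑ l, (B y l l - L y l l)) * dl i j) * (y j / ‖y‖)) =O[LL] fun y : E3 => (‖y‖ ^ 3)⁻¹ :=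
    IsBigO.fun_sum (fun (j : Fin 3) _ => hh j)
  refine (htr.add hs).congr' ?_ EventuallyEq.rfl
  filter_upwards [c3c_far R hγ1] with y hy
  obtain ⟨hy0, hyR⟩ := hy
  have hfs : ContDiffAt ℝ ∞ f (stretch γ y) := hB.f_smooth _ hyR
  have hρ : 0 < ‖stretch γ y‖ := lt_of_lt_of_le hB.R_pos hyR
  have hsq : ‖y‖ ^ 2 = y 0 ^ 2 + y 1 ^ 2 + y 2 ^ 2 := by
    rw [EuclideanSpace.norm_sq_eq, Fin.sum_univ_three]
    simp only [Real.norm_eq_abs, sq_abs]
  have halg := mom_alg (γ := γ) (β := β) (m := m) hy0 hρ (fun a => y a)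
    (fun a b => pd a (pd b f) (stretch γ y)) hγ hsq (stretch_norm_sq γ y) (fun a b => L y a b)
    (fun a b => by simp only [hL, kh, stretch_apply]) i
  have hp : ∀ a b : Fin 3, pd a (pd b fun z => f (stretch γ z)) y
      = sc γ a * sc γ b * pd a (pd b f) (stretch γ y) := fun a b =>
    pd2_stretch (hfs.of_le (by norm_cast)) a b
  have hlead : ∑ j, (L y i j - (∑ l, L y l l) * dl i j) * (y j / ‖y‖)
      = (if i = 0 then 2 * γ ^ 2 * β * m * ‖y‖ / ‖stretch γ y‖ ^ 3
          else -(2 * γ ^ 2 * (γ ^ 2 - 1) * β * m * (y 0 * y i) / (‖stretch γ y‖ ^ 3 * ‖y‖)))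
        + γ / ‖y‖ * ∑ j, (y j * pd i (pd j fun z => f (stretch γ z)) y
          - y i * pd j (pd j fun z => f (stretch γ z)) y) := by
    simp only [hp]
    rw [halg, add_comm]
  rw [← hlead]
  have hfin : ∑ j : Fin 3, ((B y i j - L y i j) - (∑ l, (B y l l - L y l l)) * dl i j) * (y j / ‖y‖)
      = ∑ j : Fin 3, (B y i j - (∑ l, B y l l) * dl i j) * (y j / ‖y‖)
        - ∑ j : Fin 3, (L y i j - (∑ l, L y l l) * dl i j) * (y j / ‖y‖) := by
    rw [← Finset.sum_sub_distrib]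
    refine Finset.sum_congr rfl fun j _ => ?_
    rw [Finset.sum_sub_distrib]
    ring
  simp only [hfin]
  ring

end H17B
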