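import Pool.Agent.Lib.H17B.D0A
import Pool.Agent.Lib.H17B.C1
import Pool.Agent.Lib.H17B.B7A

set_option autoImplicit false

/-!
# H17B, chunk D0 (M): continuity of the densities near infinity

For large `‖y‖`, `x = stretch y`: `-Σ G⁻¹ N N > 0` at `x` (`conorm_len`: it tends to `1 - β² > 0`), so `second_cont_b` and `slice_smooth_b` apply in a neighbourhood;
`g' = boost β (slice ..)` tends to the identity matrix (`boost_val`), so its determinant is positive for large `‖y‖` and its inverse is continuous; the first
derivatives of the entries of `g'` are continuous (`ContDiffAt`). The norm is continuous and nonzero.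
-/

open MeasureTheory Filter Topology Set Asymptotics
open scoped ContDiff

namespace H17B

open H17T
open Pool.Agent.Lib.PenroseSph (E3 Tens S2 sm pd trg fluxDensity momDensity admFlux admMom DefFun meanCurv trLevel)

theorem d0_co {y : E3} (hy : y ≠ 0) (i : Fin 3) : ContinuousAt (fun z : E3 => z i / ‖z‖) y := by
  have h1 : Continuous fun z : E3 => z i := (EuclideanSpace.proj (𝕜 := ℝ) i).continuous
  exact h1.continuousAt.div continuous_norm.continuousAt (norm_ne_zero_iff.2 hy)

theorem dens_cont_b {F : E4 → ℝ} {k : ℝ → ℝ} {r : ℝ × ℝ → ℝ} {f : E3 → ℝ} {m β C R : ℝ}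
    (hB : FarEnd F k r f m β C R) :
    ∃ R' : ℝ, 0 < R' ∧ ∀ y : E3, R' < ‖y‖ → ContinuousAt (fluxDensity (boost β (slice (stMetric F k r) f))) y ∧
      ∀ i, ContinuousAt (momDensity (boost β (slice (stMetric F k r) f)) (boost β (second (stMetric F k r) f)) i) y := by
  obtain ⟨hγ, hγ2⟩ := lor_one_le hB.beta
  have htend : Tendsto (fun x : E3 => ‖x‖⁻¹) LL (𝓝 0) := tendsto_inv_atTop_zero.comp tendsto_norm_cobounded_atTop
  have hG : ∀ i j, Tendsto (fun y => boost β (slice (stMetric F k r) f) y i j) LL (𝓝 (dl i j)) := by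
    intro i j
    have h := ((boost_val hB i j).trans_tendsto htend).add_const (dl i j)
    rw [zero_add] at h
    refine h.congr fun y => ?_
    rw [sub_add_cancel]
  have hdet : ∀ᶠ y in LL, (boost β (slice (stMetric F k r) f) y).det ≠ 0 := by
    have h1 : Tendsto (fun y => boost β (slice (stMetric F k r) f) y) LL (𝓝 (1 : Matrix (Fin 3) (Fin 3) ℝ)) := by
      refine tendsto_pi_nhds.2 fun i => tendsto_pi_nhds.2 fun j => ?_
      have e : (1 : Matrix (Fin 3) (Fin 3) ℝ) i j = dl i j := by
        rw [Matrix.one_apply]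
        rfl
      rw [e]
      exact hG i j
    have h2 : Tendsto (fun y => (boost β (slice (stMetric F k r) f) y).det) LL (𝓝 1) := by
      have h3 := (continuous_id.matrix_det (A := fun M : Matrix (Fin 3) (Fin 3) ℝ => M)).tendsto (1 : Matrix (Fin 3) (Fin 3) ℝ)
      rw [Matrix.det_one] at h3
      exact h3.comp h1
    exact h2.eventually_ne one_ne_zero
  have hpos : ∀ᶠ y in LL, 0 < -∑ a, ∑ b, (stMetric F k r (pt (f (stretch (lor β) y)) (stretch (lor β) y)))⁻¹ a b *
      conorm f (stretch (lor β) y) a * conorm f (stretch (lor β) y) b := by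
    have h := ((conorm_len hB).trans_tendsto htend).add_const (1 - β ^ 2)
    rw [zero_add] at h
    have h1 : 0 < 1 - β ^ 2 := by
      by_contra h2
      push Not at h2
      have : lor β ^ 2 * (1 - β ^ 2) ≤ 0 := mul_nonpos_of_nonneg_of_nonpos (sq_nonneg _) h2
      linarith
    have h3 : ∀ᶠ x in LL, 0 < -∑ a, ∑ b, (stMetric F k r (pt (f x) x))⁻¹ a b * conorm f x a * conorm f x b := by
      filter_upwards [h.eventually_const_lt h1] with x hx
      rwa [sub_add_cancel] at hx
    exact (stretch_tendsto hγ).eventually h3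
  obtain ⟨R1, -, hR1⟩ := (Filter.hasBasis_cobounded_norm (E := E3)).eventually_iff.1 (hdet.and hpos)
  refine ⟨max R R1, hB.R_pos.trans_le (le_max_left _ _), fun y hy => ?_⟩
  have hyR : R < ‖y‖ := (le_max_left _ _).trans_lt hy
  obtain ⟨hd, hp⟩ := hR1 ((le_max_right R R1).trans hy.le)
  have hy0 : y ≠ 0 := norm_pos_iff.1 (hB.R_pos.trans hyR)
  have hsR : R < ‖stretch (lor β) y‖ := hyR.trans_le (stretch_le hγ y).1
  have hg : ∀ i j, ContDiffAt ℝ ∞ (fun z => boost β (slice (stMetric F k r) f) z i j) y := by
    intro i j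
    have h1 := ContDiffAt.comp (f := stretch (lor β)) (g := fun x => slice (stMetric F k r) f x i j) y
      (slice_smooth_b hB hsR i j) (stretch_smooth _).contDiffAt
    exact (contDiffAt_const (c := sc (lor β) i * sc (lor β) j)).mul h1
  have hh : ∀ i j, ContinuousAt (fun z => boost β (second (stMetric F k r) f) z i j) y := by
    intro i j
    have h1 := ContinuousAt.comp (f := stretch (lor β)) (g := fun x => second (stMetric F k r) f x i j) (x := y)
      (second_cont_b hB hsR hp i j) (stretch_smooth _).continuous.continuousAt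
    exact (continuousAt_const (y := sc (lor β) i * sc (lor β) j)).mul h1
  refine ⟨?_, fun i => ?_⟩
  · unfold fluxDensity
    refine tendsto_finset_sum _ fun i _ => tendsto_finset_sum _ fun j _ => ?_
    exact ((d0a_pd (hg i j) j).continuousAt.sub (d0a_pd (hg j j) i).continuousAt).mul (d0_co hy0 i)
  · unfold momDensity trg
    refine tendsto_finset_sum _ fun j _ => ?_
    refine ContinuousAt.mul ((hh i j).sub (ContinuousAt.mul ?_ (hg i j).continuousAt)) (d0_co hy0 j)
    refine tendsto_finset_sum _ fun a _ => tendsto_finset_sum _ fun b _ => ?_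
    exact (d0a_inv (G := boost β (slice (stMetric F k r) f)) (fun a b => (hg a b).continuousAt) hd a b).mul (hh a b)

end H17B
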