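import Pool.Agent.Lib.H17B.B1

set_option autoImplicit false

/-!
# H17B, chunk D1 (M, pure): `∫_{S²} ‖(γ n_0, n_1, n_2)‖⁻³ = 4π/γ`

Polar coordinates in `E3` (`MeasureTheory.Measure.measurePreserving_homeomorphUnitSphereProd`, or
`MeasureTheory.integral_fun_norm_addHaar` as a model): for `Φ(y) = exp(-‖stretch y‖²)`, `∫_{E3} Φ = ∫_{S²} ∫_0^∞ exp(-s² ‖stretch n‖²) s² ds dn
= ∫_{S²} ‖stretch n‖⁻³ dn · J`, `J = ∫_0^∞ exp(-s²) s² ds > 0` (substitution). On the other hand `stretch` is linear with determinant `γ`: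
`∫ Φ = γ⁻¹ ∫ exp(-‖x‖²) dx = γ⁻¹ · 4π J`. Instead of the Gaussian one may use the indicator function of the unit ball
(`vol {‖stretch y‖ < 1} = γ⁻¹ 4π/3`, `vol {y : ‖y‖ < ρ(y/‖y‖)} = (1/3) ∫ ρ³`; `Measure.addHaar_preimage_linearMap`).
-/

open MeasureTheory Filter Topology Set Asymptotics
open scoped ContDiff

namespace H17B

open H17T
open Pool.Agent.Lib.PenroseSph (E3 Tens S2 sm pd trg fluxDensity momDensity admFlux admMom DefFun meanCurv trLevel)

/-- the linear map -/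
noncomputable def d1_lin (γ : ℝ) : E3 →ₗ[ℝ] E3 :=
  Matrix.toLin (EuclideanSpace.basisFun (Fin 3) ℝ).toBasis (EuclideanSpace.basisFun (Fin 3) ℝ).toBasis
    (Matrix.diagonal (sc γ))

theorem d1_det (γ : ℝ) : LinearMap.det (d1_lin γ) = γ := by
  unfold d1_lin
  rw [LinearMap.det_toLin, Matrix.det_diagonal, Fin.prod_univ_three]
  simp [sc]

theorem d1_lin_apply (γ : ℝ) (y : E3) : d1_lin γ y = stretch γ y := by
  ext i
  rw [stretch_apply]
  unfold d1_lin
  have h1 : Matrix.toLin (EuclideanSpace.basisFun (Fin 3) ℝ).toBasis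
      (EuclideanSpace.basisFun (Fin 3) ℝ).toBasis (Matrix.diagonal (sc γ)) =
      Matrix.toEuclideanLin (Matrix.diagonal (sc γ)) :=
    (congrFun (congrArg DFunLike.coe Matrix.toEuclideanLin_eq_toLin_orthonormal) _).symm
  rw [h1]
  show (Matrix.mulVec (Matrix.diagonal (sc γ)) y.ofLp) i = _
  rw [Matrix.mulVec_diagonal]

theorem d1_vol {γ : ℝ} (h : 1 ≤ γ) :
    (volume : Measure E3) {y | ‖stretch γ y‖ < 1} = ENNReal.ofReal (γ⁻¹ * (Real.pi * 4 / 3)) := by
  have h0 : 0 < γ := by linarith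
  have h1 : {y : E3 | ‖stretch γ y‖ < 1} = d1_lin γ ⁻¹' Metric.ball 0 1 := by
    ext y
    rw [mem_preimage, d1_lin_apply, mem_ball_zero_iff]
    rfl
  rw [h1, Measure.addHaar_preimage_linearMap _ (by rw [d1_det]; exact h0.ne'), d1_det,
    abs_of_pos (inv_pos.mpr h0), EuclideanSpace.volume_ball_fin_three]
  rw [ENNReal.ofReal_mul (by positivity)]
  congr 1
  rw [← ENNReal.ofReal_pow (by norm_num), ← ENNReal.ofReal_mul (by norm_num)]
  congr 1
  ring

theorem d1_polar {γ : ℝ} (h : 1 ≤ γ) :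
    (volume : Measure E3) {y | ‖stretch γ y‖ < 1} =
      ∫⁻ n : S2, ENNReal.ofReal ((‖stretch γ (n : E3)‖ ^ 3)⁻¹ / 3) ∂sm := by
  have hcs : Continuous (stretch γ) := (stretch_smooth γ).continuous
  have hpos : ∀ n : S2, 0 < ‖stretch γ (n : E3)‖ := by
    intro n
    have h1 := (stretch_le h (n : E3)).1
    rw [Pool.Agent.Lib.PenroseSph.norm_S2] at h1
    linarith
  obtain ⟨A, hA⟩ : ∃ A : Set (S2 × Ioi (0 : ℝ)), A = {p | p.2.1 * ‖stretch γ (p.1 : E3)‖ < 1} :=
    ⟨_, rfl⟩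
  have hAo : IsOpen A := by
    rw [hA]
    apply isOpen_lt _ continuous_const
    exact (continuous_subtype_val.comp continuous_snd).mul
      (hcs.comp (continuous_subtype_val.comp continuous_fst)).norm
  have h1 := ((volume : Measure E3).measurePreserving_homeomorphUnitSphereProd).measure_preimage
    hAo.measurableSet.nullMeasurableSet
  have h2 : (homeomorphUnitSphereProd E3) ⁻¹' A = {y : ({0}ᶜ : Set E3) | ‖stretch γ (y : E3)‖ < 1} := by
    ext y
    rw [mem_preimage, hA]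
    show _ * _ < (1 : ℝ) ↔ ‖stretch γ (y : E3)‖ < 1
    have h3 : (y : E3) = ((homeomorphUnitSphereProd E3 y).2 : ℝ) •
        ((homeomorphUnitSphereProd E3 y).1 : E3) := by
      have := homeomorphUnitSphereProd_symm_apply_coe E3 (homeomorphUnitSphereProd E3 y)
      rw [Homeomorph.symm_apply_apply] at this
      exact this
    have h4 : ‖stretch γ (y : E3)‖ = ((homeomorphUnitSphereProd E3 y).2 : ℝ) *
        ‖stretch γ ((homeomorphUnitSphereProd E3 y).1 : E3)‖ := by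
      conv_lhs => rw [h3, stretch_smul, norm_smul]
      rw [Real.norm_of_nonneg (le_of_lt (homeomorphUnitSphereProd E3 y).2.2)]
    rw [h4]
  rw [h2, comap_subtype_coe_apply (measurableSet_singleton _).compl] at h1
  have h3 : (Subtype.val '' {y : ({0}ᶜ : Set E3) | ‖stretch γ (y : E3)‖ < 1} : Set E3) =
      {y : E3 | ‖stretch γ y‖ < 1} \ {0} := by
    ext y
    constructor
    · rintro ⟨z, hz, rfl⟩
      exact ⟨hz, z.2⟩
    · rintro ⟨hy, hy0⟩
      exact ⟨⟨y, hy0⟩, hy, rfl⟩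
  rw [h3, measure_diff_null (by simp)] at h1
  rw [h1, Measure.prod_apply hAo.measurableSet]
  apply lintegral_congr
  intro n
  have h4 : Prod.mk n ⁻¹' A = Iio (⟨‖stretch γ (n : E3)‖⁻¹, inv_pos.mpr (hpos n)⟩ : Ioi (0 : ℝ)) := by
    ext r
    rw [mem_preimage, hA, mem_Iio]
    show r.1 * ‖stretch γ (n : E3)‖ < 1 ↔ r.1 < ‖stretch γ (n : E3)‖⁻¹
    rw [← one_div, lt_div_iff₀ (hpos n)]
  rw [h4]
  have hdim : Module.finrank ℝ E3 - 1 = 2 := by
    rw [finrank_euclideanSpace_fin]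
  rw [hdim, Measure.volumeIoiPow_apply_Iio]
  congr 1
  push_cast
  rw [inv_pow]
  norm_num

theorem int_stretch {γ : ℝ} (h : 1 ≤ γ) : ∫ n : S2, (‖stretch γ (n : E3)‖ ^ 3)⁻¹ ∂sm = 4 * Real.pi / γ := by
  have h0 : 0 < γ := by linarith
  have hcs : Continuous (stretch γ) := (stretch_smooth γ).continuous
  have hpos : ∀ n : S2, 0 < ‖stretch γ (n : E3)‖ := by
    intro n
    have h1 := (stretch_le h (n : E3)).1
    rw [Pool.Agent.Lib.PenroseSph.norm_S2] at h1
    linarith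
  have hcont : Continuous fun n : S2 => (‖stretch γ (n : E3)‖ ^ 3)⁻¹ := by
    apply Continuous.inv₀ ((hcs.comp continuous_subtype_val).norm.pow 3)
    intro n
    exact (pow_pos (hpos n) 3).ne'
  have h1 := d1_vol h
  rw [d1_polar h, ← ofReal_integral_eq_lintegral_ofReal
    (Pool.Agent.Lib.PenroseSph.integrable_S2 (hcont.div_const 3))
    (Eventually.of_forall fun n => by
      have := hpos n
      show 0 ≤ (‖stretch γ (n : E3)‖ ^ 3)⁻¹ / 3
      positivity)] at h1
  have h2 : 0 ≤ ∫ n : S2, (‖stretch γ (n : E3)‖ ^ 3)⁻¹ / 3 ∂sm := by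
    apply integral_nonneg
    intro n
    have := hpos n
    show 0 ≤ (‖stretch γ (n : E3)‖ ^ 3)⁻¹ / 3
    positivity
  have h3 := (ENNReal.ofReal_eq_ofReal_iff h2 (by positivity)).mp h1
  rw [integral_div] at h3
  field_simp at h3 ⊢
  linarith

end H17B
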