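import Pool.Agent.Lib.H17B.Defs
import Pool.Agent.Lib.PenroseSph.SphRot

set_option autoImplicit false

/-!
# H17B, chunk D2 (M, pure): limits of sphere integrals

`D = M + Q + O(‖y‖⁻³)`, `M` homogeneous of degree `-2`, the integrals of `Q` over all large spheres vanish:
`∫ t² D(t n) = ∫ t² M(t n) + 0 + O(1/t) = ∫ M(n) + O(1/t)` (`t² M(t n) = M(n)`; total measure `4π`, continuous functions are integrable:
`Pool.Agent.Lib.PenroseSph.integrable_S2`, `PenroseSph.cont_ray`). From `IsBigO`: `∃ C R, ∀ ‖y‖ ≥ R, |..| ≤ C ‖y‖⁻³`.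
-/

open MeasureTheory Filter Topology Set Asymptotics
open scoped ContDiff

namespace H17B

open H17T
open Pool.Agent.Lib.PenroseSph (E3 Tens S2 sm pd trg fluxDensity momDensity admFlux admMom DefFun meanCurv trLevel)

theorem d2_cont {D : E3 → ℝ} {R t : ℝ} (ht0 : 0 < t) (hRt : R < t)
    (hD : ∀ y : E3, R < ‖y‖ → ContinuousAt D y) : Continuous fun n : S2 => D (t • (n : E3)) := by
  rw [continuous_iff_continuousAt]
  intro n
  have h1 : ContinuousAt (fun n : S2 => t • (n : E3)) n := by fun_prop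
  have h2 : ContinuousAt D (t • (n : E3)) := by
    apply hD
    rw [Pool.Agent.Lib.PenroseSph.norm_ray ht0]
    exact hRt
  exact ContinuousAt.comp (f := fun n : S2 => t • (n : E3)) h2 h1

theorem lim_avg {R : ℝ} {D M Q : E3 → ℝ} (hD : ∀ y : E3, R < ‖y‖ → ContinuousAt D y)
    (hM : ∀ y : E3, y ≠ 0 → ContinuousAt M y) (hQ : ∀ y : E3, R < ‖y‖ → ContinuousAt Q y)
    (hMh : ∀ t : ℝ, 0 < t → ∀ y : E3, y ≠ 0 → t ^ 2 * M (t • y) = M y)
    (hQ0 : ∀ t : ℝ, R < t → ∫ n : S2, Q (t • (n : E3)) ∂sm = 0)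
    (hO : (fun y => D y - (M y + Q y)) =O[LL] fun y => (‖y‖ ^ 3)⁻¹) :
    Tendsto (fun t : ℝ => ∫ n : S2, t ^ 2 * D (t • (n : E3)) ∂sm) atTop (𝓝 (∫ n : S2, M (n : E3) ∂sm)) := by
  obtain ⟨C, hC0, hC⟩ := hO.exists_pos
  have hC1 := hC.bound
  obtain ⟨R', _, hR'⟩ := (hasBasis_cobounded_norm.eventually_iff).mp hC1
  have hbound : ∀ t : ℝ, max (max (R + 1) R') 1 ≤ t →
      |(∫ n : S2, t ^ 2 * D (t • (n : E3)) ∂sm) - ∫ n : S2, M (n : E3) ∂sm| ≤
        4 * Real.pi * C / t := by
    intro t ht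
    have ht1 : 1 ≤ t := (le_max_right _ _).trans ht
    have ht2 : R' ≤ t := ((le_max_right _ _).trans (le_max_left _ _)).trans ht
    have ht3 : R + 1 ≤ t := ((le_max_left _ _).trans (le_max_left _ _)).trans ht
    have hRt : R < t := by linarith
    have ht0 : 0 < t := by linarith
    have cD := d2_cont ht0 hRt hD
    have cQ := d2_cont ht0 hRt hQ
    have cM : Continuous fun n : S2 => M (t • (n : E3)) := by
      apply d2_cont (R := 0) ht0 ht0
      intro y hy
      exact hM y (norm_pos_iff.mp hy)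
    have cM1 : Continuous fun n : S2 => M (n : E3) := by
      have h1 : (fun n : S2 => M (n : E3)) = fun n : S2 => t ^ 2 * M (t • (n : E3)) := by
        funext n
        rw [hMh t ht0]
        rw [← norm_pos_iff, Pool.Agent.Lib.PenroseSph.norm_S2]
        exact one_pos
      rw [h1]
      exact continuous_const.mul cM
    have e1 : ∀ n : S2, t ^ 2 * D (t • (n : E3)) =
        t ^ 2 * (D (t • (n : E3)) - (M (t • (n : E3)) + Q (t • (n : E3)))) + M (n : E3) +
          t ^ 2 * Q (t • (n : E3)) := by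
      intro n
      have h1 : t ^ 2 * M (t • (n : E3)) = M (n : E3) := by
        apply hMh t ht0
        rw [← norm_pos_iff, Pool.Agent.Lib.PenroseSph.norm_S2]
        exact one_pos
      rw [← h1]
      ring
    have cE : Continuous fun n : S2 =>
        t ^ 2 * (D (t • (n : E3)) - (M (t • (n : E3)) + Q (t • (n : E3)))) :=
      continuous_const.mul (cD.sub (cM.add cQ))
    have e2 : ∫ n : S2, t ^ 2 * D (t • (n : E3)) ∂sm =
        (∫ n : S2, t ^ 2 * (D (t • (n : E3)) - (M (t • (n : E3)) + Q (t • (n : E3)))) ∂sm) +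
          ∫ n : S2, M (n : E3) ∂sm := by
      have i1 := Pool.Agent.Lib.PenroseSph.integrable_S2 cE
      have i2 := Pool.Agent.Lib.PenroseSph.integrable_S2 cM1
      have i12 : Integrable (fun n : S2 =>
          t ^ 2 * (D (t • (n : E3)) - (M (t • (n : E3)) + Q (t • (n : E3)))) + M (n : E3)) sm :=
        i1.add i2
      have i3 : Integrable (fun n : S2 => t ^ 2 * Q (t • (n : E3))) sm :=
        (Pool.Agent.Lib.PenroseSph.integrable_S2 cQ).const_mul _
      rw [funext e1, integral_add i12 i3, integral_add i1 i2,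
        integral_const_mul (t ^ 2) (fun n : S2 => Q (t • (n : E3))), hQ0 t hRt, mul_zero, add_zero]
    rw [e2, add_sub_cancel_right]
    have e3 : ∀ n : S2,
        ‖t ^ 2 * (D (t • (n : E3)) - (M (t • (n : E3)) + Q (t • (n : E3))))‖ ≤ C / t := by
      intro n
      have h1 := hR' (x := t • (n : E3)) (by
        show R' ≤ ‖t • (n : E3)‖
        rw [Pool.Agent.Lib.PenroseSph.norm_ray ht0]
        exact ht2)
      rw [Pool.Agent.Lib.PenroseSph.norm_ray ht0] at h1
      rw [norm_mul, Real.norm_of_nonneg (by positivity : (0 : ℝ) ≤ t ^ 2)]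
      rw [Real.norm_of_nonneg (by positivity : (0 : ℝ) ≤ (t ^ 3)⁻¹)] at h1
      calc t ^ 2 * ‖D (t • (n : E3)) - (M (t • (n : E3)) + Q (t • (n : E3)))‖
          ≤ t ^ 2 * (C * (t ^ 3)⁻¹) := mul_le_mul_of_nonneg_left h1 (by positivity)
        _ = C / t := by field_simp
    have h4 := norm_integral_le_of_norm_le_const (μ := sm) (Eventually.of_forall e3)
    rw [Pool.Agent.Lib.PenroseSph.sm_univ, Real.norm_eq_abs] at h4
    calc _ ≤ C / t * (4 * Real.pi) := h4
      _ = 4 * Real.pi * C / t := by ring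
  rw [tendsto_iff_norm_sub_tendsto_zero]
  apply squeeze_zero' (g := fun t => 4 * Real.pi * C / t)
  · exact Eventually.of_forall fun t => norm_nonneg _
  · filter_upwards [eventually_ge_atTop (max (max (R + 1) R') 1)] with t ht
    rw [Real.norm_eq_abs]
    exact hbound t ht
  · exact tendsto_const_nhds.div_atTop tendsto_id

end H17B
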