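import Pool.Agent.Lib.H17B.B1
import Pool.Agent.Lib.PenroseSph.SphRot

set_option autoImplicit false

/-!
# H17B, chunk D3 (S/M, pure): rotational derivatives have mean zero

`Q(y) = c/‖y‖ · Σ_j (y_j ∂_i φ_j - y_i ∂_j φ_j)`, `φ_j = pd j τ`, `τ` smooth for `‖y‖ > R`. On the sphere of radius `t` the factor is `c/t`; for `j ≠ i` the
mean of `y_j ∂_i φ_j - y_i ∂_j φ_j` over the sphere is zero by `Pool.Agent.Lib.PenroseSph.avg_rot` (with `a = R`; `φ_j` is `C¹` there), for `j = i` the term is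
zero. `avg_sum`, `avg_congr`, `avg_smul` of `PenroseSph/SphAvg.lean`. Second statement: continuity.
-/

open MeasureTheory Filter Topology Set Asymptotics
open scoped ContDiff

namespace H17B

open H17T
open Pool.Agent.Lib.PenroseSph (E3 Tens S2 sm pd trg fluxDensity momDensity admFlux admMom DefFun meanCurv trLevel)

theorem d3_pd {φ : E3 → ℝ} {y : E3} {m n : WithTop ℕ∞} (h : ContDiffAt ℝ n φ y) (hmn : m + 1 ≤ n)
    (i : Fin 3) : ContDiffAt ℝ m (pd i φ) y := by
  unfold pd
  exact (h.fderiv_right hmn).clm_apply contDiffAt_const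

theorem rot_zero {R : ℝ} (hR : 0 ≤ R) {τ : E3 → ℝ} (hτ : ∀ y : E3, R < ‖y‖ → ContDiffAt ℝ ∞ τ y) (c : ℝ) (i : Fin 3)
    {t : ℝ} (ht : R < t) :
    ∫ n : S2, (fun y : E3 => c / ‖y‖ * ∑ j, (y j * pd i (pd j τ) y - y i * pd j (pd j τ) y)) (t • (n : E3)) ∂sm = 0 := by
  have h0 : 0 < t := lt_of_le_of_lt hR ht
  have hC1 : ∀ j, ContDiffOn ℝ 1 (pd j τ) {x | R < ‖x‖} := by
    intro j y hy
    exact (d3_pd (m := 1) (hτ y hy) (by decide) j).contDiffWithinAt
  have hC0 : ∀ i j, ContinuousOn (pd i (pd j τ)) {x | R < ‖x‖} := by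
    intro i j y hy
    have h1 := d3_pd (m := 1) (hτ y hy) (by decide) j
    have h2 := d3_pd (m := 0) h1 (by norm_num) i
    exact h2.continuousAt.continuousWithinAt
  have hsum : Pool.Agent.Lib.PenroseSph.avg
      (fun y => ∑ j, (y j * pd i (pd j τ) y - y i * pd j (pd j τ) y)) t = 0 := by
    rw [Pool.Agent.Lib.PenroseSph.avg_sum hR ht Finset.univ (f := fun j y =>
      (y j * pd i (pd j τ) y - y i * pd j (pd j τ) y))]
    · apply Finset.sum_eq_zero
      intro j _
      by_cases hij : j = i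
      · subst hij
        have e : (fun y : E3 => y j * pd j (pd j τ) y - y j * pd j (pd j τ) y) = fun _ => 0 := by
          funext y
          ring
        rw [e, Pool.Agent.Lib.PenroseSph.avg_const]
      · exact Pool.Agent.Lib.PenroseSph.avg_rot hR ht (hC1 j) hij
    · intro j
      apply ContinuousOn.sub
      · apply ContinuousOn.mul _ (hC0 i j)
        fun_prop
      · apply ContinuousOn.mul _ (hC0 j j)
        fun_prop
  have h1 : ∀ n : S2, (fun y : E3 => c / ‖y‖ * ∑ j, (y j * pd i (pd j τ) y - y i * pd j (pd j τ) y))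
      (t • (n : E3)) = c / t * (fun y : E3 => ∑ j, (y j * pd i (pd j τ) y - y i * pd j (pd j τ) y))
      (t • (n : E3)) := by
    intro n
    show c / ‖t • (n : E3)‖ * _ = _
    rw [Pool.Agent.Lib.PenroseSph.norm_ray h0]
  rw [funext h1, integral_const_mul]
  unfold Pool.Agent.Lib.PenroseSph.avg at hsum
  have h2 : (4 * Real.pi)⁻¹ ≠ 0 := by positivity
  rw [(mul_eq_zero.mp hsum).resolve_left h2, mul_zero]

theorem rot_cont {R : ℝ} (hR : 0 ≤ R) {τ : E3 → ℝ} (hτ : ∀ y : E3, R < ‖y‖ → ContDiffAt ℝ ∞ τ y) (c : ℝ) (i : Fin 3)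
    {y : E3} (hy : R < ‖y‖) :
    ContinuousAt (fun y : E3 => c / ‖y‖ * ∑ j, (y j * pd i (pd j τ) y - y i * pd j (pd j τ) y)) y := by
  have h0 : ‖y‖ ≠ 0 := (lt_of_le_of_lt hR hy).ne'
  have hC0 : ∀ i j, ContinuousAt (pd i (pd j τ)) y := by
    intro i j
    have h1 := d3_pd (m := 1) (hτ y hy) (by decide) j
    have h2 := d3_pd (m := 0) h1 (by norm_num) i
    exact h2.continuousAt
  apply ContinuousAt.mul
  · exact continuousAt_const.div continuous_norm.continuousAt h0
  · apply tendsto_finsetSum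
    intro j _
    apply ContinuousAt.sub
    · apply ContinuousAt.mul _ (hC0 i j)
      fun_prop
    · apply ContinuousAt.mul _ (hC0 j j)
      fun_prop

end H17B
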