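import Pool.Agent.Lib.H17B.C2B
import Pool.Agent.Lib.H17B.D0
import Pool.Agent.Lib.H17B.D1
import Pool.Agent.Lib.H17B.D2
import Pool.Agent.Lib.H17B.D3

set_option autoImplicit false

/-!
# H17B, chunk D4 (M): the ADM energy of a boosted slice is `γ m`

`admFlux g' t = (1/(16π)) ∫ t² fluxDensity g' (t n)`; `lim_avg` with `M y = 4 m γ² ‖y‖/‖stretch y‖³` (homogeneous of degree `-2`:
`stretch_smul`), `Q` the rotational term (`rot_zero`, `i = 0`, `c = γ β`, `τ = f ∘ stretch γ`, smooth for `‖y‖ > R` as `‖stretch y‖ ≥ ‖y‖`; take the maximum of `R` and of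
the radius of `dens_cont_b`). `∫ M(n) = 4 m γ² · 4π/γ` (`int_stretch`, `‖n‖ = 1`).
So the limit is `(1/(16π)) · 16 π m γ = γ m`.
-/

open MeasureTheory Filter Topology Set Asymptotics
open scoped ContDiff

namespace H17B

open H17T
open Pool.Agent.Lib.PenroseSph (E3 Tens S2 sm pd trg fluxDensity momDensity admFlux admMom DefFun meanCurv trLevel)

theorem d4_smooth {F : E4 → ℝ} {k : ℝ → ℝ} {r : ℝ × ℝ → ℝ} {f : E3 → ℝ} {m β C R R1 : ℝ}
    (hB : FarEnd F k r f m β C R) : ∀ y : E3, max R R1 < ‖y‖ → ContDiffAt ℝ ∞ (fun z => f (stretch (lor β) z)) y := by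
  intro y hy
  obtain ⟨hg1, hg2⟩ := lor_one_le hB.beta
  have h1 : R ≤ ‖stretch (lor β) y‖ :=
    le_trans (le_trans (le_max_left _ _) hy.le) (stretch_le hg1 y).1
  exact ContDiffAt.comp y (hB.f_smooth _ h1) (stretch_smooth (lor β)).contDiffAt

theorem d4_stretch_ne {γ : ℝ} (h : 1 ≤ γ) {y : E3} (hy : y ≠ 0) : ‖stretch γ y‖ ≠ 0 := by
  have h1 := (stretch_le h y).1
  have h2 := norm_pos_iff.mpr hy
  exact (lt_of_lt_of_le h2 h1).ne'

theorem energy_lim {F : E4 → ℝ} {k : ℝ → ℝ} {r : ℝ × ℝ → ℝ} {f : E3 → ℝ} {m β C R : ℝ}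
    (hB : FarEnd F k r f m β C R) :
    Tendsto (admFlux (boost β (slice (stMetric F k r) f))) atTop (𝓝 (lor β * m)) := by
  obtain ⟨hg1, hg2⟩ := lor_one_le hB.beta
  have hg0 : 0 < lor β := lt_of_lt_of_le one_pos hg1
  obtain ⟨R1, hR1, hcont⟩ := dens_cont_b hB
  set γ := lor β with hγ
  set R' := max R R1 with hR'
  have hR0 : 0 ≤ R' := le_trans hR1.le (le_max_right _ _)
  have hτ : ∀ y : E3, R' < ‖y‖ → ContDiffAt ℝ ∞ (fun z => f (stretch γ z)) y := d4_smooth hB
  have h := lim_avg (R := R') (D := fluxDensity (boost β (slice (stMetric F k r) f)))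
    (M := fun y => 4 * m * γ ^ 2 * ‖y‖ / ‖stretch γ y‖ ^ 3)
    (Q := fun y => γ * β / ‖y‖ * ∑ j, (y j * pd 0 (pd j fun z => f (stretch γ z)) y
          - y 0 * pd j (pd j fun z => f (stretch γ z)) y))
    (fun y hy => (hcont y (lt_of_le_of_lt (le_max_right _ _) hy)).1)
    (fun y hy => by
      have h1 := d4_stretch_ne hg1 hy
      exact ((continuousAt_const.mul continuous_norm.continuousAt)).div
        (((stretch_smooth γ).continuous.norm.pow 3).continuousAt) (pow_ne_zero 3 h1))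
    (fun y hy => rot_cont hR0 hτ (γ * β) 0 hy)
    (fun t ht y hy => by
      have h1 := d4_stretch_ne hg1 hy
      rw [stretch_smul, norm_smul, norm_smul, Real.norm_of_nonneg ht.le]
      field_simp)
    (fun t ht => rot_zero hR0 hτ (γ * β) 0 ht)
    (flux_exp_b hB)
  have hI : ∫ n : S2, (fun y : E3 => 4 * m * γ ^ 2 * ‖y‖ / ‖stretch γ y‖ ^ 3) (n : E3) ∂sm
      = 16 * Real.pi * m * γ := by
    have h1 : (fun n : S2 => (fun y : E3 => 4 * m * γ ^ 2 * ‖y‖ / ‖stretch γ y‖ ^ 3) (n : E3))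
        = fun n : S2 => (4 * m * γ ^ 2) * (‖stretch γ (n : E3)‖ ^ 3)⁻¹ := by
      funext n
      have h2 : ‖(n : E3)‖ = 1 := by
        have := n.2
        simpa using this
      show 4 * m * γ ^ 2 * ‖(n : E3)‖ / ‖stretch γ (n : E3)‖ ^ 3 = _
      rw [h2]
      ring
    rw [h1, integral_const_mul, int_stretch hg1]
    field_simp
    ring
  rw [hI] at h
  have h3 := h.const_mul (1 / (16 * Real.pi))
  have h4 : 1 / (16 * Real.pi) * (16 * Real.pi * m * γ) = γ * m := by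
    field_simp
  rw [h4] at h3
  exact h3

end H17B
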