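import Pool.Agent.Lib.H17B.B1
import Pool.Agent.Lib.PenroseSph.SphRot

set_option autoImplicit false

/-!
# H17B, chunk D5 (S/M, pure): an odd integral

For `i ≠ 0` the function `n_0 n_i/(‖stretch n‖³ ‖n‖)` changes sign under the rotation by `π` in the plane of the coordinates `1, 2`
(`Pool.Agent.Lib.PenroseSph.rot`, `rotLin_apply`, `int_sphMap`): `n_0` is fixed, `n_1, n_2` change sign, `‖stretch n‖` is invariant.
-/

open MeasureTheory Filter Topology Set Asymptotics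
open scoped ContDiff

namespace H17B

open H17T
open Pool.Agent.Lib.PenroseSph (E3 Tens S2 sm pd trg fluxDensity momDensity admFlux admMom DefFun meanCurv trLevel)

theorem d5_apply (x : E3) :
    Pool.Agent.Lib.PenroseSph.rotLin 1 2 Real.pi x 0 = x 0 ∧ Pool.Agent.Lib.PenroseSph.rotLin 1 2 Real.pi x 1 = -x 1 ∧
      Pool.Agent.Lib.PenroseSph.rotLin 1 2 Real.pi x 2 = -x 2 := by
  have h12 : (1 : Fin 3) ≠ 2 := by decide
  refine ⟨?_, ?_, ?_⟩
  · rw [Pool.Agent.Lib.PenroseSph.rotLin_apply]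
    simp
  · rw [Pool.Agent.Lib.PenroseSph.rotLin_i h12]
    simp
  · rw [Pool.Agent.Lib.PenroseSph.rotLin_j h12]
    simp

theorem int_odd {γ : ℝ} (h : 1 ≤ γ) (c : ℝ) {i : Fin 3} (hi : i ≠ 0) :
    ∫ n : S2, (fun y : E3 => -(c * (y 0 * y i) / (‖stretch γ y‖ ^ 3 * ‖y‖))) (n : E3) ∂sm = 0 := by
  have h12 : (1 : Fin 3) ≠ 2 := by decide
  obtain ⟨L, hL⟩ : ∃ L : E3 ≃ₗᵢ[ℝ] E3, L = Pool.Agent.Lib.PenroseSph.rot h12 Real.pi := ⟨_, rfl⟩
  have hLa : ∀ x : E3, (L x : E3) 0 = x 0 ∧ (L x : E3) 1 = -x 1 ∧ (L x : E3) 2 = -x 2 := by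
    intro x
    rw [hL, Pool.Agent.Lib.PenroseSph.rot_apply]
    exact d5_apply x
  have hne : ∀ n : S2, ‖stretch γ (n : E3)‖ ^ 3 * ‖(n : E3)‖ ≠ 0 := by
    intro n
    have h1 := (stretch_le h (n : E3)).1
    rw [Pool.Agent.Lib.PenroseSph.norm_S2] at h1 ⊢
    have h2 : 0 < ‖stretch γ (n : E3)‖ := by linarith
    positivity
  have hcs : Continuous (stretch γ) := (stretch_smooth γ).continuous
  have hcont : Continuous fun n : S2 =>
      -(c * ((n : E3) 0 * (n : E3) i) / (‖stretch γ (n : E3)‖ ^ 3 * ‖(n : E3)‖)) := by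
    apply Continuous.neg
    apply Continuous.div
    · fun_prop
    · exact ((hcs.comp continuous_subtype_val).norm.pow 3).mul continuous_subtype_val.norm
    · exact hne
  have h1 := Pool.Agent.Lib.PenroseSph.int_sphMap L _ hcont
  have h2 : ∀ n : S2, -(c * (((Pool.Agent.Lib.PenroseSph.sphMap L n : S2) : E3) 0 *
      ((Pool.Agent.Lib.PenroseSph.sphMap L n : S2) : E3) i) /
      (‖stretch γ ((Pool.Agent.Lib.PenroseSph.sphMap L n : S2) : E3)‖ ^ 3 *
        ‖((Pool.Agent.Lib.PenroseSph.sphMap L n : S2) : E3)‖)) =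
      -(-(c * ((n : E3) 0 * (n : E3) i) / (‖stretch γ (n : E3)‖ ^ 3 * ‖(n : E3)‖))) := by
    intro n
    have e0 : ((Pool.Agent.Lib.PenroseSph.sphMap L n : S2) : E3) = L n := rfl
    rw [e0]
    obtain ⟨a0, a1, a2⟩ := hLa (n : E3)
    have e1 : ‖L (n : E3)‖ = ‖(n : E3)‖ := L.norm_map _
    have e2 : ‖stretch γ (L (n : E3))‖ = ‖stretch γ (n : E3)‖ := by
      have h3 : ‖stretch γ (L (n : E3))‖ ^ 2 = ‖stretch γ (n : E3)‖ ^ 2 := by
        rw [stretch_norm_sq, stretch_norm_sq, e1, a0]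
      exact (sq_eq_sq₀ (norm_nonneg _) (norm_nonneg _)).1 h3
    have e3 : (L (n : E3) : E3) i = -(n : E3) i := by
      fin_cases i
      · exact absurd rfl hi
      · exact a1
      · exact a2
    rw [e1, e2, e3, a0]
    ring
  rw [funext h2, integral_neg] at h1
  show ∫ n : S2, -(c * ((n : E3) 0 * (n : E3) i) / (‖stretch γ (n : E3)‖ ^ 3 * ‖(n : E3)‖)) ∂sm = 0
  linarith

end H17B
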