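import Pool.Agent.Lib.H17B.C3C
import Pool.Agent.Lib.H17B.D0
import Pool.Agent.Lib.H17B.D1
import Pool.Agent.Lib.H17B.D2
import Pool.Agent.Lib.H17B.D3
import Pool.Agent.Lib.H17B.D5

set_option autoImplicit false

/-!
# H17B, chunk D6 (M): the ADM momentum of a boosted slice is `(γ β m, 0, 0)`

As D4 with `admMom g' h' i t = (1/(8π)) ∫ t² momDensity`, `mom_exp`, `c = γ`; main term for `i = 0`: `∫ 2 γ² β m ‖n‖/‖stretch n‖³
= 2 γ² β m · 4π/γ`, limit `γ β m`; for `i ≠ 0`: `int_odd` (the term is homogeneous of degree `-2`).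
-/

open MeasureTheory Filter Topology Set Asymptotics
open scoped ContDiff

namespace H17B

open H17T
open Pool.Agent.Lib.PenroseSph (E3 Tens S2 sm pd trg fluxDensity momDensity admFlux admMom DefFun meanCurv trLevel)

theorem d6_smooth {F : E4 → ℝ} {k : ℝ → ℝ} {r : ℝ × ℝ → ℝ} {f : E3 → ℝ} {m β C R R1 : ℝ}
    (hB : FarEnd F k r f m β C R) : ∀ y : E3, max R R1 < ‖y‖ → ContDiffAt ℝ ∞ (fun z => f (stretch (lor β) z)) y := by
  intro y hy
  obtain ⟨hg1, hg2⟩ := lor_one_le hB.beta
  have h1 : R ≤ ‖stretch (lor β) y‖ :=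
    le_trans (le_trans (le_max_left _ _) hy.le) (stretch_le hg1 y).1
  exact ContDiffAt.comp y (hB.f_smooth _ h1) (stretch_smooth (lor β)).contDiffAt

theorem d6_stretch_ne {γ : ℝ} (h : 1 ≤ γ) {y : E3} (hy : y ≠ 0) : ‖stretch γ y‖ ≠ 0 := by
  have h1 := (stretch_le h y).1
  have h2 := norm_pos_iff.mpr hy
  exact (lt_of_lt_of_le h2 h1).ne'

theorem momentum_lim {F : E4 → ℝ} {k : ℝ → ℝ} {r : ℝ × ℝ → ℝ} {f : E3 → ℝ} {m β C R : ℝ}
    (hB : FarEnd F k r f m β C R) (i : Fin 3) :
    Tendsto (admMom (boost β (slice (stMetric F k r) f)) (boost β (second (stMetric F k r) f)) i) atTop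
      (𝓝 (lor β * β * m * dz i)) := by
  obtain ⟨hg1, hg2⟩ := lor_one_le hB.beta
  have hg0 : 0 < lor β := lt_of_lt_of_le one_pos hg1
  obtain ⟨R1, hR1, hcont⟩ := dens_cont_b hB
  set γ := lor β with hγ
  set R' := max R R1 with hR'
  have hR0 : 0 ≤ R' := le_trans hR1.le (le_max_right _ _)
  have hτ : ∀ y : E3, R' < ‖y‖ → ContDiffAt ℝ ∞ (fun z => f (stretch γ z)) y := d6_smooth hB
  have h := lim_avg (R := R')
    (D := momDensity (boost β (slice (stMetric F k r) f)) (boost β (second (stMetric F k r) f)) i)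
    (M := fun y => if i = 0 then 2 * γ ^ 2 * β * m * ‖y‖ / ‖stretch γ y‖ ^ 3
          else -(2 * γ ^ 2 * (γ ^ 2 - 1) * β * m * (y 0 * y i) / (‖stretch γ y‖ ^ 3 * ‖y‖)))
    (Q := fun y => γ / ‖y‖ * ∑ j, (y j * pd i (pd j fun z => f (stretch γ z)) y
          - y i * pd j (pd j fun z => f (stretch γ z)) y))
    (fun y hy => (hcont y (lt_of_le_of_lt (le_max_right _ _) hy)).2 i)
    (fun y hy => by
      have h1 := d6_stretch_ne hg1 hy
      have h2 : ‖y‖ ≠ 0 := norm_ne_zero_iff.mpr hy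
      by_cases hi : i = 0
      · simp only [hi, if_true]
        exact ((continuousAt_const.mul continuous_norm.continuousAt)).div
          (((stretch_smooth γ).continuous.norm.pow 3).continuousAt) (pow_ne_zero 3 h1)
      · simp only [hi, if_false]
        have hc : ∀ l : Fin 3, ContinuousAt (fun y : E3 => y l) y := fun l =>
          (EuclideanSpace.proj (𝕜 := ℝ) l).continuous.continuousAt
        exact ((continuousAt_const.mul ((hc 0).mul (hc i))).div
          ((((stretch_smooth γ).continuous.norm.pow 3).mul continuous_norm).continuousAt)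
          (mul_ne_zero (pow_ne_zero 3 h1) h2)).neg)
    (fun y hy => rot_cont hR0 hτ γ i hy)
    (fun t ht y hy => by
      have h1 := d6_stretch_ne hg1 hy
      have h2 : ‖y‖ ≠ 0 := norm_ne_zero_iff.mpr hy
      have h3 : ∀ l : Fin 3, (t • y) l = t * y l := fun l => rfl
      by_cases hi : i = 0
      · simp only [hi, if_true]
        rw [stretch_smul, norm_smul, norm_smul, Real.norm_of_nonneg ht.le]
        field_simp
      · simp only [hi, if_false]
        rw [stretch_smul, norm_smul, norm_smul, Real.norm_of_nonneg ht.le, h3, h3]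
        field_simp)
    (fun t ht => rot_zero hR0 hτ γ i ht)
    (mom_exp hB i)
  have hI : ∫ n : S2, (fun y : E3 => if i = 0 then 2 * γ ^ 2 * β * m * ‖y‖ / ‖stretch γ y‖ ^ 3
          else -(2 * γ ^ 2 * (γ ^ 2 - 1) * β * m * (y 0 * y i) / (‖stretch γ y‖ ^ 3 * ‖y‖))) (n : E3) ∂sm
      = 8 * Real.pi * β * m * γ * dz i := by
    by_cases hi : i = 0
    · have h1 : (fun n : S2 => (fun y : E3 => if i = 0 then 2 * γ ^ 2 * β * m * ‖y‖ / ‖stretch γ y‖ ^ 3
          else -(2 * γ ^ 2 * (γ ^ 2 - 1) * β * m * (y 0 * y i) / (‖stretch γ y‖ ^ 3 * ‖y‖))) (n : E3))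
          = fun n : S2 => (2 * γ ^ 2 * β * m) * (‖stretch γ (n : E3)‖ ^ 3)⁻¹ := by
        funext n
        have h2 : ‖(n : E3)‖ = 1 := by
          have := n.2
          simpa using this
        simp only [hi, if_true]
        rw [h2]
        ring
      rw [h1, integral_const_mul, int_stretch hg1, dz, if_pos hi]
      field_simp
      ring
    · simp only [hi, if_false]
      rw [int_odd hg1 (2 * γ ^ 2 * (γ ^ 2 - 1) * β * m) hi, dz, if_neg hi, mul_zero]
  rw [hI] at h
  have h3 := h.const_mul (1 / (8 * Real.pi))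
  have h4 : 1 / (8 * Real.pi) * (8 * Real.pi * β * m * γ * dz i) = γ * β * m * dz i := by
    field_simp
  rw [h4] at h3
  exact h3

end H17B
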