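import Pool.Agent.Lib.H17T.T0

set_option autoImplicit false

/-!
# H17B: slices which are boosted at infinity

The slice `T = f(x)` of the space-time `-F dT² + F k² dρ² + (r/ρ)² (|dx|² - dρ²)`, with `∂f → (β, 0, 0)` at infinity and with a
space-time which is asymptotic to the Schwarzschild space-time of mass `m` in isotropic coordinates:
`F = 1 - 2m/ρ + O(ρ⁻²)`, `k = 1 + 2m/ρ + O(ρ⁻²)`, `r/ρ = 1 + m/ρ + O(ρ⁻²)` (with first derivatives). The asymptotically flat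
coordinates `y` of the slice are given by `x = (γ y_0, y_1, y_2)`, `γ = 1/√(1 - β²)`.
-/

open MeasureTheory Filter Topology Set Asymptotics
open scoped ContDiff

namespace H17B

open H17T
open Pool.Agent.Lib.PenroseSph (E3 Tens S2 sm pd trg fluxDensity momDensity admFlux admMom DefFun meanCurv trLevel)

/-- The Lorentz factor. -/
noncomputable def lor (β : ℝ) : ℝ := 1 / Real.sqrt (1 - β ^ 2)

/-- The scale factors `(γ, 1, 1)`. -/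
noncomputable def sc (γ : ℝ) (i : Fin 3) : ℝ := if i = 0 then γ else 1

/-- The map `y ↦ x = (γ y_0, y_1, y_2)`. -/
noncomputable def stretch (γ : ℝ) (y : E3) : E3 := !₂[γ * y 0, y 1, y 2]

/-- The tensor `g` in the coordinates `y`. -/
noncomputable def boost (β : ℝ) (g : Tens) : Tens := fun y =>
  Matrix.of fun i j => sc (lor β) i * sc (lor β) j * g (stretch (lor β) y) i j

/-- Bounds near infinity: `F = 1 - 2m/ρ + O(ρ⁻²)`, `k = 1 + 2m/ρ + O(ρ⁻²)`, `r = ρ + m + O(ρ⁻¹)` (with first derivatives),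
`∂f = (β, 0, 0) + O(ρ⁻¹)`, `∂∂f = O(ρ⁻²)`. -/
structure FarEnd (F : E4 → ℝ) (k : ℝ → ℝ) (r : ℝ × ℝ → ℝ) (f : E3 → ℝ) (m β C R : ℝ) : Prop where
  beta : |β| < 1
  R_pos : 0 < R
  f_smooth : ∀ x : E3, R ≤ ‖x‖ → ContDiffAt ℝ ∞ f x
  f1 : ∀ x : E3, R ≤ ‖x‖ → ∀ i, |pd i f x - (if i = 0 then β else 0)| ≤ C / ‖x‖
  f2 : ∀ x : E3, R ≤ ‖x‖ → ∀ i j, |pd i (pd j f) x| ≤ C / ‖x‖ ^ 2
  F_smooth : ∀ x : E3, R ≤ ‖x‖ → ∀ n : S2, ContDiffAt ℝ ∞ F (ev (qq f x) n)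
  F_pos : ∀ x : E3, R ≤ ‖x‖ → ∀ n : S2, 0 < F (ev (qq f x) n)
  F0 : ∀ x : E3, R ≤ ‖x‖ → ∀ n : S2, |F (ev (qq f x) n) - (1 - 2 * m / ‖x‖)| ≤ C / ‖x‖ ^ 2
  F1 : ∀ x : E3, R ≤ ‖x‖ → ∀ a, |H31R.pd a (fun q => F q - (1 - 2 * m / ‖pos q‖)) (pt (f x) x)| ≤ C / ‖x‖ ^ 3
  k_smooth : ∀ t : ℝ, R ≤ t → ContDiffAt ℝ ∞ k t
  k_pos : ∀ t : ℝ, R ≤ t → 0 < k t
  k0 : ∀ t : ℝ, R ≤ t → |k t - (1 + 2 * m / t)| ≤ C / t ^ 2
  k1 : ∀ t : ℝ, R ≤ t → |deriv k t + 2 * m / t ^ 2| ≤ C / t ^ 3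
  r_smooth : ∀ x : E3, R ≤ ‖x‖ → ContDiffAt ℝ ∞ r (qq f x)
  r_pos : ∀ x : E3, R ≤ ‖x‖ → 0 < r (qq f x)
  r0 : ∀ x : E3, R ≤ ‖x‖ → |r (qq f x) - (‖x‖ + m)| ≤ C / ‖x‖
  rT : ∀ x : E3, R ≤ ‖x‖ → |fderiv ℝ r (qq f x) (1, 0)| ≤ C / ‖x‖ ^ 2
  rR : ∀ x : E3, R ≤ ‖x‖ → |fderiv ℝ r (qq f x) (0, 1) - 1| ≤ C / ‖x‖ ^ 2

/-- The filter of the neighbourhoods of infinity. -/
noncomputable abbrev LL : Filter E3 := Bornology.cobounded E3

/-- `dz i = 1` for `i = 0` and `0` otherwise. -/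
noncomputable def dz (i : Fin 3) : ℝ := if i = 0 then 1 else 0

/-- Kronecker symbol. -/
noncomputable def dl {n : ℕ} (i j : Fin n) : ℝ := if i = j then 1 else 0

/-- The Minkowski metric. -/
noncomputable def eta (a b : Fin 4) : ℝ := if a = b then (if a = 0 then -1 else 1) else 0

/-- The radial unit covector. -/
noncomputable def om (x : E3) : Fin 4 → ℝ := Fin.cons 0 fun i => x i / ‖x‖

/-- The event of the slice over `x`. -/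
noncomputable def PP (f : E3 → ℝ) (x : E3) : E4 := pt (f x) x

/-- Leading part of the Christoffel symbols. -/
noncomputable def chlin (m : ℝ) (c a b : Fin 4) (x : E3) : ℝ :=
  -(m / ‖x‖ ^ 2) * eta c c * (om x a * dl c b + om x b * dl c a - om x c * dl a b)

/-- Leading part of the second fundamental form. -/
noncomputable def kh (m β : ℝ) (i j : Fin 3) (x : E3) : ℝ :=
  m / ‖x‖ ^ 2 * (2 * β * (x i / ‖x‖ * dz j + x j / ‖x‖ * dz i) - β * (x 0 / ‖x‖) * (dl i j + β ^ 2 * dz i * dz j))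

/-- `φ = c0 + c1/ρ + O(ρ⁻²)` along the slice, with first derivatives. -/
structure Ex (f : E3 → ℝ) (c0 c1 : ℝ) (φ : E4 → ℝ) : Prop where
  val : (fun x => φ (PP f x) - (c0 + c1 / ‖x‖)) =O[LL] fun x => (‖x‖ ^ 2)⁻¹
  der : ∀ a, (fun x => H31R.pd a φ (PP f x) + c1 / ‖x‖ ^ 2 * om x a) =O[LL] fun x => (‖x‖ ^ 3)⁻¹
  diff : ∀ᶠ x in LL, DifferentiableAt ℝ φ (PP f x)

end H17B
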