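import Pool.Agent.Lib.H17B.B1
import Pool.Agent.Lib.H17T.F1

set_option autoImplicit false

/-!
# H17B, chunk E1 (M): growth of the null coordinates (boosted case)

As `f1_grow` in `H17T/F1.lean` (model), with `|fderiv f (s n) n| ≤ |β| + 3 C/s ≤ (1 + 2|β|)/3` and `k s ≥ (2 + |β|)/3` for large `s` (`hB.f1`,
`hB.k0`): `d/ds (± f(s n) + X s) ≥ (1 - |β|)/3` along rays for `s ≥ R2`, and `± f + X` is bounded below on the sphere of radius `R2` (compact, continuous).
-/

open MeasureTheory Filter Topology Set Asymptotics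
open scoped ContDiff

namespace H17B

open H17T
open Pool.Agent.Lib.PenroseSph (E3 Tens S2 sm pd trg fluxDensity momDensity admFlux admMom DefFun meanCurv trLevel)

theorem e1_small {F : E4 → ℝ} {k : ℝ → ℝ} {r : ℝ × ℝ → ℝ} {f : E3 → ℝ} {m β C R : ℝ}
    (hB : FarEnd F k r f m β C R) (n : S2) {s : ℝ} (h1 : R ≤ s) : |fderiv ℝ f (s • (n : E3)) n| ≤ |β| + 3 * (C / s) := by
  have hs : 0 < s := by linarith [hB.R_pos]
  have hN := f1_norm n hs
  have hf := hB.f1 (s • (n : E3)) (by rw [hN]; exact h1)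
  rw [hN] at hf
  have hc : ∀ i : Fin 3, |(n : E3) i| ≤ 1 := by
    intro i
    have a2 := f1_coord (n : E3) i
    have a3 : ‖(n : E3)‖ = 1 := by simp
    rwa [a3] at a2
  have hb : ∀ i : Fin 3, |(n : E3) i * (pd i f (s • (n : E3)) - (if i = 0 then β else 0))| ≤ C / s := by
    intro i
    rw [abs_mul]
    have h3 := hf i
    have h4 := abs_nonneg (pd i f (s • (n : E3)) - (if i = 0 then β else 0))
    calc |(n : E3) i| * |pd i f (s • (n : E3)) - (if i = 0 then β else 0)|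
        ≤ 1 * (C / s) := mul_le_mul (hc i) h3 h4 zero_le_one
      _ = C / s := one_mul _
  have e : fderiv ℝ f (s • (n : E3)) n
      = (n : E3) 0 * β + ∑ i, (n : E3) i * (pd i f (s • (n : E3)) - (if i = 0 then β else 0)) := by
    rw [f1_expand]
    simp only [Fin.sum_univ_three, pd]
    simp
    ring
  rw [e]
  have h5 : |(n : E3) 0 * β| ≤ |β| := by
    rw [abs_mul]
    calc |(n : E3) 0| * |β| ≤ 1 * |β| := mul_le_mul_of_nonneg_right (hc 0) (abs_nonneg _)
      _ = |β| := one_mul _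
  have h6 : |∑ i, (n : E3) i * (pd i f (s • (n : E3)) - (if i = 0 then β else 0))| ≤ 3 * (C / s) := by
    calc |∑ i, (n : E3) i * (pd i f (s • (n : E3)) - (if i = 0 then β else 0))|
        ≤ ∑ i, |(n : E3) i * (pd i f (s • (n : E3)) - (if i = 0 then β else 0))| := Finset.abs_sum_le_sum_abs _ _
      _ ≤ ∑ _i : Fin 3, C / s := Finset.sum_le_sum fun i _ => hb i
      _ = 3 * (C / s) := by simp
  exact (abs_add_le _ _).trans (add_le_add h5 h6)

theorem e1_div {a δ s : ℝ} (hδ : 0 < δ) (ha : a / δ ≤ s) (hs : 0 < s) : a / s ≤ δ := by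
  rw [div_le_iff₀ hs]
  rw [div_le_iff₀ hδ] at ha
  linarith

theorem e1_grow {F : E4 → ℝ} {k : ℝ → ℝ} {r : ℝ × ℝ → ℝ} {f : E3 → ℝ} {m β C R : ℝ}
    (hB : FarEnd F k r f m β C R) {X : ℝ → ℝ} (hX : ∀ t : ℝ, R ≤ t → HasDerivAt X (k t) t) (M : ℝ)
    {ε : ℝ} (hε : ε = 1 ∨ ε = -1) :
    ∃ R' : ℝ, ∀ x : E3, R' ≤ ‖x‖ → M ≤ ε * f x + X ‖x‖ := by
  have hC0 : 0 ≤ C := by
    have h1 := (abs_nonneg _).trans (hB.k0 R le_rfl)
    have h2 : 0 < R ^ 2 := pow_pos hB.R_pos 2
    by_contra h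
    have h3 : C / R ^ 2 < 0 := div_neg_of_neg_of_pos (not_le.1 h) h2
    linarith
  obtain ⟨d, hd⟩ : ∃ d, d = (1 - |β|) / 24 := ⟨_, rfl⟩
  have hd0 : 0 < d := by rw [hd]; linarith [hB.beta]
  obtain ⟨R2, hR2⟩ : ∃ R2, R2 = max (max R 1) (max (C / d) (|2 * m| / d)) := ⟨_, rfl⟩
  have hR2a : R ≤ R2 := by rw [hR2]; exact (le_max_left _ _).trans (le_max_left _ _)
  have hR2b : 1 ≤ R2 := by rw [hR2]; exact (le_max_right _ _).trans (le_max_left _ _)
  have hR2c : C / d ≤ R2 := by rw [hR2]; exact (le_max_left _ _).trans (le_max_right _ _)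
  have hR2d : |2 * m| / d ≤ R2 := by rw [hR2]; exact (le_max_right _ _).trans (le_max_right _ _)
  have hR2p : 0 < R2 := by linarith
  have hcont : ContinuousOn (fun x : E3 => ε * f x + X ‖x‖) (Metric.sphere (0 : E3) R2) := by
    intro x hx
    have hx1 : ‖x‖ = R2 := mem_sphere_zero_iff_norm.1 hx
    have c1 : ContinuousAt f x := (hB.f_smooth x (by rw [hx1]; exact hR2a)).continuousAt
    have c2 : ContinuousAt X ‖x‖ := (hX ‖x‖ (by rw [hx1]; exact hR2a)).continuousAt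
    have c3 : ContinuousAt (fun x : E3 => X ‖x‖) x := ContinuousAt.comp (g := X) c2 continuous_norm.continuousAt
    exact ((continuousAt_const.mul c1).add c3).continuousWithinAt
  obtain ⟨μ, hm⟩ := ((isCompact_sphere (0 : E3) R2).image_of_continuousOn hcont).bddBelow
  have hm' : ∀ n : S2, μ ≤ ε * f (R2 • (n : E3)) + X R2 := by
    intro n
    have h1 := hm ⟨R2 • (n : E3), mem_sphere_zero_iff_norm.2 (f1_norm n hR2p), rfl⟩
    have h2 : μ ≤ ε * f (R2 • (n : E3)) + X ‖R2 • (n : E3)‖ := h1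
    rwa [f1_norm n hR2p] at h2
  have hray : ∀ (n : S2) (s : ℝ), R2 ≤ s → μ + (s - R2) * d ≤ ε * f (s • (n : E3)) + X s := by
    intro n s hs
    have hdv : ∀ u : ℝ, R2 ≤ u → HasDerivAt (fun u : ℝ => ε * f (u • (n : E3)) + X u - u * d)
        (ε * fderiv ℝ f (u • (n : E3)) n + k u - 1 * d) u := by
      intro u hu
      have hu0 : 0 < u := hR2p.trans_le hu
      have d1 : HasDerivAt (fun s : ℝ => s • (n : E3)) (n : E3) u := by
        have a1 := (hasDerivAt_id u).smul_const (n : E3)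
        simpa using a1
      have d2 : HasDerivAt (fun s : ℝ => f (s • (n : E3))) (fderiv ℝ f (u • (n : E3)) n) u :=
        ((hB.f_smooth _ (by rw [f1_norm n hu0]; exact hR2a.trans hu)).differentiableAt (by simp)).hasFDerivAt.comp_hasDerivAt u d1
      have d3 : HasDerivAt X (k u) u := hX u (hR2a.trans hu)
      exact ((d2.const_mul ε).add d3).sub ((hasDerivAt_id u).mul_const d)
    have hmono : MonotoneOn (fun u : ℝ => ε * f (u • (n : E3)) + X u - u * d) (Ici R2) := by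
      refine monotoneOn_of_deriv_nonneg (convex_Ici R2) (fun u hu => (hdv u hu).continuousAt.continuousWithinAt)
        (fun u hu => (hdv u (interior_subset hu)).differentiableAt.differentiableWithinAt) (fun u hu => ?_)
      have hu' : R2 ≤ u := interior_subset hu
      have hu0 : 0 < u := hR2p.trans_le hu'
      rw [(hdv u hu').deriv]
      have a1 := abs_le.1 (e1_small hB n (hR2a.trans hu'))
      have a2 := abs_le.1 (hB.k0 u (hR2a.trans hu'))
      have a3 : C / u ≤ d := e1_div hd0 (hR2c.trans hu') hu0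
      have a5 : C / u ^ 2 ≤ d := by
        refine le_trans ?_ a3
        exact div_le_div_of_nonneg_left hC0 hu0 (by nlinarith)
      have a6 : |2 * m / u| ≤ d := by
        rw [abs_div, abs_of_pos hu0]
        exact e1_div hd0 (hR2d.trans hu') hu0
      have a7 := abs_le.1 a6
      have a4 : -(|β| + 3 * (C / u)) ≤ ε * fderiv ℝ f (u • (n : E3)) n := by
        rcases hε with h | h
        · rw [h]; linarith [a1.1]
        · rw [h]; linarith [a1.2]
      have a8 : 1 - |β| = 24 * d := by rw [hd]; ring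
      linarith [a2.1, a7.1]
    have h1 := hmono (mem_Ici.2 le_rfl) hs hs
    have h2 : ε * f (R2 • (n : E3)) + X R2 - R2 * d ≤ ε * f (s • (n : E3)) + X s - s * d := h1
    linarith [hm' n]
  refine ⟨max R2 (R2 + (M - μ) / d), fun x hx => ?_⟩
  have h1 : R2 ≤ ‖x‖ := (le_max_left _ _).trans hx
  have h2 : R2 + (M - μ) / d ≤ ‖x‖ := (le_max_right _ _).trans hx
  have hx0 : 0 < ‖x‖ := hR2p.trans_le h1
  have h3 := hray ⟨‖x‖⁻¹ • x, by
    rw [mem_sphere_zero_iff_norm, norm_smul, norm_inv, norm_norm, inv_mul_cancel₀ hx0.ne']⟩ ‖x‖ h1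
  have h4 : ‖x‖ • (‖x‖⁻¹ • x) = x := by rw [smul_smul, mul_inv_cancel₀ hx0.ne', one_smul]
  have h5 : μ + (‖x‖ - R2) * d ≤ ε * f (‖x‖ • (‖x‖⁻¹ • x)) + X ‖x‖ := h3
  rw [h4] at h5
  have h6 : M - μ ≤ (‖x‖ - R2) * d := by
    rw [← div_le_iff₀ hd0]
    linarith
  linarith

theorem grow_b {F : E4 → ℝ} {k : ℝ → ℝ} {r : ℝ × ℝ → ℝ} {f : E3 → ℝ} {m β C R : ℝ}
    (hB : FarEnd F k r f m β C R) {X : ℝ → ℝ} (hX : ∀ t : ℝ, R ≤ t → HasDerivAt X (k t) t) (M : ℝ) :
    ∃ R' : ℝ, ∀ x : E3, R' ≤ ‖x‖ → M ≤ f x + X ‖x‖ ∧ M ≤ -f x + X ‖x‖ := by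
  obtain ⟨R1, h1⟩ := e1_grow hB hX M (Or.inl rfl)
  obtain ⟨R2, h2⟩ := e1_grow hB hX M (Or.inr rfl)
  refine ⟨max R1 R2, fun x hx => ⟨?_, ?_⟩⟩
  · have h3 := h1 x ((le_max_left _ _).trans hx)
    linarith
  · have h3 := h2 x ((le_max_right _ _).trans hx)
    linarith

end H17B
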