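import Pool.Agent.Lib.H17B.B1

set_option autoImplicit false

/-!
# H17B, chunk E2 (S): signs of the derivatives of `r` at infinity

`Da k r q = fderiv r q (1/2, 1/(2k)) = r_T/2 + r_ρ/(2k)`, `Db k r q = -r_T/2 + r_ρ/(2k)` (linearity; see `ends_pos` in `H17T/F1.lean`), `r_T → 0`, `r_ρ → 1`, `k → 1`
(`hB.rT`, `hB.rR`, `hB.k0`).
-/

open MeasureTheory Filter Topology Set Asymptotics
open scoped ContDiff

namespace H17B

open H17T
open Pool.Agent.Lib.PenroseSph (E3 Tens S2 sm pd trg fluxDensity momDensity admFlux admMom DefFun meanCurv trLevel)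

theorem e2_lin (D : ℝ × ℝ →L[ℝ] ℝ) (a b : ℝ) : D (a, b) = a * D (1, 0) + b * D (0, 1) := by
  have e4 : ((a, b) : ℝ × ℝ) = a • ((1, 0) : ℝ × ℝ) + b • ((0, 1) : ℝ × ℝ) := by
    refine Prod.ext ?_ ?_
    · show a = a * 1 + b * 0
      ring
    · show b = a * 0 + b * 1
      ring
  rw [e4, map_add, map_smul, map_smul, smul_eq_mul, smul_eq_mul]

theorem e2_C_nonneg {F : E4 → ℝ} {k : ℝ → ℝ} {r : ℝ × ℝ → ℝ} {f : E3 → ℝ} {m β C R : ℝ}
    (hB : FarEnd F k r f m β C R) : 0 ≤ C := by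
  have h1 := (abs_nonneg _).trans (hB.k0 R le_rfl)
  have h2 : 0 < R ^ 2 := pow_pos hB.R_pos 2
  by_contra h
  have h3 : C / R ^ 2 < 0 := div_neg_of_neg_of_pos (not_le.1 h) h2
  linarith

theorem e2_small {a δ s : ℝ} (hδ : 0 < δ) (ha : a / δ ≤ s) (hs : 0 < s) : a / s ≤ δ := by
  rw [div_le_iff₀ hs]
  rw [div_le_iff₀ hδ] at ha
  linarith

theorem pos_b {F : E4 → ℝ} {k : ℝ → ℝ} {r : ℝ × ℝ → ℝ} {f : E3 → ℝ} {m β C R : ℝ}
    (hB : FarEnd F k r f m β C R) :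
    ∃ R' : ℝ, ∀ x : E3, R' ≤ ‖x‖ → 0 < Da k r (qq f x) ∧ 0 < Db k r (qq f x) := by
  have hC0 := e2_C_nonneg hB
  refine ⟨max (max R 1) (max (C / (1 / 8)) (|2 * m| / (1 / 8))), fun x hx => ?_⟩
  have h1 : R ≤ ‖x‖ := (le_max_left _ _).trans ((le_max_left _ _).trans hx)
  have h2 : 1 ≤ ‖x‖ := (le_max_right _ _).trans ((le_max_left _ _).trans hx)
  have h3 : C / (1 / 8) ≤ ‖x‖ := (le_max_left _ _).trans ((le_max_right _ _).trans hx)
  have h4 : |2 * m| / (1 / 8) ≤ ‖x‖ := (le_max_right _ _).trans ((le_max_right _ _).trans hx)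
  have hx0 : 0 < ‖x‖ := by linarith [hB.R_pos]
  have hC : C / ‖x‖ ≤ 1 / 8 := e2_small (by norm_num) h3 hx0
  have hC2 : C / ‖x‖ ^ 2 ≤ 1 / 8 := by
    refine le_trans ?_ hC
    exact div_le_div_of_nonneg_left hC0 hx0 (by nlinarith)
  have hm : |2 * m / ‖x‖| ≤ 1 / 8 := by
    rw [abs_div, abs_of_pos hx0]
    exact e2_small (by norm_num) h4 hx0
  have hT := abs_le.1 (hB.rT x h1)
  have hR := abs_le.1 (hB.rR x h1)
  have hk := abs_le.1 (hB.k0 ‖x‖ h1)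
  have hm' := abs_le.1 hm
  have e2 : (qq f x).2 = ‖x‖ := rfl
  have hk0 : 0 < k ‖x‖ := hB.k_pos _ h1
  have h5 : 1 / 8 < 1 / (2 * k ‖x‖) * fderiv ℝ r (qq f x) (0, 1) := by
    rw [one_div_mul_eq_div, lt_div_iff₀ (by linarith)]
    linarith [hk.2, hR.1, hm'.2]
  unfold Da Db
  rw [e2, e2_lin, e2_lin _ (-(1 / 2))]
  constructor
  · linarith [hT.1]
  · linarith [hT.2]

end H17B
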