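import Pool.Agent.Lib.H17B.B1

set_option autoImplicit false

/-!
# H17B, chunk E3 (M): the mass tends to `m`

`mass q = (r/2)(1 - 4 r_a r_b <1/F>)`, `4 r_a r_b = r_ρ²/k² - r_T²` (`Da`, `Db` are `fderiv r q (±1/2, 1/(2k))`). `r_ρ = 1 + O(ρ⁻²)`, `r_T = O(ρ⁻²)`;
`k = 1 + 2m/ρ + O(ρ⁻²)`; `1/F = 1 + 2m/ρ + O(ρ⁻²)` at all events `ev q n`, `n : S2`, `q = qq f x` (`hB.F0`), so the same for the
mean `<1/F> = mF F q` (`sm univ = 4π`: `Pool.Agent.Lib.PenroseSph.sm_univ`; the integrand is continuous, `hB.F_smooth`); product `1 - 2m/ρ + O(ρ⁻²)`;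
`mass = ((ρ + O(1))/2)(2m/ρ + O(ρ⁻²)) = m + O(1/ρ)`.
-/

open MeasureTheory Filter Topology Set Asymptotics
open scoped ContDiff

namespace H17B

open H17T
open Pool.Agent.Lib.PenroseSph (E3 Tens S2 sm pd trg fluxDensity momDensity admFlux admMom DefFun meanCurv trLevel)

theorem e3_lin (D : ℝ × ℝ →L[ℝ] ℝ) (a b : ℝ) : D (a, b) = a * D (1, 0) + b * D (0, 1) := by
  have e4 : ((a, b) : ℝ × ℝ) = a • ((1, 0) : ℝ × ℝ) + b • ((0, 1) : ℝ × ℝ) := by
    refine Prod.ext ?_ ?_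
    · show a = a * 1 + b * 0
      ring
    · show b = a * 0 + b * 1
      ring
  rw [e4, map_add, map_smul, map_smul, smul_eq_mul, smul_eq_mul]

/-- `s u → c` if `u = c/s + O(s⁻²)`. -/
theorem e3_lim {u : ℝ → ℝ} {c C R : ℝ} (h : ∀ s : ℝ, R ≤ s → 0 < s → |u s - c / s| ≤ C / s ^ 2) :
    Tendsto (fun s => s * u s) atTop (𝓝 c) := by
  rw [tendsto_iff_norm_sub_tendsto_zero]
  have h1 : Tendsto (fun s : ℝ => C / s) atTop (𝓝 0) := tendsto_const_nhds.div_atTop tendsto_id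
  refine squeeze_zero' (Eventually.of_forall fun s => norm_nonneg _) ?_ h1
  filter_upwards [eventually_ge_atTop R, eventually_gt_atTop (0 : ℝ)] with s hs hs0
  have h2 := h s hs hs0
  have e : s * u s - c = s * (u s - c / s) := by
    field_simp
  rw [Real.norm_eq_abs, e, abs_mul, abs_of_pos hs0]
  calc s * |u s - c / s| ≤ s * (C / s ^ 2) := mul_le_mul_of_nonneg_left h2 hs0.le
    _ = C / s := by field_simp

theorem e3_one {u : ℝ → ℝ} {c : ℝ} (h : Tendsto (fun s => s * (u s - 1)) atTop (𝓝 c)) : Tendsto u atTop (𝓝 1) := by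
  have h1 : Tendsto (fun s : ℝ => s * (u s - 1) * s⁻¹ + 1) atTop (𝓝 (c * 0 + 1)) :=
    (h.mul tendsto_inv_atTop_zero).add tendsto_const_nhds
  rw [mul_zero, zero_add] at h1
  refine h1.congr' ?_
  filter_upwards [eventually_gt_atTop (0 : ℝ)] with s hs
  field_simp
  ring

/-- `1/F = 1 + 2m/s + O(s⁻²)`. -/
theorem e3_inv {F m s C : ℝ} (hs : 0 < s) (hs1 : 1 ≤ s) (h1 : C ≤ s / 8) (h2 : |2 * m| ≤ s / 8)
    (hC : 0 ≤ C) (h : |F - (1 - 2 * m / s)| ≤ C / s ^ 2) : |F⁻¹ - (1 + 2 * m / s)| ≤ 2 * (4 * m ^ 2 + 2 * C) / s ^ 2 := by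
  obtain ⟨e, he⟩ : ∃ e, e = F - (1 - 2 * m / s) := ⟨_, rfl⟩
  rw [← he] at h
  have hm : |2 * m / s| ≤ 1 / 8 := by
    rw [abs_div, abs_of_pos hs, div_le_iff₀ hs]
    linarith
  have hm' := abs_le.1 hm
  have h3 : C / s ^ 2 ≤ 1 / 8 := by
    rw [div_le_iff₀ (by positivity)]
    nlinarith
  have h' := abs_le.1 h
  have hF : 1 / 2 ≤ F := by linarith [h'.1, h'.2]
  have hF0 : 0 < F := by linarith
  have e0 : F = 1 - 2 * m / s + e := by rw [he]; ring
  have e1 : F⁻¹ - (1 + 2 * m / s) = (4 * m ^ 2 / s ^ 2 - e * (1 + 2 * m / s)) / F := by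
    rw [eq_div_iff hF0.ne', sub_mul, inv_mul_cancel₀ hF0.ne', e0]
    field_simp
    ring
  rw [e1, abs_div, abs_of_pos hF0, div_le_iff₀ hF0]
  have h5 : |4 * m ^ 2 / s ^ 2 - e * (1 + 2 * m / s)| ≤ 4 * m ^ 2 / s ^ 2 + C / s ^ 2 * 2 := by
    refine (abs_sub _ _).trans (add_le_add ?_ ?_)
    · rw [abs_of_nonneg (by positivity)]
    · rw [abs_mul]
      refine mul_le_mul h ?_ (abs_nonneg _) (by positivity)
      rw [abs_le]
      constructor <;> linarith [hm'.1, hm'.2]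
  have h6 : 0 ≤ 2 * (4 * m ^ 2 + 2 * C) / s ^ 2 := by positivity
  have h7 : 4 * m ^ 2 / s ^ 2 + C / s ^ 2 * 2 = 2 * (4 * m ^ 2 + 2 * C) / s ^ 2 * (1 / 2) := by
    field_simp
  rw [h7] at h5
  exact h5.trans (mul_le_mul_of_nonneg_left hF h6)

theorem e3_mF {F : E4 → ℝ} {k : ℝ → ℝ} {r : ℝ × ℝ → ℝ} {f : E3 → ℝ} {m β C R : ℝ}
    (hB : FarEnd F k r f m β C R) (hC : 0 ≤ C) {x : E3} (hR : R ≤ ‖x‖) (h1 : 1 ≤ ‖x‖) (h2 : C ≤ ‖x‖ / 8)
    (h3 : |2 * m| ≤ ‖x‖ / 8) : |mF F (qq f x) - (1 + 2 * m / ‖x‖)| ≤ 2 * (4 * m ^ 2 + 2 * C) / ‖x‖ ^ 2 := by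
  have hx0 : 0 < ‖x‖ := by linarith
  have hcont : Continuous fun n : S2 => (F (ev (qq f x) n))⁻¹ := by
    rw [continuous_iff_continuousAt]
    intro n
    have c1 : ContinuousAt F (ev (qq f x) n) := (hB.F_smooth x hR n).continuousAt
    have c2 : Continuous fun n : S2 => ev (qq f x) (n : E3) := by
      have c3 : Continuous fun n : S2 => ((qq f x).1, (qq f x).2 • (n : E3)) := by
        fun_prop
      exact pt_smooth.continuous.comp c3
    have c4 : ContinuousAt (fun n : S2 => F (ev (qq f x) (n : E3))) n :=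
      ContinuousAt.comp (f := fun n : S2 => ev (qq f x) (n : E3)) (g := F) c1 c2.continuousAt
    exact c4.inv₀ (hB.F_pos x hR n).ne'
  have hint := Pool.Agent.Lib.PenroseSph.integrable_S2 hcont
  have hpi : (0 : ℝ) < 4 * Real.pi := by positivity
  have e1 : mF F (qq f x) - (1 + 2 * m / ‖x‖)
      = (4 * Real.pi)⁻¹ * ∫ n : S2, ((F (ev (qq f x) n))⁻¹ - (1 + 2 * m / ‖x‖)) ∂sm := by
    rw [integral_sub hint (integrable_const _), integral_const, Pool.Agent.Lib.PenroseSph.sm_univ]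
    unfold mF
    rw [smul_eq_mul, mul_sub, ← mul_assoc, inv_mul_cancel₀ hpi.ne', one_mul]
  have h5 : ‖∫ n : S2, ((F (ev (qq f x) n))⁻¹ - (1 + 2 * m / ‖x‖)) ∂sm‖
      ≤ 2 * (4 * m ^ 2 + 2 * C) / ‖x‖ ^ 2 * sm.real univ := by
    refine norm_integral_le_of_norm_le_const (Eventually.of_forall fun n => ?_)
    rw [Real.norm_eq_abs]
    exact e3_inv hx0 h1 h2 h3 hC (hB.F0 x hR n)
  rw [Pool.Agent.Lib.PenroseSph.sm_univ, Real.norm_eq_abs] at h5
  rw [e1, abs_mul, abs_of_pos (inv_pos.2 hpi)]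
  calc (4 * Real.pi)⁻¹ * |∫ n : S2, ((F (ev (qq f x) n))⁻¹ - (1 + 2 * m / ‖x‖)) ∂sm|
      ≤ (4 * Real.pi)⁻¹ * (2 * (4 * m ^ 2 + 2 * C) / ‖x‖ ^ 2 * (4 * Real.pi)) :=
        mul_le_mul_of_nonneg_left h5 (inv_pos.2 hpi).le
    _ = 2 * (4 * m ^ 2 + 2 * C) / ‖x‖ ^ 2 := by field_simp

theorem mass_lim_b {F : E4 → ℝ} {k : ℝ → ℝ} {r : ℝ × ℝ → ℝ} {f : E3 → ℝ} {m β C R : ℝ}
    (hB : FarEnd F k r f m β C R) (n : S2) :
    Tendsto (fun s : ℝ => mass F k r (qq f (s • (n : E3)))) atTop (𝓝 m) := by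
  have hC0 : 0 ≤ C := by
    have h1 := (abs_nonneg _).trans (hB.k0 R le_rfl)
    have h2 : 0 < R ^ 2 := pow_pos hB.R_pos 2
    by_contra h
    have h3 : C / R ^ 2 < 0 := div_neg_of_neg_of_pos (not_le.1 h) h2
    linarith
  have hN : ∀ s : ℝ, 0 < s → ‖s • (n : E3)‖ = s := by
    intro s hs
    rw [norm_smul, Real.norm_eq_abs, abs_of_pos hs]
    simp
  -- the five limits
  have l1 : Tendsto (fun s : ℝ => s * (fderiv ℝ r (qq f (s • (n : E3))) (0, 1) - 1)) atTop (𝓝 0) := by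
    refine e3_lim (C := C) (R := R) fun s hs hs0 => ?_
    have h := hB.rR (s • (n : E3)) (by rw [hN s hs0]; exact hs)
    rw [hN s hs0] at h
    rwa [zero_div, sub_zero]
  have l2 : Tendsto (fun s : ℝ => s * fderiv ℝ r (qq f (s • (n : E3))) (1, 0)) atTop (𝓝 0) := by
    refine e3_lim (C := C) (R := R) fun s hs hs0 => ?_
    have h := hB.rT (s • (n : E3)) (by rw [hN s hs0]; exact hs)
    rw [hN s hs0] at h
    rwa [zero_div, sub_zero]
  have l3 : Tendsto (fun s : ℝ => s * (k s - 1)) atTop (𝓝 (2 * m)) := by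
    refine e3_lim (C := C) (R := R) fun s hs hs0 => ?_
    have h := hB.k0 s hs
    rwa [sub_sub]
  have l4 : Tendsto (fun s : ℝ => s * (mF F (qq f (s • (n : E3))) - 1)) atTop (𝓝 (2 * m)) := by
    refine e3_lim (C := 2 * (4 * m ^ 2 + 2 * C)) (R := max (max R 1) (max (8 * C) (8 * |2 * m|))) fun s hs hs0 => ?_
    have a1 : R ≤ s := (le_max_left _ _).trans ((le_max_left _ _).trans hs)
    have a2 : 1 ≤ s := (le_max_right _ _).trans ((le_max_left _ _).trans hs)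
    have a3 : 8 * C ≤ s := (le_max_left _ _).trans ((le_max_right _ _).trans hs)
    have a4 : 8 * |2 * m| ≤ s := (le_max_right _ _).trans ((le_max_right _ _).trans hs)
    have h := e3_mF hB hC0 (x := s • (n : E3)) (by rw [hN s hs0]; exact a1) (by rw [hN s hs0]; exact a2)
      (by rw [hN s hs0]; linarith) (by rw [hN s hs0]; linarith)
    rw [hN s hs0] at h
    rwa [sub_sub]
  have l5 : Tendsto (fun s : ℝ => r (qq f (s • (n : E3))) / s) atTop (𝓝 1) := by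
    have b1 : Tendsto (fun s : ℝ => s * (r (qq f (s • (n : E3))) / s - 1)) atTop (𝓝 m) := by
      have b2 : Tendsto (fun s : ℝ => r (qq f (s • (n : E3))) - (s + m)) atTop (𝓝 0) := by
        rw [tendsto_zero_iff_norm_tendsto_zero]
        have h1 : Tendsto (fun s : ℝ => C / s) atTop (𝓝 0) := tendsto_const_nhds.div_atTop tendsto_id
        refine squeeze_zero' (Eventually.of_forall fun s => norm_nonneg _) ?_ h1
        filter_upwards [eventually_ge_atTop R, eventually_gt_atTop (0 : ℝ)] with s hs hs0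
        have h := hB.r0 (s • (n : E3)) (by rw [hN s hs0]; exact hs)
        rw [hN s hs0] at h
        rwa [Real.norm_eq_abs]
      have b3 : Tendsto (fun s : ℝ => r (qq f (s • (n : E3))) - (s + m) + m) atTop (𝓝 (0 + m)) :=
        b2.add tendsto_const_nhds
      rw [zero_add] at b3
      refine b3.congr' ?_
      filter_upwards [eventually_gt_atTop (0 : ℝ)] with s hs
      field_simp
      ring
    exact e3_one b1
  have m1 := e3_one (u := fun s : ℝ => fderiv ℝ r (qq f (s • (n : E3))) (0, 1)) l1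
  have m3 := e3_one l3
  have m4 := e3_one (u := fun s : ℝ => mF F (qq f (s • (n : E3)))) l4
  have m2 : Tendsto (fun s : ℝ => fderiv ℝ r (qq f (s • (n : E3))) (1, 0)) atTop (𝓝 0) := by
    have h1 : Tendsto (fun s : ℝ => s * fderiv ℝ r (qq f (s • (n : E3))) (1, 0) * s⁻¹) atTop (𝓝 (0 * 0)) :=
      l2.mul tendsto_inv_atTop_zero
    rw [mul_zero] at h1
    refine h1.congr' ?_
    filter_upwards [eventually_gt_atTop (0 : ℝ)] with s hs
    field_simp
  -- the combination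
  have t1 : Tendsto (fun s : ℝ => (s * (k s - 1) - s * (fderiv ℝ r (qq f (s • (n : E3))) (0, 1) - 1)) *
      ((k s + fderiv ℝ r (qq f (s • (n : E3))) (0, 1)) / k s ^ 2)) atTop (𝓝 ((2 * m - 0) * ((1 + 1) / 1 ^ 2))) :=
    (l3.sub l1).mul ((m3.add m1).div (m3.pow 2) (by norm_num))
  have t2 : Tendsto (fun s : ℝ => fderiv ℝ r (qq f (s • (n : E3))) (0, 1) ^ 2 / k s ^ 2 *
      (s * (mF F (qq f (s • (n : E3))) - 1))) atTop (𝓝 (1 ^ 2 / 1 ^ 2 * (2 * m))) :=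
    ((m1.pow 2).div (m3.pow 2) (by norm_num)).mul l4
  have t3 : Tendsto (fun s : ℝ => (s * fderiv ℝ r (qq f (s • (n : E3))) (1, 0)) *
      fderiv ℝ r (qq f (s • (n : E3))) (1, 0) * mF F (qq f (s • (n : E3)))) atTop (𝓝 (0 * 0 * 1)) :=
    (l2.mul m2).mul m4
  have t4 := ((t1.sub t2).add t3)
  have t5 := (l5.div_const 2).mul t4
  have e0 : 1 / 2 * ((2 * m - 0) * ((1 + 1) / 1 ^ 2) - 1 ^ 2 / 1 ^ 2 * (2 * m) + 0 * 0 * 1) = m := by ring
  rw [e0] at t5
  refine t5.congr' ?_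
  filter_upwards [eventually_ge_atTop R, eventually_gt_atTop (0 : ℝ)] with s hs hs0
  have hk0 : k s ≠ 0 := (hB.k_pos s hs).ne'
  have e2 : (qq f (s • (n : E3))).2 = s := hN s hs0
  unfold mass Da Db
  rw [e2, e3_lin _ (1 / 2) (1 / (2 * k s)), e3_lin _ (-(1 / 2)) (1 / (2 * k s))]
  generalize fderiv ℝ r (qq f (s • (n : E3))) (0, 1) = u
  generalize fderiv ℝ r (qq f (s • (n : E3))) (1, 0) = v
  generalize mF F (qq f (s • (n : E3))) = w
  generalize r (qq f (s • (n : E3))) = z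
  generalize k s = κ at hk0
  field_simp
  ring

end H17B
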