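import Pool.Agent.Lib.H17B.B1
import Pool.Agent.Lib.H17B.AF
import Pool.Agent.Lib.H17T.FB

set_option autoImplicit false

/-!
# H17B, chunk FE (M): from the hypotheses to the bounds `FarEnd`

Take `R` large, `C` large. `PP f x = pt (f x) x ∈ Near f` and `ev (qq f x) n ∈ Near f` for `x ≠ 0` (`mem_near`, `ev_near` of H17T/T0), positions `x`, `‖x‖ • n`.
F: directly. k: `deriv k t`: the function `p ↦ k ‖pos p‖ - (1 + 2m/‖pos p‖)` has the partial derivatives `(k'(ρ) + 2m/ρ²) ω_i`, so `|k' + 2m/ρ²| |ω_i| ≤ C/ρ³`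
at the event over `x = t • e_0` (`ω_0 = 1`).
r: `e(p) = r(p 0, ‖pos p‖)/‖pos p‖ - (1 + m/‖pos p‖)` has `|e| ≤ C/ρ²`, `|∂_a e| ≤ C/ρ³` at `PP f x`: `r = ρ + m + ρ e`; `r_T = ρ ∂_0 e`; radial
derivative `Σ_i ω_i ∂_{i+1} e = r_ρ/ρ - r/ρ² + m/ρ²`, so `r_ρ = r/ρ - m/ρ + O(ρ⁻²) = 1 + O(ρ⁻²)`.
(`fderiv ℝ r q (1, 0) = r_T`, `fderiv ℝ r q (0, 1) = r_ρ`.)
-/

open MeasureTheory Filter Topology Set Asymptotics
open scoped ContDiff

namespace H17B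

open H17T
open Pool.Agent.Lib.PenroseSph (E3 Tens S2 sm pd trg fluxDensity momDensity admFlux admMom DefFun meanCurv trLevel)

theorem fe_curve1 {φ : E4 → ℝ} {q : ℝ × ℝ} (h : DifferentiableAt ℝ φ (fb_i q)) :
    HasDerivAt (fun t => φ (fb_i (q.1, t))) (H31R.pd 1 φ (fb_i q)) q.2 := by
  have h1 : HasDerivAt (fun t : ℝ => (q.1, t)) ((0 : ℝ), (1 : ℝ)) q.2 := (hasDerivAt_const _ _).prodMk (hasDerivAt_id _)
  have h2 : HasDerivAt (fun t : ℝ => fb_i (q.1, t)) (fb_i (0, 1)) q.2 :=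
    (fb_i.hasFDerivAt (x := (q.1, q.2))).comp_hasDerivAt q.2 h1
  have h3 : HasFDerivAt φ (fderiv ℝ φ (fb_i q)) (fb_i (q.1, q.2)) := h.hasFDerivAt
  have h4 := h3.comp_hasDerivAt q.2 h2
  rw [fb_i1] at h4
  exact h4

theorem fe_curve0 {φ : E4 → ℝ} {q : ℝ × ℝ} (h : DifferentiableAt ℝ φ (fb_i q)) :
    HasDerivAt (fun t => φ (fb_i (t, q.2))) (H31R.pd 0 φ (fb_i q)) q.1 := by
  have h1 : HasDerivAt (fun t : ℝ => (t, q.2)) ((1 : ℝ), (0 : ℝ)) q.1 := (hasDerivAt_id _).prodMk (hasDerivAt_const _ _)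
  have h2 : HasDerivAt (fun t : ℝ => fb_i (t, q.2)) (fb_i (1, 0)) q.1 :=
    (fb_i.hasFDerivAt (x := (q.1, q.2))).comp_hasDerivAt q.1 h1
  have h3 : HasFDerivAt φ (fderiv ℝ φ (fb_i q)) (fb_i (q.1, q.2)) := h.hasFDerivAt
  have h4 := h3.comp_hasDerivAt q.1 h2
  rw [fb_i0] at h4
  exact h4

/-- The function `1 + c/‖pos p‖` is smooth. -/
theorem fe_const (c : ℝ) {f : E3 → ℝ} {p : E4} (hp : p ∈ Near f) :
    DifferentiableAt ℝ (fun p : E4 => 1 + c / ‖pos p‖) p := by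
  have hp1 := hp.1
  have hpos : ContDiffAt ℝ ∞ pos p := pos_smooth.contDiffAt
  have hnorm : ContDiffAt ℝ ∞ (fun p : E4 => ‖pos p‖) p := hpos.norm ℝ hp1
  have hn : ‖pos p‖ ≠ 0 := norm_ne_zero_iff.mpr hp1
  have h : ContDiffAt ℝ ∞ (fun p : E4 => 1 + c / ‖pos p‖) p :=
    contDiffAt_const.add (contDiffAt_const.div hnorm hn)
  exact h.differentiableAt (by simp)

theorem fe_k1 {F : E4 → ℝ} {k : ℝ → ℝ} {r : ℝ × ℝ → ℝ} {f : E3 → ℝ} (hS : Slice F k r f) {m : ℝ} {q : ℝ × ℝ} (hq : q ∈ QQ f) :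
    H31R.pd 1 (fun p => k ‖pos p‖ - (1 + 2 * m / ‖pos p‖)) (fb_i q) = deriv k q.2 + 2 * m / q.2 ^ 2 := by
  have hpos := fb_pos hq
  have hnear := fb_near hq
  have hd : DifferentiableAt ℝ (fun p : E4 => k ‖pos p‖ - (1 + 2 * m / ‖pos p‖)) (fb_i q) :=
    ((fb_φ hS hnear).2.differentiableAt (by simp)).sub (fe_const (2 * m) hnear)
  have h1 := fe_curve1 hd
  have h2 : HasDerivAt (fun t => k t - (1 + 2 * m / t)) (deriv k q.2 + 2 * m / q.2 ^ 2) q.2 := by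
    have h3 : HasDerivAt k (deriv k q.2) q.2 := ((hS.k_smooth _ hpos).differentiableAt (by simp)).hasDerivAt
    have h4 : HasDerivAt (fun t : ℝ => t⁻¹) (-(q.2 ^ 2)⁻¹) q.2 := hasDerivAt_inv hpos.ne'
    have h5 := h3.sub ((h4.const_mul (2 * m)).const_add 1)
    refine (h5.congr_deriv ?_).congr_of_eventuallyEq ?_
    · field_simp
      ring
    · exact Eventually.of_forall fun t => by
        simp only [Pi.sub_apply, div_eq_mul_inv]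
  refine h1.unique (h2.congr_of_eventuallyEq ?_)
  filter_upwards [lt_mem_nhds hpos] with t ht
  rw [fb_norm (q.1, t) ht]

theorem fe_rT {F : E4 → ℝ} {k : ℝ → ℝ} {r : ℝ × ℝ → ℝ} {f : E3 → ℝ} (hS : Slice F k r f) {m : ℝ} {q : ℝ × ℝ} (hq : q ∈ QQ f) :
    H31R.pd 0 (fun p => r (p 0, ‖pos p‖) / ‖pos p‖ - (1 + m / ‖pos p‖)) (fb_i q) = fderiv ℝ r q (1, 0) / q.2 := by
  have hpos := fb_pos hq
  have hnear := fb_near hq
  have hd : DifferentiableAt ℝ (fun p : E4 => r (p 0, ‖pos p‖) / ‖pos p‖ - (1 + m / ‖pos p‖)) (fb_i q) :=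
    ((fb_φ hS hnear).1.differentiableAt (by simp)).sub (fe_const m hnear)
  have h1 := fe_curve0 hd
  have hrq : DifferentiableAt ℝ r (q.1, q.2) := by
    have h1 := hS.r_smooth _ (fb_near hq)
    rw [fb_zero, fb_norm q hpos] at h1
    exact h1.differentiableAt (by simp)
  have h6 : HasDerivAt (fun t : ℝ => (t, q.2)) ((1 : ℝ), (0 : ℝ)) q.1 := (hasDerivAt_id _).prodMk (hasDerivAt_const _ _)
  have h7 : HasDerivAt (fun t : ℝ => r (t, q.2)) (fderiv ℝ r q (1, 0)) q.1 := hrq.hasFDerivAt.comp_hasDerivAt q.1 h6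
  have h2 : HasDerivAt (fun t => r (t, q.2) / q.2 - (1 + m / q.2)) (fderiv ℝ r q (1, 0) / q.2) q.1 :=
    (h7.div_const q.2).sub_const _
  refine h1.unique (h2.congr_of_eventuallyEq ?_)
  refine Eventually.of_forall fun t => ?_
  show r (fb_i (t, q.2) 0, ‖pos (fb_i (t, q.2))‖) / ‖pos (fb_i (t, q.2))‖ - (1 + m / ‖pos (fb_i (t, q.2))‖) = _
  rw [fb_norm (t, q.2) hpos, fb_zero]

theorem fe_rR {F : E4 → ℝ} {k : ℝ → ℝ} {r : ℝ × ℝ → ℝ} {f : E3 → ℝ} (hS : Slice F k r f) {m : ℝ} {q : ℝ × ℝ} (hq : q ∈ QQ f) :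
    H31R.pd 1 (fun p => r (p 0, ‖pos p‖) / ‖pos p‖ - (1 + m / ‖pos p‖)) (fb_i q)
      = fderiv ℝ r q (0, 1) / q.2 - r q / q.2 ^ 2 + m / q.2 ^ 2 := by
  have hpos := fb_pos hq
  have hnear := fb_near hq
  have hd : DifferentiableAt ℝ (fun p : E4 => r (p 0, ‖pos p‖) / ‖pos p‖ - (1 + m / ‖pos p‖)) (fb_i q) :=
    ((fb_φ hS hnear).1.differentiableAt (by simp)).sub (fe_const m hnear)
  have h1 := fe_curve1 hd
  have hrq : DifferentiableAt ℝ r (q.1, q.2) := by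
    have h1 := hS.r_smooth _ (fb_near hq)
    rw [fb_zero, fb_norm q hpos] at h1
    exact h1.differentiableAt (by simp)
  have h6 : HasDerivAt (fun t : ℝ => (q.1, t)) ((0 : ℝ), (1 : ℝ)) q.2 := (hasDerivAt_const _ _).prodMk (hasDerivAt_id _)
  have h7 : HasDerivAt (fun t : ℝ => r (q.1, t)) (fderiv ℝ r q (0, 1)) q.2 := hrq.hasFDerivAt.comp_hasDerivAt q.2 h6
  have h8 : HasDerivAt (fun t : ℝ => t) 1 q.2 := hasDerivAt_id _
  have h4 : HasDerivAt (fun t : ℝ => t⁻¹) (-(q.2 ^ 2)⁻¹) q.2 := hasDerivAt_inv hpos.ne'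
  have h2 := (h7.div h8 hpos.ne').sub ((h4.const_mul m).const_add 1)
  have h9 := h1.unique (h2.congr_of_eventuallyEq ?_)
  · rw [h9]
    field_simp
    ring
  filter_upwards [lt_mem_nhds hpos] with t ht
  show r (fb_i (q.1, t) 0, ‖pos (fb_i (q.1, t))‖) / ‖pos (fb_i (q.1, t))‖ - (1 + m / ‖pos (fb_i (q.1, t))‖) = _
  rw [fb_norm (q.1, t) ht, fb_zero]
  simp only [Pi.sub_apply, div_eq_mul_inv, Pi.mul_apply, Pi.inv_apply]

theorem fe_mono {a C C' ρ : ℝ} {n : ℕ} (h : a ≤ C / ρ ^ n) (hC : C ≤ C') (hρ : 0 < ρ) : a ≤ C' / ρ ^ n :=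
  h.trans (div_le_div_of_nonneg_right hC (by positivity))

theorem farEnd_of {F : E4 → ℝ} {k : ℝ → ℝ} {r : ℝ × ℝ → ℝ} {f : E3 → ℝ} {m β : ℝ} (hS : Slice F k r f)
    (hB : BoostEnd F k r f m β) : ∃ C R : ℝ, FarEnd F k r f m β C R := by
  obtain ⟨C₁, R₁, hR₁, h₁⟩ := hB.f_decay
  obtain ⟨C₂, R₂, hR₂, h₂⟩ := hB.F_decay
  obtain ⟨C₃, R₃, hR₃, h₃'⟩ := hB.k_decay
  obtain ⟨C₄, R₄, hR₄, h₄'⟩ := hB.r_decay
  have h₃ : ∀ p ∈ Near f, R₃ ≤ ‖pos p‖ → |k ‖pos p‖ - (1 + 2 * m / ‖pos p‖)| ≤ C₃ / ‖pos p‖ ^ 2 ∧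
      ∀ a, |H31R.pd a (fun q => k ‖pos q‖ - (1 + 2 * m / ‖pos q‖)) p| ≤ C₃ / ‖pos p‖ ^ 3 := h₃'
  have h₄ : ∀ p ∈ Near f, R₄ ≤ ‖pos p‖ → |r (p 0, ‖pos p‖) / ‖pos p‖ - (1 + m / ‖pos p‖)| ≤ C₄ / ‖pos p‖ ^ 2 ∧
      ∀ a, |H31R.pd a (fun q => r (q 0, ‖pos q‖) / ‖pos q‖ - (1 + m / ‖pos q‖)) p| ≤ C₄ / ‖pos p‖ ^ 3 := h₄'
  obtain ⟨R, hR⟩ : ∃ R, R = max (max R₁ R₂) (max R₃ R₄) := ⟨_, rfl⟩
  have a1 : R₁ ≤ R := by rw [hR]; exact (le_max_left _ _).trans (le_max_left _ _)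
  have a2 : R₂ ≤ R := by rw [hR]; exact (le_max_right _ _).trans (le_max_left _ _)
  have a3 : R₃ ≤ R := by rw [hR]; exact (le_max_left _ _).trans (le_max_right _ _)
  have a4 : R₄ ≤ R := by rw [hR]; exact (le_max_right _ _).trans (le_max_right _ _)
  have hRp : 0 < R := hR₁.trans_le a1
  obtain ⟨C, hC⟩ : ∃ C, C = |C₁| + |C₂| + |C₃| + 2 * |C₄| := ⟨_, rfl⟩
  have b1 : C₁ ≤ C := by
    rw [hC]
    linarith [le_abs_self C₁, abs_nonneg C₂, abs_nonneg C₃, abs_nonneg C₄]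
  have b2 : C₂ ≤ C := by
    rw [hC]
    linarith [le_abs_self C₂, abs_nonneg C₁, abs_nonneg C₃, abs_nonneg C₄]
  have b3 : C₃ ≤ C := by
    rw [hC]
    linarith [le_abs_self C₃, abs_nonneg C₂, abs_nonneg C₁, abs_nonneg C₄]
  have b4 : 2 * C₄ ≤ C := by
    rw [hC]
    linarith [le_abs_self C₄, abs_nonneg C₂, abs_nonneg C₃, abs_nonneg C₁]
  have b5 : C₄ ≤ C := by
    rw [hC]
    linarith [le_abs_self C₄, abs_nonneg C₂, abs_nonneg C₃, abs_nonneg C₁, abs_nonneg C₄]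
  have hx0 : ∀ x : E3, R ≤ ‖x‖ → x ≠ 0 := fun x hx => norm_pos_iff.1 (hRp.trans_le hx)
  have hqq : ∀ x : E3, R ≤ ‖x‖ → qq f x ∈ QQ f := fun x hx => ⟨x, hx0 x hx, rfl⟩
  have hnorm : ∀ x : E3, R ≤ ‖x‖ → ∀ n : S2, ‖pos (ev (qq f x) n)‖ = ‖x‖ := fun x hx n => (ev_near (hqq x hx) n).2.2.1
  have hfb : ∀ x : E3, R ≤ ‖x‖ → ‖pos (fb_i (qq f x))‖ = ‖x‖ := by
    intro x hx
    rw [← fb_ev]
    exact hnorm x hx fb_e
  refine ⟨C, R, ⟨hB.beta, hRp, fun x hx => hS.f_smooth x (hx0 x hx), fun x hx i => ?_, fun x hx i j => ?_,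
    fun x hx n => hS.F_smooth _ (ev_near (hqq x hx) n).1, fun x hx n => hS.F_pos _ (ev_near (hqq x hx) n).1,
    fun x hx n => ?_, fun x hx a => ?_, fun t ht => hS.k_smooth t (hRp.trans_le ht), fun t ht => hS.k_pos t (hRp.trans_le ht),
    fun t ht => ?_, fun t ht => ?_, fun x hx => ?_, fun x hx => ?_, fun x hx => ?_, fun x hx => ?_, fun x hx => ?_⟩⟩
  · have h := (h₁ x (a1.trans hx)).1 i
    rw [← pow_one ‖x‖] at h ⊢
    exact fe_mono h b1 (hRp.trans_le hx)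
  · exact fe_mono ((h₁ x (a1.trans hx)).2 i j) b1 (hRp.trans_le hx)
  · have h := (h₂ _ (ev_near (hqq x hx) n).1 (by rw [hnorm x hx n]; exact a2.trans hx)).1
    rw [hnorm x hx n, neg_div, ← sub_eq_add_neg] at h
    exact fe_mono h b2 (hRp.trans_le hx)
  · have h := (h₂ (pt (f x) x) (mem_near (hx0 x hx)) (by rw [pos_pt]; exact a2.trans hx)).2 a
    rw [pos_pt] at h
    have e : (fun q : E4 => F q - (1 + -(2 * m) / ‖pos q‖)) = fun q => F q - (1 - 2 * m / ‖pos q‖) := by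
      funext q
      rw [neg_div, ← sub_eq_add_neg]
    rw [e] at h
    exact fe_mono h b2 (hRp.trans_le hx)
  · have ht0 : 0 < t := hRp.trans_le ht
    have hq := fb_ρ f ht0
    have h := (h₃ _ (fb_near hq) (by rw [fb_norm _ ht0]; exact a3.trans ht)).1
    rw [fb_norm _ ht0] at h
    exact fe_mono h b3 ht0
  · have ht0 : 0 < t := hRp.trans_le ht
    have hq := fb_ρ f ht0
    have h := (h₃ _ (fb_near hq) (by rw [fb_norm _ ht0]; exact a3.trans ht)).2 1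
    rw [fb_norm _ ht0, fe_k1 hS hq] at h
    exact fe_mono h b3 ht0
  · have h := hS.r_smooth _ (fb_near (hqq x hx))
    rwa [fb_zero, hfb x hx] at h
  · have h := hS.r_pos _ (fb_near (hqq x hx))
    rwa [fb_zero, hfb x hx] at h
  · have hp : 0 < ‖x‖ := hRp.trans_le hx
    have h := (h₄ _ (fb_near (hqq x hx)) (by rw [hfb x hx]; exact a4.trans hx)).1
    rw [fb_zero, hfb x hx] at h
    have h5 : |r (qq f x) / ‖x‖ - (1 + m / ‖x‖)| ≤ C₄ / ‖x‖ ^ 2 := h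
    have e : r (qq f x) - (‖x‖ + m) = ‖x‖ * (r (qq f x) / ‖x‖ - (1 + m / ‖x‖)) := by
      field_simp
    rw [e, abs_mul, abs_of_pos hp]
    calc ‖x‖ * |r (qq f x) / ‖x‖ - (1 + m / ‖x‖)| ≤ ‖x‖ * (C₄ / ‖x‖ ^ 2) := mul_le_mul_of_nonneg_left h5 hp.le
      _ = C₄ / ‖x‖ := by field_simp
      _ ≤ C / ‖x‖ := div_le_div_of_nonneg_right b5 hp.le
  · have hp : 0 < ‖x‖ := hRp.trans_le hx
    have h := (h₄ _ (fb_near (hqq x hx)) (by rw [hfb x hx]; exact a4.trans hx)).2 0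
    rw [hfb x hx, fe_rT hS (hqq x hx)] at h
    have h5 : |fderiv ℝ r (qq f x) (1, 0) / ‖x‖| ≤ C₄ / ‖x‖ ^ 3 := h
    rw [abs_div, abs_of_pos hp, div_le_iff₀ hp] at h5
    refine h5.trans ?_
    have e : C₄ / ‖x‖ ^ 3 * ‖x‖ = C₄ / ‖x‖ ^ 2 := by field_simp
    rw [e]
    exact div_le_div_of_nonneg_right b5 (by positivity)
  · have hp : 0 < ‖x‖ := hRp.trans_le hx
    have h := (h₄ _ (fb_near (hqq x hx)) (by rw [hfb x hx]; exact a4.trans hx))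
    have h6 := h.2 1
    have h7 := h.1
    rw [fb_zero, hfb x hx] at h7
    have h8 : |r (qq f x) / ‖x‖ - (1 + m / ‖x‖)| ≤ C₄ / ‖x‖ ^ 2 := h7
    rw [hfb x hx, fe_rR hS (hqq x hx)] at h6
    have h9 : |fderiv ℝ r (qq f x) (0, 1) / ‖x‖ - r (qq f x) / ‖x‖ ^ 2 + m / ‖x‖ ^ 2| ≤ C₄ / ‖x‖ ^ 3 := h6
    have e : fderiv ℝ r (qq f x) (0, 1) - 1
        = ‖x‖ * (fderiv ℝ r (qq f x) (0, 1) / ‖x‖ - r (qq f x) / ‖x‖ ^ 2 + m / ‖x‖ ^ 2)
          + (r (qq f x) / ‖x‖ - (1 + m / ‖x‖)) := by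
      field_simp
      ring
    rw [e]
    refine (abs_add_le _ _).trans ?_
    rw [abs_mul, abs_of_pos hp]
    calc ‖x‖ * |fderiv ℝ r (qq f x) (0, 1) / ‖x‖ - r (qq f x) / ‖x‖ ^ 2 + m / ‖x‖ ^ 2|
          + |r (qq f x) / ‖x‖ - (1 + m / ‖x‖)|
        ≤ ‖x‖ * (C₄ / ‖x‖ ^ 3) + C₄ / ‖x‖ ^ 2 := add_le_add (mul_le_mul_of_nonneg_left h9 hp.le) h8
      _ = 2 * C₄ / ‖x‖ ^ 2 := by
        field_simp
        ring
      _ ≤ C / ‖x‖ ^ 2 := div_le_div_of_nonneg_right b4 (by positivity)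

end H17B
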