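import Pool.Agent.Lib.H17T.Top
import Pool.Agent.Lib.H17B.D4
import Pool.Agent.Lib.H17B.D6
import Pool.Agent.Lib.H17B.E1
import Pool.Agent.Lib.H17B.E2
import Pool.Agent.Lib.H17B.E3
import Pool.Agent.Lib.H17B.FE

set_option autoImplicit false

/-!
# H17B: assembly of the theorem for boosted slices
-/

open MeasureTheory Filter Topology Set Asymptotics
open scoped ContDiff

namespace H17B

open H17T
open Pool.Agent.Lib.PenroseSph (E3 Tens S2 sm pd trg fluxDensity momDensity admFlux admMom DefFun meanCurv trLevel)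

theorem ends_b {F : E4 → ℝ} {k : ℝ → ℝ} {r : ℝ × ℝ → ℝ} {f : E3 → ℝ} {m β : ℝ} (hS : Slice F k r f)
    (hB : BoostEnd F k r f m β) : Ends F k r f m :=
  by
  obtain ⟨C, R, hF⟩ := farEnd_of hS hB
  refine ⟨pos_b hF, ?_, mass_lim_b hF⟩
  intro M
  obtain ⟨R', h⟩ := grow_b hF (X := XX k) (fun t ht => XX_deriv hS.k_smooth (hF.R_pos.trans_le ht)) M
  refine ⟨R', fun x hx => ?_⟩
  obtain ⟨h1, h2⟩ := h x hx
  unfold NN
  constructor <;> linarith

/-- From the reduced conclusion to areas. -/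
theorem area_of_env {F : E4 → ℝ} {k : ℝ → ℝ} {r : ℝ × ℝ → ℝ} {f : E3 → ℝ} (hS : Slice F k r f) {Om : Set E3} {E : ℝ}
    (hE : 0 < E) (hEnv : ∀ δ : ℝ, 0 < δ → Env k r f Om E δ) {δ : ℝ} (hδ : 0 < δ) :
    ∃ s : E3 → ℝ, RadialGraph s ∧ (∀ x ∈ Om, x ≠ 0 → ‖x‖ < s x) ∧
      graphArea (slice (stMetric F k r) f) s ≤ 16 * Real.pi * E ^ 2 + δ := by
  have hR := red_of_slice hS
  obtain ⟨η, hη, hη2⟩ : ∃ η : ℝ, 0 < η ∧ 4 * Real.pi * (2 * E + η) ^ 2 ≤ 16 * Real.pi * E ^ 2 + δ := by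
    have hc : ContinuousAt (fun η : ℝ => 4 * Real.pi * (2 * E + η) ^ 2) 0 := by fun_prop
    have h1 : (fun η : ℝ => 4 * Real.pi * (2 * E + η) ^ 2) 0 < 16 * Real.pi * E ^ 2 + δ := by
      simp only [add_zero]
      have : 4 * Real.pi * (2 * E) ^ 2 = 16 * Real.pi * E ^ 2 := by ring
      linarith
    have h2 := hc.eventually (gt_mem_nhds h1)
    obtain ⟨η, h3, h4⟩ := ((h2.filter_mono nhdsWithin_le_nhds).and
      (self_mem_nhdsWithin : Ioi (0 : ℝ) ∈ 𝓝[>] 0)).exists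
    exact ⟨η, h4, h3.le⟩
  obtain ⟨s, hs, hsO, hsn⟩ := hEnv η hη
  refine ⟨s, hs, hsO, ?_⟩
  refine (area_total hS (M := 2 * E + η) (by linarith) ?_ ?_).trans hη2
  · intro n
    have hn0 : (n : E3) ≠ 0 := by
      intro h
      have := norm_eq_of_mem_sphere n
      rw [h, norm_zero] at this
      exact zero_ne_one this
    exact ⟨hR.r_pos _ ⟨s n • (n : E3), smul_ne_zero (hs.pos _ hn0).ne' hn0, rfl⟩, (hsn n).1⟩
  · intro n
    obtain ⟨-, l, m, hl, hm, hlm, hi⟩ := hsn n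
    exact area_le hS hs n hl hm hlm hi

theorem admMom_neg (g h : Tens) (i : Fin 3) : admMom g (fun x => -h x) i = fun t => -admMom g h i t := by
  funext t
  unfold admMom
  rw [← mul_neg, ← integral_neg]
  congr 1
  refine integral_congr_ae (Eventually.of_forall fun n => ?_)
  show t ^ 2 * momDensity g (fun x => -h x) i (t • (n : E3)) = -(t ^ 2 * momDensity g h i (t • (n : E3)))
  rw [← mul_neg]
  congr 1
  unfold momDensity Pool.Agent.Lib.PenroseSph.trg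
  rw [← Finset.sum_neg_distrib]
  refine Finset.sum_congr rfl fun j _ => ?_
  simp only [Matrix.neg_apply, mul_neg, Finset.sum_neg_distrib]
  ring

theorem boost_neg (β : ℝ) (h : Tens) : boost β (fun x => -h x) = fun y => -boost β h y := by
  funext y
  ext i j
  simp [boost]

theorem main_boost {F : E4 → ℝ} {k : ℝ → ℝ} {r : ℝ × ℝ → ℝ} {f : E3 → ℝ} (hS : Slice F k r f) {m β : ℝ}
    (hB : BoostEnd F k r f m β) {h : Tens}
    (hh : (∀ x, h x = second (stMetric F k r) f x) ∨ ∀ x, h x = -second (stMetric F k r) f x)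
    {Om : Set E3} (hOo : IsOpen Om) (hOb : Bornology.IsBounded Om)
    (hin : (∃ δ : ℝ, 0 < δ ∧ ∀ x : E3, x ≠ 0 → ‖x‖ < δ → x ∈ Om) ∨
      (Om.Nonempty ∧ ContinuousAt f 0 ∧ ∃ K δ : ℝ, 0 < δ ∧ ∀ t : ℝ, 0 < t → t < δ → k t ≤ K))
    (hor : ∀ x ∈ frontier Om, x ≠ 0 → ∃ w : E3 → ℝ, DefFun Om w x ∧
      meanCurv (slice (stMetric F k r) f) w x ≤ trLevel (slice (stMetric F k r) f) h w x) :
    ∃ (E : ℝ) (P : Fin 3 → ℝ),
      Tendsto (admFlux (boost β (slice (stMetric F k r) f))) atTop (𝓝 E) ∧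
      (∀ i, Tendsto (admMom (boost β (slice (stMetric F k r) f)) (boost β h) i) atTop (𝓝 (P i))) ∧
      0 < m ∧ E = m / Real.sqrt (1 - β ^ 2) ∧ ∑ i, P i ^ 2 = β ^ 2 * E ^ 2 ∧ Real.sqrt (∑ i, P i ^ 2) < E ∧
      ∀ δ : ℝ, 0 < δ → ∃ s : E3 → ℝ, RadialGraph s ∧ (∀ x ∈ Om, x ≠ 0 → ‖x‖ < s x) ∧
        graphArea (slice (stMetric F k r) f) s ≤ 16 * Real.pi * (E ^ 2 - ∑ i, P i ^ 2) + δ := by
  have hR := red_of_slice hS
  have hEnds := ends_b hS hB
  obtain ⟨C, R, hF⟩ := farEnd_of hS hB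
  obtain ⟨ε, hε, p, ρ0, hp, hρ0, hW, hOm, hin0⟩ := touch_main hS hh hOo hOb hin hor
  obtain ⟨hm, hEnv⟩ := env_both hε hR hEnds hp hW hOm hρ0 hin0
  obtain ⟨hγ1, hγ2⟩ := lor_one_le hB.beta
  have hγ0 : 0 < lor β := lt_of_lt_of_le one_pos hγ1
  -- sign of the momentum
  obtain ⟨τ, hτ, hmom⟩ : ∃ τ : ℝ, τ ^ 2 = 1 ∧ ∀ i,
      Tendsto (admMom (boost β (slice (stMetric F k r) f)) (boost β h) i) atTop (𝓝 (τ * (lor β * β * m * dz i))) := by
    rcases hh with hh | hh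
    · refine ⟨1, by norm_num, fun i => ?_⟩
      have : h = second (stMetric F k r) f := funext hh
      rw [this, one_mul]
      exact momentum_lim hF i
    · refine ⟨-1, by norm_num, fun i => ?_⟩
      have hfun : h = fun x => -second (stMetric F k r) f x := funext hh
      rw [hfun, boost_neg, admMom_neg, neg_one_mul]
      exact (momentum_lim hF i).neg
  have hsum : ∑ i, (τ * (lor β * β * m * dz i)) ^ 2 = β ^ 2 * (lor β * m) ^ 2 := by
    rw [Fin.sum_univ_three]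
    unfold dz
    simp only [if_true, Fin.isValue, one_ne_zero, if_false, Fin.reduceEq]
    linear_combination (β ^ 2 * (lor β * m) ^ 2) * hτ
  refine ⟨lor β * m, fun i => τ * (lor β * β * m * dz i), energy_lim hF, hmom, hm, ?_, hsum, ?_, ?_⟩
  · unfold lor
    ring
  · rw [hsum]
    have h1 : β ^ 2 * (lor β * m) ^ 2 = (|β| * (lor β * m)) ^ 2 := by
      rw [mul_pow |β|, sq_abs]
    rw [h1, Real.sqrt_sq (by positivity)]
    have h2 : 0 < lor β * m := mul_pos hγ0 hm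
    calc |β| * (lor β * m) < 1 * (lor β * m) := mul_lt_mul_of_pos_right hB.beta h2
      _ = lor β * m := one_mul _
  · intro δ hδ
    obtain ⟨s, hs, hsO, harea⟩ := area_of_env hS hm hEnv hδ
    refine ⟨s, hs, hsO, harea.trans (le_of_eq ?_)⟩
    have h3 : (lor β * m) ^ 2 - ∑ i, (τ * (lor β * β * m * dz i)) ^ 2 = m ^ 2 := by
      rw [hsum]
      linear_combination m ^ 2 * hγ2
    show 16 * Real.pi * m ^ 2 + δ = 16 * Real.pi * ((lor β * m) ^ 2 - ∑ i, (τ * (lor β * β * m * dz i)) ^ 2) + δ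
    rw [h3]

end H17B
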