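import Pool.Agent.Lib.H17V.Top
import Pool.Agent.Lib.H17B.D4
import Pool.Agent.Lib.H17B.D6
import Pool.Agent.Lib.H17B.E1
import Pool.Agent.Lib.H17B.E2
import Pool.Agent.Lib.H17B.E3
import Pool.Agent.Lib.H17B.FEV

set_option autoImplicit false

/-!
# H17B over H17V: assembly of the theorem for all velocities at infinity
-/

open MeasureTheory Filter Topology Set Asymptotics
open scoped ContDiff

namespace H17V

open H17T H17B
open Pool.Agent.Lib.PenroseSph (E3 Tens S2 sm pd trg fluxDensity momDensity admFlux admMom DefFun meanCurv trLevel)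

theorem ends_b {R₀ : ℝ} {F : E4 → ℝ} {k : ℝ → ℝ} {r : ℝ × ℝ → ℝ} {f : E3 → ℝ} {m β : ℝ} (hS : Slice R₀ F k r f)
    (hB : BoostEnd R₀ F k r f m β) : Ends R₀ F k r f m := by
  obtain ⟨C, R, hR, hF⟩ := farEnd_of hS hB
  refine ⟨pos_b hF, ?_, mass_lim_b hF⟩
  intro M
  obtain ⟨R', h⟩ := grow_b hF (X := XX R₀ k) (fun t ht => XX_deriv hS.k_smooth (hR.trans_le ht)) M
  refine ⟨R', fun x hx => ?_⟩
  obtain ⟨h1, h2⟩ := h x hx
  unfold NN
  constructor <;> linarith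

theorem boost_neg (β : ℝ) (h : Tens) : boost β (fun x => -h x) = fun y => -boost β h y := by
  funext y
  ext i j
  simp [boost]

theorem boost_zero (g : Tens) : boost 0 g = g := by
  have h1 : lor 0 = 1 := by simp [lor]
  have h2 : ∀ y : E3, stretch 1 y = y := by
    intro y
    ext i
    fin_cases i <;> simp [stretch]
  funext y
  ext i j
  simp [boost, h1, h2, sc]

/-- The map `y ↦ x` does not decrease the norm. -/
theorem norm_stretch {β : ℝ} (hβ : |β| < 1) (y : E3) : ‖y‖ ≤ ‖stretch (lor β) y‖ := by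
  obtain ⟨h1, -⟩ := lor_one_le hβ
  rw [EuclideanSpace.norm_eq, EuclideanSpace.norm_eq]
  apply Real.sqrt_le_sqrt
  rw [Fin.sum_univ_three, Fin.sum_univ_three]
  simp only [Real.norm_eq_abs, sq_abs]
  have e0 : stretch (lor β) y 0 = lor β * y 0 := by simp [stretch]
  have e1 : stretch (lor β) y 1 = y 1 := by simp [stretch]
  have e2 : stretch (lor β) y 2 = y 2 := by simp [stretch]
  rw [e0, e1, e2]
  have h2 : y 0 ^ 2 ≤ (lor β * y 0) ^ 2 := by
    rw [mul_pow]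
    have : 1 ≤ lor β ^ 2 := by nlinarith
    nlinarith [sq_nonneg (y 0)]
  linarith

theorem boost_congr {β : ℝ} (hβ : |β| < 1) {R₀ : ℝ} {g g' : Tens} (h : ∀ x : E3, R₀ < ‖x‖ → g x = g' x) :
    ∀ x : E3, R₀ < ‖x‖ → boost β g x = boost β g' x := by
  intro y hy
  have h1 := h _ (lt_of_lt_of_le hy (norm_stretch hβ y))
  unfold boost
  rw [h1]

/-- The limits for boosted slices. -/
theorem main_boost {R₀ : ℝ} {F : E4 → ℝ} {k : ℝ → ℝ} {r : ℝ × ℝ → ℝ} {f : E3 → ℝ} (hS : Slice R₀ F k r f) {m β : ℝ}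
    (hB : BoostEnd R₀ F k r f m β) {g h : Tens}
    (hg : ∀ x : E3, R₀ < ‖x‖ → g x = slice (stMetric F k r) f x)
    (hh : (∀ x : E3, R₀ < ‖x‖ → h x = second (stMetric F k r) f x) ∨
      ∀ x : E3, R₀ < ‖x‖ → h x = -second (stMetric F k r) f x)
    {Om : Set E3} (hOo : IsOpen Om) (hOb : Bornology.IsBounded Om)
    (hin : (∃ δ : ℝ, 0 < δ ∧ ∀ x : E3, R₀ < ‖x‖ → ‖x‖ < R₀ + δ → x ∈ Om) ∨
      (R₀ = 0 ∧ Om.Nonempty ∧ ContinuousAt f 0))
    (hor : ∀ x ∈ frontier Om, R₀ < ‖x‖ → ∃ w : E3 → ℝ, DefFun Om w x ∧ meanCurv g w x ≤ trLevel g h w x) :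
    ∃ (E : ℝ) (P : Fin 3 → ℝ), Tendsto (admFlux (boost β g)) atTop (𝓝 E) ∧
      (∀ i, Tendsto (admMom (boost β g) (boost β h) i) atTop (𝓝 (P i))) ∧
      0 < m ∧ E = m / Real.sqrt (1 - β ^ 2) ∧ ∑ i, P i ^ 2 = β ^ 2 * E ^ 2 ∧ Real.sqrt (∑ i, P i ^ 2) < E ∧
      ∀ δ : ℝ, 0 < δ → ∃ s : E3 → ℝ, RadialGraph s ∧ (∀ x : E3, x ≠ 0 → R₀ < s x) ∧
        (∀ x ∈ Om, R₀ < ‖x‖ → ‖x‖ < s x) ∧ graphArea g s ≤ 16 * Real.pi * (E ^ 2 - ∑ i, P i ^ 2) + δ := by
  obtain ⟨C, R, -, hF⟩ := farEnd_of hS hB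
  obtain ⟨hm, hfin⟩ := core hS (ends_b hS hB) hg hh hOo hOb hin hor
  obtain ⟨hγ1, hγ2⟩ := lor_one_le hB.beta
  have hγ0 : 0 < lor β := lt_of_lt_of_le one_pos hγ1
  -- the energy
  have hE : Tendsto (admFlux (boost β g)) atTop (𝓝 (lor β * m)) := by
    refine (H17B.energy_lim hF).congr' ?_
    filter_upwards [eventually_gt_atTop R₀] with t ht
    exact (admFlux_congr hS.nonneg (boost_congr hB.beta hg) ht).symm
  -- the momentum
  obtain ⟨τ, hτ, hmom⟩ : ∃ τ : ℝ, τ ^ 2 = 1 ∧ ∀ i,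
      Tendsto (admMom (boost β g) (boost β h) i) atTop (𝓝 (τ * (lor β * β * m * dz i))) := by
    rcases hh with hh | hh
    · refine ⟨1, by norm_num, fun i => ?_⟩
      rw [one_mul]
      refine (H17B.momentum_lim hF i).congr' ?_
      filter_upwards [eventually_gt_atTop R₀] with t ht
      exact (admMom_congr hS.nonneg (boost_congr hB.beta hg) (boost_congr hB.beta hh) i ht).symm
    · refine ⟨-1, by norm_num, fun i => ?_⟩
      have h1 : Tendsto (admMom (boost β (slice (stMetric F k r) f))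
          (boost β fun x => -second (stMetric F k r) f x) i) atTop (𝓝 (-1 * (lor β * β * m * dz i))) := by
        rw [boost_neg, admMom_neg, neg_one_mul]
        exact (H17B.momentum_lim hF i).neg
      refine h1.congr' ?_
      filter_upwards [eventually_gt_atTop R₀] with t ht
      exact (admMom_congr hS.nonneg (boost_congr hB.beta hg) (boost_congr hB.beta hh) i ht).symm
  have hsum : ∑ i, (τ * (lor β * β * m * dz i)) ^ 2 = β ^ 2 * (lor β * m) ^ 2 := by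
    rw [Fin.sum_univ_three]
    unfold dz
    simp only [if_true, Fin.isValue, one_ne_zero, if_false, Fin.reduceEq]
    linear_combination (β ^ 2 * (lor β * m) ^ 2) * hτ
  refine ⟨lor β * m, fun i => τ * (lor β * β * m * dz i), hE, hmom, hm, ?_, hsum, ?_, ?_⟩
  · unfold lor
    ring
  · rw [hsum]
    have h1 : β ^ 2 * (lor β * m) ^ 2 = (|β| * (lor β * m)) ^ 2 := by
      rw [mul_pow |β|, sq_abs]
    rw [h1, Real.sqrt_sq (by positivity)]
    have h2 : 0 < lor β * m := mul_pos hγ0 hm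
    calc |β| * (lor β * m) < 1 * (lor β * m) := mul_lt_mul_of_pos_right hB.beta h2
      _ = lor β * m := one_mul _
  · intro δ hδ
    obtain ⟨s, hs, hsR, hsO, harea⟩ := hfin δ hδ
    refine ⟨s, hs, hsR, hsO, harea.trans (le_of_eq ?_)⟩
    have h3 : (lor β * m) ^ 2 - ∑ i, (τ * (lor β * β * m * dz i)) ^ 2 = m ^ 2 := by
      rw [hsum]
      linear_combination m ^ 2 * hγ2
    show 16 * Real.pi * m ^ 2 + δ = 16 * Real.pi * ((lor β * m) ^ 2 - ∑ i, (τ * (lor β * β * m * dz i)) ^ 2) + δ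
    rw [h3]

/-- One statement for all velocities at infinity. -/
theorem main_all {R₀ β : ℝ} {F : E4 → ℝ} {k : ℝ → ℝ} {r : ℝ × ℝ → ℝ} {f : E3 → ℝ} (hS : Slice R₀ F k r f)
    (hA : AsympFlatB R₀ β F k r f) {g h : Tens}
    (hg : ∀ x : E3, R₀ < ‖x‖ → g x = slice (stMetric F k r) f x)
    (hh : (∀ x : E3, R₀ < ‖x‖ → h x = second (stMetric F k r) f x) ∨
      ∀ x : E3, R₀ < ‖x‖ → h x = -second (stMetric F k r) f x)
    {Om : Set E3} (hOo : IsOpen Om) (hOb : Bornology.IsBounded Om)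
    (hin : (∃ δ : ℝ, 0 < δ ∧ ∀ x : E3, R₀ < ‖x‖ → ‖x‖ < R₀ + δ → x ∈ Om) ∨
      (R₀ = 0 ∧ Om.Nonempty ∧ ContinuousAt f 0))
    (hor : ∀ x ∈ frontier Om, R₀ < ‖x‖ → ∃ w : E3 → ℝ, DefFun Om w x ∧ meanCurv g w x ≤ trLevel g h w x) :
    ∃ (E : ℝ) (P : Fin 3 → ℝ), Tendsto (admFlux (boost β g)) atTop (𝓝 E) ∧
      (∀ i, Tendsto (admMom (boost β g) (boost β h) i) atTop (𝓝 (P i))) ∧
      ∑ i, P i ^ 2 = β ^ 2 * E ^ 2 ∧ Real.sqrt (∑ i, P i ^ 2) < E ∧
      ∀ δ : ℝ, 0 < δ → ∃ s : E3 → ℝ, RadialGraph s ∧ (∀ x : E3, x ≠ 0 → R₀ < s x) ∧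
        (∀ x ∈ Om, R₀ < ‖x‖ → ‖x‖ < s x) ∧ graphArea g s ≤ 16 * Real.pi * (E ^ 2 - ∑ i, P i ^ 2) + δ := by
  by_cases hβ : β = 0
  · subst hβ
    have hA' : AsympFlat R₀ F k r f := by
      refine ⟨?_, hA.F_decay, hA.k_decay, hA.r_decay⟩
      obtain ⟨C, R, hR, h⟩ := hA.f_decay
      refine ⟨C, R, hR, fun x hx => ⟨fun i => ?_, (h x hx).2⟩⟩
      have := (h x hx).1 i
      simpa using this
    obtain ⟨E, hE, hP, hEpos, hfin⟩ := main hS hA' hg hh hOo hOb hin hor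
    refine ⟨E, fun _ => 0, ?_, ?_, by simp, by simpa using hEpos, ?_⟩
    · rw [boost_zero]
      exact hE
    · intro i
      rw [boost_zero, boost_zero]
      exact hP i
    · intro δ hδ
      obtain ⟨s, hs, hsR, hsO, harea⟩ := hfin δ hδ
      refine ⟨s, hs, hsR, hsO, ?_⟩
      simpa using harea
  · obtain ⟨m, h1, h2, h3⟩ := hA.schw hβ
    obtain ⟨E, P, hE, hP, -, -, h6, h7, h8⟩ :=
      main_boost hS (m := m) (β := β) ⟨hA.beta, hA.f_decay, h1, h2, h3⟩ hg hh hOo hOb hin hor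
    exact ⟨E, P, hE, hP, h6, h7, h8⟩

end H17V
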